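import Pool.Agent.Lib.LinSpace.Machine

/-!
A small structured language of stack programs reading an input word from left to right, with a
space bound on the stacks.
-/

set_option autoImplicit false

namespace Pool.Agent.Lib.LinSpace

/-- Structured stack programs. The stacks are indexed by natural numbers and hold bits; the
command `read` reads the next letter of the input. -/
inductive Cmd (A : Type) : Type
  | skip : Cmd A
  | push (k : ℕ) (a : Bool) : Cmd A
  | pop (k : ℕ) : Cmd A
  | seq (c d : Cmd A) : Cmd A
  | case (k : ℕ) (f : Option Bool → Cmd A) : Cmd A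
  | loop (k : ℕ) (f : Bool → Cmd A) : Cmd A
  | read (f : Option A → Cmd A) : Cmd A

/-- Contents of all stacks. -/
abbrev St := ℕ → List Bool

/-- `Exec m c w s w' s'`: the program `c` started with the remaining input `w` and the stacks
`s` ends with the remaining input `w'` and the stacks `s'`, and no `push` makes a stack higher
than `m`. -/
inductive Exec {A : Type} (m : ℕ) : Cmd A → List A → St → List A → St → Prop
  | skip (w : List A) (s : St) : Exec m .skip w s w s
  | push (k : ℕ) (a : Bool) (w : List A) (s : St) : (s k).length + 1 ≤ m →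
      Exec m (.push k a) w s w (Function.update s k (a :: s k))
  | pop (k : ℕ) (w : List A) (s : St) : Exec m (.pop k) w s w (Function.update s k (s k).tail)
  | seq {c d : Cmd A} {w w' w'' : List A} {s s' s'' : St} :
      Exec m c w s w' s' → Exec m d w' s' w'' s'' → Exec m (.seq c d) w s w'' s''
  | case {k : ℕ} {f : Option Bool → Cmd A} {w w' : List A} {s s' : St} :
      Exec m (f (s k).head?) w s w' s' → Exec m (.case k f) w s w' s'
  | loop_nil {k : ℕ} {f : Bool → Cmd A} {w : List A} {s : St} : s k = [] →
      Exec m (.loop k f) w s w s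
  | loop_cons {k : ℕ} {f : Bool → Cmd A} {w w' w'' : List A} {s s' s'' : St} {a : Bool}
      {l : List Bool} :
      s k = a :: l → Exec m (f a) w (Function.update s k l) w' s' →
      Exec m (.loop k f) w' s' w'' s'' → Exec m (.loop k f) w s w'' s''
  | read {f : Option A → Cmd A} {w w' : List A} {s s' : St} :
      Exec m (f w.head?) w.tail s w' s' → Exec m (.read f) w s w' s'

/-- All stacks have height at most `m`. -/
def Fits (m : ℕ) (s : St) : Prop := ∀ k, (s k).length ≤ m

theorem Fits.update {m : ℕ} {s : St} (h : Fits m s) {k : ℕ} {l : List Bool} (hl : l.length ≤ m) :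
    Fits m (Function.update s k l) := by
  intro j
  by_cases hj : j = k
  · subst hj; simpa using hl
  · rw [Function.update_of_ne hj]; exact h j

theorem Exec.fits {A : Type} {m : ℕ} {c : Cmd A} {w w' : List A} {s s' : St}
    (h : Exec m c w s w' s') : Fits m s → Fits m s' := by
  induction h with
  | skip w s => exact fun h => h
  | push k a w s hk => exact fun h => h.update (by simpa using hk)
  | pop k w s => exact fun h => h.update (by have := h k; simp; omega)
  | seq _ _ ih1 ih2 => exact fun h => ih2 (ih1 h)
  | case _ ih => exact ih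
  | loop_nil _ => exact fun h => h
  | @loop_cons k f w w' w'' s s' s'' a l hs _ _ ih1 ih2 =>
    exact fun h => ih2 (ih1 (h.update (by have := h k; rw [hs] at this; simp at this; omega)))
  | read _ ih => exact ih

theorem Exec.mono {A : Type} {m m' : ℕ} (hm : m ≤ m') {c : Cmd A} {w w' : List A} {s s' : St}
    (h : Exec m c w s w' s') : Exec m' c w s w' s' := by
  induction h with
  | skip w s => exact .skip w s
  | push k a w s hk => exact .push k a w s (hk.trans hm)
  | pop k w s => exact .pop k w s
  | seq _ _ ih1 ih2 => exact .seq ih1 ih2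
  | case _ ih => exact .case ih
  | loop_nil h => exact .loop_nil h
  | loop_cons hs _ _ ih1 ih2 => exact .loop_cons hs ih1 ih2
  | read _ ih => exact .read ih

namespace Cmd

variable {A : Type}

/-- `c.Bdd N`: all stacks mentioned by `c` have index less than `N`. -/
def Bdd (N : ℕ) : Cmd A → Prop
  | skip => True
  | push k _ => k < N
  | pop k => k < N
  | seq c d => c.Bdd N ∧ d.Bdd N
  | case k f => k < N ∧ ∀ o, (f o).Bdd N
  | loop k f => k < N ∧ ∀ a, (f a).Bdd N
  | read f => ∀ o, (f o).Bdd N

theorem Bdd.mono {N N' : ℕ} (h : N ≤ N') : ∀ {c : Cmd A}, c.Bdd N → c.Bdd N'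
  | skip, _ => trivial
  | push _ _, hc => lt_of_lt_of_le hc h
  | pop _, hc => lt_of_lt_of_le hc h
  | seq _ _, hc => ⟨Bdd.mono h hc.1, Bdd.mono h hc.2⟩
  | case _ _, hc => ⟨lt_of_lt_of_le hc.1 h, fun o => Bdd.mono h (hc.2 o)⟩
  | loop _ _, hc => ⟨lt_of_lt_of_le hc.1 h, fun o => Bdd.mono h (hc.2 o)⟩
  | read _, hc => fun o => Bdd.mono h (hc o)

theorem exists_bdd [Finite A] (c : Cmd A) : ∃ N, c.Bdd N := by
  induction c with
  | skip => exact ⟨0, trivial⟩
  | push k a => exact ⟨k + 1, Nat.lt_succ_self k⟩
  | pop k => exact ⟨k + 1, Nat.lt_succ_self k⟩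
  | seq c d ihc ihd =>
    obtain ⟨N, hN⟩ := ihc
    obtain ⟨M, hM⟩ := ihd
    exact ⟨max N M, hN.mono (le_max_left _ _), hM.mono (le_max_right _ _)⟩
  | case k f ih =>
    choose N hN using ih
    obtain ⟨M, hM⟩ := (Set.finite_range N).bddAbove
    refine ⟨max (k + 1) M, lt_of_lt_of_le (Nat.lt_succ_self k) (le_max_left _ _), fun o => ?_⟩
    exact (hN o).mono (le_trans (hM ⟨o, rfl⟩) (le_max_right _ _))
  | loop k f ih =>
    choose N hN using ih
    obtain ⟨M, hM⟩ := (Set.finite_range N).bddAbove
    refine ⟨max (k + 1) M, lt_of_lt_of_le (Nat.lt_succ_self k) (le_max_left _ _), fun o => ?_⟩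
    exact (hN o).mono (le_trans (hM ⟨o, rfl⟩) (le_max_right _ _))
  | read f ih =>
    choose N hN using ih
    obtain ⟨M, hM⟩ := (Set.finite_range N).bddAbove
    exact ⟨M, fun o => (hN o).mono (hM ⟨o, rfl⟩)⟩

/-- Program points reachable when running `c` with the continuation `κ`. -/
def points : Cmd A → List (Cmd A) → Set (List (Cmd A))
  | skip, κ => {skip :: κ}
  | push k a, κ => {push k a :: κ}
  | pop k, κ => {pop k :: κ}
  | seq c d, κ => insert (seq c d :: κ) (points c (d :: κ) ∪ points d κ)
  | case k f, κ => insert (case k f :: κ) (⋃ o, points (f o) κ)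
  | loop k f, κ => insert (loop k f :: κ) (⋃ a, points (f a) (loop k f :: κ))
  | read f, κ => insert (read f :: κ) (⋃ o, points (f o) κ)

theorem points_finite [Finite A] (c : Cmd A) : ∀ κ, (points c κ).Finite := by
  induction c with
  | skip => intro κ; exact Set.finite_singleton _
  | push k a => intro κ; exact Set.finite_singleton _
  | pop k => intro κ; exact Set.finite_singleton _
  | seq c d ihc ihd => intro κ; exact ((ihc _).union (ihd _)).insert _
  | case k f ih => intro κ; exact (Set.finite_iUnion fun o => ih o _).insert _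
  | loop k f ih => intro κ; exact (Set.finite_iUnion fun o => ih o _).insert _
  | read f ih => intro κ; exact (Set.finite_iUnion fun o => ih o _).insert _

theorem self_mem_points (c : Cmd A) (κ : List (Cmd A)) : (c :: κ) ∈ points c κ := by
  cases c <;> simp [points]

end Cmd

end Pool.Agent.Lib.LinSpace
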