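import Pool.Agent.Lib.LinSpace.Cmd

/-!
Stack programs with linear space bounds are simulated by deterministic linearly bounded machines.
-/

set_option autoImplicit false

namespace Pool.Agent.Lib.LinSpace

open Relation

section Compile

variable {A : Type}

/-- The stack with index `k`, or the last one. -/
def toFin (N : ℕ) (k : ℕ) : Fin (N + 1) := ⟨min k N, Nat.lt_succ_of_le (min_le_right _ _)⟩

theorem toFin_val {N k : ℕ} (h : k < N + 1) : ((toFin N k : Fin (N + 1)) : ℕ) = k := by
  simp only [toFin]; omega

open Classical in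
/-- The label belonging to a list of commands. -/
noncomputable def lab (P : Set (List (Cmd A))) (h : [] ∈ P) (κ : List (Cmd A)) : P :=
  if hκ : κ ∈ P then ⟨κ, hκ⟩ else ⟨[], h⟩

theorem lab_of_mem {P : Set (List (Cmd A))} {h : [] ∈ P} {κ : List (Cmd A)} (hκ : κ ∈ P) :
    lab P h κ = ⟨κ, hκ⟩ := by
  unfold lab; rw [dif_pos hκ]

/-- Tape symbols of the machine. -/
inductive MSym (A : Type) (N : ℕ) : Type
  | inp (a : A) : MSym A N
  | home : MSym A N
  | cell (v : Fin (N + 1) → Option Bool) : MSym A N

/-- States of the machine. -/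
inductive MState (P : Type) : Type
  | start : MState P
  | pt (κ : P) : MState P
  | R (κ : P) : MState P
  | L (κ : P) : MState P
  | home (κ : P) : MState P
  | done (b : Bool) : MState P

theorem finite_MSym [Finite A] (N : ℕ) : Finite (MSym A N) := by
  have : Function.Surjective (fun x : A ⊕ Unit ⊕ (Fin (N + 1) → Option Bool) =>
      match x with
      | .inl a => (MSym.inp a : MSym A N)
      | .inr (.inl _) => .home
      | .inr (.inr v) => .cell v) := by
    intro x
    cases x with
    | inp a => exact ⟨.inl a, rfl⟩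
    | home => exact ⟨.inr (.inl ()), rfl⟩
    | cell v => exact ⟨.inr (.inr v), rfl⟩
  exact Finite.of_surjective _ this

theorem finite_MState (P : Type) [Finite P] : Finite (MState P) := by
  have : Function.Surjective (fun x : Unit ⊕ P ⊕ P ⊕ P ⊕ P ⊕ Bool =>
      match x with
      | .inl _ => (MState.start : MState P)
      | .inr (.inl κ) => .pt κ
      | .inr (.inr (.inl κ)) => .R κ
      | .inr (.inr (.inr (.inl κ))) => .L κ
      | .inr (.inr (.inr (.inr (.inl κ)))) => .home κ
      | .inr (.inr (.inr (.inr (.inr b)))) => .done b) := by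
    intro x
    cases x with
    | start => exact ⟨.inl (), rfl⟩
    | pt κ => exact ⟨.inr (.inl κ), rfl⟩
    | R κ => exact ⟨.inr (.inr (.inl κ)), rfl⟩
    | L κ => exact ⟨.inr (.inr (.inr (.inl κ))), rfl⟩
    | home κ => exact ⟨.inr (.inr (.inr (.inr (.inl κ)))), rfl⟩
    | done b => exact ⟨.inr (.inr (.inr (.inr (.inr b)))), rfl⟩
  exact Finite.of_surjective _ this

/-- The content of a track. -/
def trk {N : ℕ} (y : MSym A N) (k : Fin (N + 1)) : Option Bool :=
  match y with
  | .cell v => v k
  | _ => none

/-- Change a track. -/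
def setTrk {N : ℕ} (y : MSym A N) (k : Fin (N + 1)) (o : Option Bool) : MSym A N :=
  match y with
  | .cell v => .cell (Function.update v k o)
  | y => y

/-- The stack used at a program point. -/
def trackOf : List (Cmd A) → ℕ
  | .push k _ :: _ => k
  | .pop k :: _ => k
  | .case k _ :: _ => k
  | .loop k _ :: _ => k
  | _ => 0

/-- The next program point when the top of the stack is `o`. -/
def nxt : List (Cmd A) → Option Bool → List (Cmd A)
  | .pop _ :: κ, _ => κ
  | .case _ f :: κ, o => f o :: κ
  | .loop _ _ :: κ, none => κ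
  | .loop k f :: κ, some a => f a :: .loop k f :: κ
  | κ, _ => κ

/-- Whether the top of the stack is removed. -/
def eraseOf : List (Cmd A) → Bool
  | .pop _ :: _ => true
  | .loop _ _ :: _ => true
  | _ => false

/-- The action of the machine. -/
noncomputable def act (N : ℕ) (P : Set (List (Cmd A))) (h : [] ∈ P) (κ₀ : List (Cmd A)) :
    MState P → MSym A N → MSym A N → Option (MState P × MSym A N × Dir × Dir)
  | .start, _, _ => some (.pt (lab P h κ₀), .home, .stay, .stay)
  | .pt κ, x, y =>
    match κ.1 with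
    | .skip :: κ' => some (.pt (lab P h κ'), y, .stay, .stay)
    | .seq c d :: κ' => some (.pt (lab P h (c :: d :: κ')), y, .stay, .stay)
    | .read f :: κ' =>
      match x with
      | .inp a => some (.pt (lab P h (f (some a) :: κ')), y, .right, .stay)
      | _ => some (.pt (lab P h (f none :: κ')), y, .stay, .stay)
    | _ => some (.R κ, y, .stay, .right)
  | .R κ, _, y =>
    if (trk y (toFin N (trackOf κ.1))).isSome then some (.R κ, y, .stay, .right)
    else match κ.1 with
    | .push k a :: κ' => some (.home (lab P h κ'), setTrk y (toFin N k) (some a), .stay, .left)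
    | _ => some (.L κ, y, .stay, .left)
  | .L κ, _, y =>
    match κ.1, y with
    | [], y => some (.done (decide (trk y (toFin N 0) = some true)), y, .stay, .stay)
    | _ :: _, .cell v => some (.home (lab P h (nxt κ.1 (v (toFin N (trackOf κ.1))))),
        (if eraseOf κ.1 then setTrk (.cell v) (toFin N (trackOf κ.1)) none else .cell v),
        .stay, .left)
    | _ :: _, y => some (.pt (lab P h (nxt κ.1 none)), y, .stay, .stay)
  | .home κ, _, y =>
    match y with
    | .home => some (.pt κ, .home, .stay, .stay)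
    | y => some (.home κ, y, .stay, .left)
  | .done _, _, _ => none

/-- The machine of a program. -/
noncomputable def mach [Finite A] (N : ℕ) (P : Set (List (Cmd A))) (h : [] ∈ P)
    (hfin : P.Finite) (κ₀ : List (Cmd A)) : Machine A where
  Q := MState P
  Γ := MSym A N
  finQ := by
    have : Finite P := hfin
    exact finite_MState P
  finΓ := finite_MSym N
  ι := MSym.inp
  ι_inj := fun a b hab => by injection hab
  blank := .cell fun _ => none
  blank_notin := fun a ha => by cases ha
  start := .start
  acc := {.done true}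
  δ := fun q x y => {t | act N P h κ₀ q x y = some t}

theorem mach_deterministic [Finite A] (N : ℕ) (P : Set (List (Cmd A))) (h : [] ∈ P)
    (hfin : P.Finite) (κ₀ : List (Cmd A)) : (mach N P h hfin κ₀).Deterministic := by
  intro q x y t ht t' ht'
  have h1 : act N P h κ₀ q x y = some t := ht
  have h2 : act N P h κ₀ q x y = some t' := ht'
  rw [h1] at h2
  exact Option.some_injective _ h2

/-- The tape representing the stacks. -/
def tapeOf (N : ℕ) (s : St) (i : ℤ) : MSym A N :=
  if i < 0 then .cell fun _ => none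
  else if i = 0 then .home
  else .cell fun k => (s k).reverse[(i - 1).toNat]?

theorem tapeOf_zero (N : ℕ) (s : St) : (tapeOf N s 0 : MSym A N) = .home := by
  simp [tapeOf]

theorem tapeOf_pos {N : ℕ} {s : St} {i : ℤ} (h : 0 < i) :
    (tapeOf N s i : MSym A N) = .cell fun k => (s k).reverse[(i - 1).toNat]? := by
  unfold tapeOf
  rw [if_neg (by omega), if_neg (by omega)]

theorem trk_tapeOf {N : ℕ} {s : St} {i : ℤ} (h : 0 < i) {k : ℕ} (hk : k < N + 1) :
    trk (tapeOf N s i : MSym A N) (toFin N k) = (s k).reverse[(i - 1).toNat]? := by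
  rw [tapeOf_pos h]
  simp only [trk]
  rw [toFin_val hk]

theorem tape_update {N : ℕ} {s : St} {i : ℤ} (h : 0 < i) {k : ℕ} (hk : k < N + 1)
    (o : Option Bool) (l : List Bool)
    (hl : ∀ j : ℕ, l.reverse[j]? = if j = (i - 1).toNat then o else (s k).reverse[j]?) :
    Function.update (tapeOf N s : ℤ → MSym A N) i (setTrk (tapeOf N s i) (toFin N k) o) =
      tapeOf N (Function.update s k l) := by
  funext p
  by_cases hp : p = i
  · subst hp
    rw [Function.update_self, tapeOf_pos h, tapeOf_pos h]
    simp only [setTrk]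
    congr 1
    funext j
    by_cases hj : j = toFin N k
    · subst hj
      rw [Function.update_self, toFin_val hk, Function.update_self, hl, if_pos rfl]
    · rw [Function.update_of_ne hj, Function.update_of_ne]
      intro e
      apply hj
      apply Fin.ext
      rw [toFin_val hk, e]
  · rw [Function.update_of_ne hp]
    unfold tapeOf
    by_cases h1 : p < 0
    · rw [if_pos h1, if_pos h1]
    · rw [if_neg h1, if_neg h1]
      by_cases h2 : p = 0
      · rw [if_pos h2, if_pos h2]
      · rw [if_neg h2, if_neg h2]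
        congr 1
        funext j
        by_cases hj : (j : ℕ) = k
        · rw [hj, Function.update_self, hl, if_neg]
          omega
        · rw [Function.update_of_ne hj]

variable [Finite A] {N : ℕ} {P : Set (List (Cmd A))} {h : [] ∈ P} {hfin : P.Finite}
  {κ₀ : List (Cmd A)}

/-- One step staying in the cells `0, ..., m + 1`. -/
def BStep (M : Machine A) (m : ℕ) (w : List A) (c c' : M.Cfg) : Prop :=
  M.Step w c c' ∧ (0 ≤ c'.pos ∧ c'.pos ≤ m + 1) ∧ 0 ≤ c'.inPos ∧ c'.inPos ≤ w.length

/-- Reachability within the cells `0, ..., m + 1`. -/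
def Rch (M : Machine A) (m : ℕ) (w : List A) : M.Cfg → M.Cfg → Prop :=
  ReflTransGen (BStep M m w)

/-- A configuration of the machine. -/
def mk (N : ℕ) (P : Set (List (Cmd A))) (h : [] ∈ P) (hfin : P.Finite) (κ₀ : List (Cmd A))
    (q : MState P) (i : ℤ) (t : ℤ → MSym A N) (p : ℤ) : (mach N P h hfin κ₀).Cfg :=
  ⟨q, i, t, p⟩

theorem bstep_of_act {m : ℕ} {w : List A} {q q' : MState P} {i : ℤ} {t t' : ℤ → MSym A N}
    {p i' p' : ℤ} (y : MSym A N) (d e : Dir)
    (ha : act N P h κ₀ q ((mach N P h hfin κ₀).inputSymbol w i) (t p) = some (q', y, d, e))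
    (hi : i' = i + d.toInt) (hp : p' = p + e.toInt) (ht : t' = Function.update t p y)
    (h0 : 0 ≤ p') (h1 : p' ≤ m + 1) (h2 : 0 ≤ i' ∧ i' ≤ w.length) :
    BStep (mach N P h hfin κ₀) m w (mk N P h hfin κ₀ q i t p) (mk N P h hfin κ₀ q' i' t' p') := by
  refine ⟨⟨q', y, d, e, ha, ?_⟩, ⟨h0, h1⟩, h2⟩
  rw [hi, hp, ht]
  rfl

theorem getElem?_isSome_iff {l : List Bool} {j : ℕ} : (l[j]?).isSome ↔ j < l.length := by
  rw [Option.isSome_iff_ne_none, ne_eq, List.getElem?_eq_none_iff]
  omega

/-- Moving right to the first free cell of a track. -/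
theorem rch_right {m : ℕ} {w : List A} {s : St} (hs : Fits m s) {κ : P} {i : ℤ}
    (hi : 0 ≤ i ∧ i ≤ w.length) (hk : trackOf κ.1 < N + 1) (n : ℕ) :
    ∀ p : ℕ, 1 ≤ p → p + n = (s (trackOf κ.1)).length + 1 →
      Rch (mach N P h hfin κ₀) m w (mk N P h hfin κ₀ (.R κ) i (tapeOf N s) p)
        (mk N P h hfin κ₀ (.R κ) i (tapeOf N s) ((s (trackOf κ.1)).length + 1 : ℕ)) := by
  induction n with
  | zero =>
    intro p _ hp
    rw [Nat.add_zero] at hp
    rw [← hp]
    exact .refl
  | succ n ih =>
    intro p hp1 hp
    have h1 := ih (p + 1) (by omega) (by omega)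
    refine .head ?_ h1
    have hm := hs (trackOf κ.1)
    refine bstep_of_act (tapeOf N s p) .stay .right ?_ (by simp [Dir.toInt])
      (by simp [Dir.toInt]) (by simp) (by omega) (by push_cast; omega) hi
    unfold act
    simp only
    rw [trk_tapeOf (by omega) hk, if_pos]
    rw [getElem?_isSome_iff, List.length_reverse]
    omega

/-- Moving home. -/
theorem rch_home {m : ℕ} {w : List A} {s : St} {κ : P} {i : ℤ} (hi : 0 ≤ i ∧ i ≤ w.length)
    (p : ℕ) (hp : p ≤ m + 1) :
    Rch (mach N P h hfin κ₀) m w (mk N P h hfin κ₀ (.home κ) i (tapeOf N s) p)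
      (mk N P h hfin κ₀ (.pt κ) i (tapeOf N s) 0) := by
  induction p with
  | zero =>
    refine .single (bstep_of_act .home .stay .stay ?_ (by simp [Dir.toInt])
      (by simp [Dir.toInt]) ?_ (by omega) (by omega) hi)
    · unfold act
      simp only [Nat.cast_zero]
      rw [tapeOf_zero]
    · funext j
      by_cases hj : j = 0
      · subst hj; simp [tapeOf_zero]
      · simp [hj]
  | succ p ih =>
    refine .head (bstep_of_act (tapeOf N s ((p + 1 : ℕ) : ℤ)) .stay .left ?_
      (by simp [Dir.toInt]) ?_ (by simp) ?_ ?_ hi) (ih (by omega))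
    · unfold act
      simp only
      rw [tapeOf_pos (by omega)]
    · simp only [Dir.toInt]; push_cast; omega
    · omega
    · omega

/-- The result of reading the top of a stack. -/
theorem rch_top {m : ℕ} {w : List A} {s : St} (hs : Fits m s) {κ : P} {i : ℤ}
    (hi : 0 ≤ i ∧ i ≤ w.length) (hk : trackOf κ.1 < N + 1) (hne : κ.1 ≠ [])
    (hpush : ∀ k a κ', κ.1 ≠ .push k a :: κ')
    (hstart : ∀ x, act N P h κ₀ (.pt κ) x .home = some (.R κ, .home, .stay, .right)) :
    Rch (mach N P h hfin κ₀) m w (mk N P h hfin κ₀ (.pt κ) i (tapeOf N s) 0)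
      (mk N P h hfin κ₀ (.pt (lab P h (nxt κ.1 (s (trackOf κ.1)).head?))) i
        (tapeOf N (if eraseOf κ.1 then Function.update s (trackOf κ.1) (s (trackOf κ.1)).tail
          else s)) 0) := by
  set k := trackOf κ.1 with hkdef
  have hm := hs k
  have h1 : BStep (mach N P h hfin κ₀) m w (mk N P h hfin κ₀ (.pt κ) i (tapeOf N s) 0)
      (mk N P h hfin κ₀ (.R κ) i (tapeOf N s) (1 : ℕ)) := by
    refine bstep_of_act .home .stay .right ?_ (by simp [Dir.toInt])
      (by simp [Dir.toInt]) ?_ (by omega) (by omega) hi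
    · rw [tapeOf_zero]; exact hstart _
    · funext j
      by_cases hj : j = 0
      · subst hj; simp [tapeOf_zero]
      · simp [hj]
  have h2 := rch_right (h := h) (hfin := hfin) (κ₀ := κ₀) (w := w) hs (κ := κ) (i := i) hi hk
    (s k).length 1 (by omega) (by rw [← hkdef]; omega)
  rw [← hkdef] at h2
  have h3 : BStep (mach N P h hfin κ₀) m w
      (mk N P h hfin κ₀ (.R κ) i (tapeOf N s) ((s k).length + 1 : ℕ))
      (mk N P h hfin κ₀ (.L κ) i (tapeOf N s) ((s k).length : ℕ)) := by
    refine bstep_of_act (tapeOf N s ((s k).length + 1 : ℕ)) .stay .left ?_ (by simp [Dir.toInt])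
      (by simp [Dir.toInt]) (by simp) (by omega) (by omega) hi
    have hn : ¬ ((s k).reverse[(((s k).length + 1 : ℕ) - 1 : ℤ).toNat]?).isSome := by
      rw [getElem?_isSome_iff, List.length_reverse]
      push_cast
      omega
    unfold act
    simp only
    rw [trk_tapeOf (by omega) hk, if_neg hn]
  refine .head h1 (h2.trans (.head h3 ?_))
  cases hsk : s k with
  | nil =>
    have he : (if eraseOf κ.1 then Function.update s k ([] : List Bool).tail else s) = s := by
      split
      · rw [List.tail_nil, ← hsk]; simp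
      · rfl
    rw [he]
    refine .single (bstep_of_act .home .stay .stay ?_ (by simp [Dir.toInt])
      (by simp [Dir.toInt]) ?_ (by omega) (by omega) hi)
    · simp only [List.length_nil, Nat.cast_zero]
      rw [tapeOf_zero]
      unfold act
      simp only [List.head?_nil]
      split
      · rename_i h7
        exact absurd h7 hne
      · rename_i h9; cases h9
      · rfl
    · funext j
      by_cases hj : j = 0
      · subst hj; simp [tapeOf_zero]
      · simp [hj]
  | cons a l =>
    have hlen : (s k).length = l.length + 1 := by rw [hsk]; rfl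
    have hrd : (s k).reverse[(((l.length + 1 : ℕ) : ℤ) - 1).toNat]? = some a := by
      rw [hsk]
      simp
    have h4 : BStep (mach N P h hfin κ₀) m w
        (mk N P h hfin κ₀ (.L κ) i (tapeOf N s) ((l.length + 1 : ℕ) : ℤ))
        (mk N P h hfin κ₀ (.home (lab P h (nxt κ.1 (some a)))) i
          (tapeOf N (if eraseOf κ.1 then Function.update s k l else s)) (l.length : ℕ)) := by
      refine bstep_of_act ((if eraseOf κ.1 then
        setTrk (tapeOf N s ((l.length + 1 : ℕ) : ℤ)) (toFin N k) none
        else tapeOf N s ((l.length + 1 : ℕ) : ℤ))) .stay .left ?_ (by simp [Dir.toInt])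
        (by simp [Dir.toInt]) ?_ (by omega) (by omega) hi
      · rw [tapeOf_pos (by omega)]
        unfold act
        simp only
        split
        · rename_i h7
          exact absurd h7 hne
        · rename_i v h9 h10
          injection h10 with h10
          subst h10
          rw [← hkdef]
          simp only
          rw [toFin_val hk, hrd]
        · rename_i h9 h10
          exact absurd rfl (h10 _)
      · by_cases he : eraseOf κ.1 = true
        · rw [if_pos he, if_pos he]
          refine (tape_update (by omega) hk none l fun j => ?_).symm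
          rw [hsk]
          by_cases hj : j = (((l.length + 1 : ℕ) : ℤ) - 1).toNat
          · rw [if_pos hj, List.getElem?_eq_none_iff, List.length_reverse]
            omega
          · rw [if_neg hj, List.reverse_cons, List.getElem?_append]
            split
            · rfl
            · rename_i h9
              rw [List.length_reverse] at h9 ⊢
              rw [List.getElem?_eq_none_iff.2 (by rw [List.length_reverse]; omega),
                List.getElem?_eq_none_iff.2]
              simp
              omega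
        · rw [if_neg he, if_neg he]
          simp
    rw [List.length_cons]
    refine .head h4 ?_
    rw [List.head?_cons, List.tail_cons]
    exact rch_home hi l.length (by omega)

/-- The input head on a letter. -/
theorem inputSymbol_append (pre w : List A) :
    (mach N P h hfin κ₀).inputSymbol (pre ++ w) (pre.length : ℤ) =
      (w.head?).elim (.cell fun _ => none) MSym.inp := by
  unfold Machine.inputSymbol
  rw [if_pos (by omega)]
  have : (pre ++ w)[((pre.length : ℕ) : ℤ).toNat]? = w.head? := by
    rw [Int.toNat_natCast, List.getElem?_append_right (le_refl _), Nat.sub_self]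
    cases w <;> rfl
  rw [this]
  rfl

/-- The machine simulates the program. -/
theorem sim {m : ℕ} (w₀ : List A) {c : Cmd A} {w w' : List A} {s s' : St}
    (hE : Exec m c w s w' s') :
    ∀ (κ : List (Cmd A)) (pre : List A), c.Bdd (N + 1) → c.points κ ⊆ P → κ ∈ P → Fits m s →
      w₀ = pre ++ w → ∃ pre', w₀ = pre' ++ w' ∧ Rch (mach N P h hfin κ₀) m w₀
        (mk N P h hfin κ₀ (.pt (lab P h (c :: κ))) pre.length (tapeOf N s) 0)
        (mk N P h hfin κ₀ (.pt (lab P h κ)) pre'.length (tapeOf N s') 0) := by
  have hpre : ∀ pre w : List A, w₀ = pre ++ w → (0 : ℤ) ≤ pre.length ∧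
      (pre.length : ℤ) ≤ w₀.length := by
    intro pre w hw
    rw [hw, List.length_append]
    omega
  induction hE with
  | skip w s =>
    intro κ pre hb hP hκ hf hw
    have hi := hpre pre _ hw
    have hm : (Cmd.skip :: κ : List (Cmd A)) ∈ P := hP (Cmd.self_mem_points _ _)
    refine ⟨pre, hw, .single (bstep_of_act (tapeOf N s 0) .stay .stay ?_ (by simp [Dir.toInt])
      (by simp [Dir.toInt]) (by simp) (by omega) (by omega) hi)⟩
    rw [lab_of_mem hm]
    rfl
  | push k a w s hk =>
    intro κ pre hb hP hκ hf hw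
    have hi := hpre pre _ hw
    have hm : (Cmd.push k a :: κ : List (Cmd A)) ∈ P := hP (Cmd.self_mem_points _ _)
    have hb' : k < N + 1 := hb
    refine ⟨pre, hw, ?_⟩
    rw [lab_of_mem hm]
    have h1 : BStep (mach N P h hfin κ₀) m w₀
        (mk N P h hfin κ₀ (.pt ⟨_, hm⟩) pre.length (tapeOf N s) 0)
        (mk N P h hfin κ₀ (.R ⟨_, hm⟩) pre.length (tapeOf N s) (1 : ℕ)) := by
      refine bstep_of_act (tapeOf N s 0) .stay .right ?_ (by simp [Dir.toInt])
        (by simp [Dir.toInt]) (by simp) (by omega) (by omega) hi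
      rfl
    have h2 := rch_right (h := h) (hfin := hfin) (κ₀ := κ₀) (w := w₀) hf
      (κ := ⟨Cmd.push k a :: κ, hm⟩) (i := pre.length) hi hb' (s k).length 1 (by omega)
      (by simp only [trackOf]; omega)
    simp only [trackOf] at h2
    have h3 : BStep (mach N P h hfin κ₀) m w₀
        (mk N P h hfin κ₀ (.R ⟨_, hm⟩) pre.length (tapeOf N s) ((s k).length + 1 : ℕ))
        (mk N P h hfin κ₀ (.home (lab P h κ)) pre.length
          (tapeOf N (Function.update s k (a :: s k))) ((s k).length : ℕ)) := by
      refine bstep_of_act (setTrk (tapeOf N s ((s k).length + 1 : ℕ)) (toFin N k) (some a))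
        .stay .left ?_ (by simp [Dir.toInt]) (by simp [Dir.toInt]) ?_ (by omega) (by omega) hi
      · have hn : ¬ ((s k).reverse[(((s k).length + 1 : ℕ) - 1 : ℤ).toNat]?).isSome := by
          rw [getElem?_isSome_iff, List.length_reverse]
          push_cast
          omega
        have hn' : ¬ (trk (tapeOf N s (((s k).length + 1 : ℕ) : ℤ) : MSym A N)
            (toFin N k)).isSome := by
          rw [trk_tapeOf (by omega) hb']; exact hn
        unfold act
        simp only [trackOf]
        exact if_neg hn'
      · refine (tape_update (by omega) hb' (some a) (a :: s k) fun j => ?_).symm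
        rw [List.reverse_cons, List.getElem?_append, List.length_reverse]
        by_cases hj : j < (s k).length
        · rw [if_pos hj, if_neg]
          push_cast
          omega
        · rw [if_neg hj]
          by_cases hj2 : j = (s k).length
          · rw [if_pos (by push_cast; omega)]
            subst hj2
            simp
          · rw [if_neg (by push_cast; omega), List.getElem?_eq_none_iff.2 (by simp; omega),
              List.getElem?_eq_none_iff.2 (by rw [List.length_reverse]; omega)]
    exact .head h1 (h2.trans (.head h3 (rch_home hi _ (by omega))))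
  | pop k w s =>
    intro κ pre hb hP hκ hf hw
    have hm : (Cmd.pop k :: κ : List (Cmd A)) ∈ P := hP (Cmd.self_mem_points _ _)
    have hb' : k < N + 1 := hb
    refine ⟨pre, hw, ?_⟩
    rw [lab_of_mem hm]
    exact rch_top (h := h) (hfin := hfin) (κ₀ := κ₀) (w := w₀) hf
      (κ := ⟨Cmd.pop k :: κ, hm⟩) (i := pre.length) (hpre pre _ hw) hb' (by simp) (by simp) (fun x => rfl)
  | @seq c d w w' w'' s s' s'' h1 h2 ih1 ih2 =>
    intro κ pre hb hP hκ hf hw
    have hm : (Cmd.seq c d :: κ : List (Cmd A)) ∈ P := hP (Cmd.self_mem_points _ _)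
    have hP1 : Cmd.points c (d :: κ) ⊆ P := fun x hx =>
      hP (Set.mem_insert_of_mem _ (Or.inl hx))
    have hP2 : Cmd.points d κ ⊆ P := fun x hx => hP (Set.mem_insert_of_mem _ (Or.inr hx))
    have hd : (d :: κ) ∈ P := hP2 (Cmd.self_mem_points _ _)
    obtain ⟨pre1, hw1, e1⟩ := ih1 (d :: κ) pre hb.1 hP1 hd hf hw
    obtain ⟨pre2, hw2, e2⟩ := ih2 κ pre1 hb.2 hP2 hκ (h1.fits hf) hw1
    refine ⟨pre2, hw2, .head ?_ (e1.trans e2)⟩
    refine bstep_of_act (tapeOf N s 0) .stay .stay ?_ (by simp [Dir.toInt])
      (by simp [Dir.toInt]) (by simp) (by omega) (by omega) (hpre pre _ hw)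
    rw [lab_of_mem hm]
    rfl
  | @case k f w w' s s' h1 ih1 =>
    intro κ pre hb hP hκ hf hw
    have hm : (Cmd.case k f :: κ : List (Cmd A)) ∈ P := hP (Cmd.self_mem_points _ _)
    have hP1 : Cmd.points (f (s k).head?) κ ⊆ P := fun x hx =>
      hP (Set.mem_insert_of_mem _ (Set.mem_iUnion.2 ⟨_, hx⟩))
    obtain ⟨pre1, hw1, e1⟩ := ih1 κ pre (hb.2 _) hP1 hκ hf hw
    refine ⟨pre1, hw1, ReflTransGen.trans ?_ e1⟩
    rw [lab_of_mem hm]
    exact rch_top (h := h) (hfin := hfin) (κ₀ := κ₀) (w := w₀) hf
      (κ := ⟨Cmd.case k f :: κ, hm⟩) (i := pre.length) (hpre pre _ hw) hb.1 (by simp) (by simp) (fun x => rfl)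
  | @loop_nil k f w s hs =>
    intro κ pre hb hP hκ hf hw
    have hm : (Cmd.loop k f :: κ : List (Cmd A)) ∈ P := hP (Cmd.self_mem_points _ _)
    refine ⟨pre, hw, ?_⟩
    rw [lab_of_mem hm]
    have := rch_top (h := h) (hfin := hfin) (κ₀ := κ₀) (w := w₀) hf
      (κ := ⟨Cmd.loop k f :: κ, hm⟩) (i := pre.length) (hpre pre _ hw) hb.1 (by simp) (by simp) (fun x => rfl)
    simp only [trackOf, hs, eraseOf, if_true, List.tail_nil, List.head?_nil, nxt] at this
    rwa [show Function.update s k [] = s by rw [← hs]; simp] at this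
  | @loop_cons k f w w' w'' s s' s'' a l hs h1 h2 ih1 ih2 =>
    intro κ pre hb hP hκ hf hw
    have hm : (Cmd.loop k f :: κ : List (Cmd A)) ∈ P := hP (Cmd.self_mem_points _ _)
    have hP1 : Cmd.points (f a) (Cmd.loop k f :: κ) ⊆ P := fun x hx =>
      hP (Set.mem_insert_of_mem _ (Set.mem_iUnion.2 ⟨a, hx⟩))
    have hf1 : Fits m (Function.update s k l) := hf.update (by
      have := hf k; rw [hs, List.length_cons] at this; omega)
    obtain ⟨pre1, hw1, e1⟩ := ih1 (Cmd.loop k f :: κ) pre (hb.2 _) hP1 hm hf1 hw
    obtain ⟨pre2, hw2, e2⟩ := ih2 κ pre1 hb hP hκ (h1.fits hf1) hw1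
    refine ⟨pre2, hw2, ReflTransGen.trans ?_ (e1.trans e2)⟩
    rw [lab_of_mem hm]
    have := rch_top (h := h) (hfin := hfin) (κ₀ := κ₀) (w := w₀) hf
      (κ := ⟨Cmd.loop k f :: κ, hm⟩) (i := pre.length) (hpre pre _ hw) hb.1 (by simp) (by simp) (fun x => rfl)
    simp only [trackOf, hs, eraseOf, if_true, List.tail_cons, List.head?_cons, nxt] at this
    exact this
  | @read f w w' s s' h1 ih1 =>
    intro κ pre hb hP hκ hf hw
    have hm : (Cmd.read f :: κ : List (Cmd A)) ∈ P := hP (Cmd.self_mem_points _ _)
    have hP1 : Cmd.points (f w.head?) κ ⊆ P := fun x hx =>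
      hP (Set.mem_insert_of_mem _ (Set.mem_iUnion.2 ⟨_, hx⟩))
    cases w with
    | nil =>
      obtain ⟨pre1, hw1, e1⟩ := ih1 κ pre (hb _) hP1 hκ hf hw
      refine ⟨pre1, hw1, .head ?_ e1⟩
      refine bstep_of_act (tapeOf N s 0) .stay .stay ?_ (by simp [Dir.toInt])
        (by simp [Dir.toInt]) (by simp) (by omega) (by omega) (hpre pre _ hw)
      rw [lab_of_mem hm]
      have hin := inputSymbol_append (h := h) (hfin := hfin) (κ₀ := κ₀) (N := N) pre []
      rw [hw, hin]
      rfl
    | cons a w =>
      obtain ⟨pre1, hw1, e1⟩ := ih1 κ (pre ++ [a]) (hb _) hP1 hκ hf (by rw [hw]; simp)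
      refine ⟨pre1, hw1, .head ?_ e1⟩
      refine bstep_of_act (tapeOf N s 0) .right .stay ?_ (by simp [Dir.toInt])
        (by simp [Dir.toInt]) (by simp) (by omega) (by omega)
        (hpre (pre ++ [a]) w (by rw [hw]; simp))
      rw [lab_of_mem hm]
      have hin := inputSymbol_append (h := h) (hfin := hfin) (κ₀ := κ₀) (N := N) pre (a :: w)
      rw [hw, hin]
      rfl

/-- The end of the computation. -/
theorem rch_end {m : ℕ} {w : List A} {s : St} (hs : Fits m s) {i : ℤ}
    (hi : 0 ≤ i ∧ i ≤ w.length) :
    Rch (mach N P h hfin κ₀) m w (mk N P h hfin κ₀ (.pt (lab P h [])) i (tapeOf N s) 0)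
      (mk N P h hfin κ₀ (.done (decide ((s 0).head? = some true))) i (tapeOf N s)
        ((s 0).length : ℕ)) := by
  have hm := hs 0
  rw [lab_of_mem h]
  have h1 : BStep (mach N P h hfin κ₀) m w
      (mk N P h hfin κ₀ (.pt ⟨[], h⟩) i (tapeOf N s) 0)
      (mk N P h hfin κ₀ (.R ⟨[], h⟩) i (tapeOf N s) (1 : ℕ)) := by
    refine bstep_of_act (tapeOf N s 0) .stay .right ?_ (by simp [Dir.toInt])
      (by simp [Dir.toInt]) (by simp) (by omega) (by omega) hi
    rfl
  have h2 := rch_right (N := N) (h := h) (hfin := hfin) (κ₀ := κ₀) (w := w) hs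
    (κ := ⟨[], h⟩) (i := i) hi (Nat.succ_pos _) (s 0).length 1 (by omega)
    (by simp only [trackOf]; omega)
  simp only [trackOf] at h2
  have h3 : BStep (mach N P h hfin κ₀) m w
      (mk N P h hfin κ₀ (.R ⟨[], h⟩) i (tapeOf N s) ((s 0).length + 1 : ℕ))
      (mk N P h hfin κ₀ (.L ⟨[], h⟩) i (tapeOf N s) ((s 0).length : ℕ)) := by
    refine bstep_of_act (tapeOf N s ((s 0).length + 1 : ℕ)) .stay .left ?_ (by simp [Dir.toInt])
      (by simp [Dir.toInt]) (by simp) (by omega) (by omega) hi
    have hn : ¬ ((s 0).reverse[(((s 0).length + 1 : ℕ) - 1 : ℤ).toNat]?).isSome := by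
      rw [getElem?_isSome_iff, List.length_reverse]
      push_cast
      omega
    have hn' : ¬ (trk (tapeOf N s (((s 0).length + 1 : ℕ) : ℤ) : MSym A N)
        (toFin N 0)).isSome := by
      rw [trk_tapeOf (by omega) (Nat.succ_pos _)]; exact hn
    unfold act
    simp only [trackOf]
    exact if_neg hn'
  refine .head h1 (h2.trans (.head h3 (.single ?_)))
  refine bstep_of_act (tapeOf N s ((s 0).length : ℕ)) .stay .stay ?_ (by simp [Dir.toInt])
    (by simp [Dir.toInt]) (by simp) (by omega) (by omega) hi
  unfold act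
  simp only
  congr 2
  congr 1
  congr 1
  cases hs0 : s 0 with
  | nil => simp [tapeOf_zero, trk]
  | cons a l =>
    rw [trk_tapeOf (by simp) (Nat.succ_pos _), hs0]
    simp

omit [Finite A] in
theorem step_unique {M : Machine A} (hM : M.Deterministic) {w : List A} {c d d' : M.Cfg}
    (h1 : M.Step w c d) (h2 : M.Step w c d') : d = d' := by
  obtain ⟨q, y, e, f, ha, rfl⟩ := h1
  obtain ⟨q', y', e', f', ha', rfl⟩ := h2
  have := hM _ _ _ ha ha'
  simp only [Prod.mk.injEq] at this
  obtain ⟨rfl, rfl, rfl, rfl⟩ := this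
  rfl

omit [Finite A] in
theorem computation_bound {M : Machine A} (hM : M.Deterministic) {m : ℕ} {w : List A}
    {F : M.Cfg} (hF : ∀ d, ¬ M.Step w F d) (hR : Rch M m w M.init F) {n : ℕ} {c : ℕ → M.Cfg}
    (hc : M.IsComputation w n c) :
    ∀ i ≤ n, Rch M m w (c i) F ∧ (0 ≤ (c i).pos ∧ (c i).pos ≤ m + 1) ∧
      0 ≤ (c i).inPos ∧ (c i).inPos ≤ w.length := by
  intro i
  induction i with
  | zero =>
    intro _
    rw [hc.1]
    exact ⟨hR, ⟨le_refl _, by simp only [Machine.init]; omega⟩, le_refl _,
      by simp only [Machine.init]; omega⟩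
  | succ i ih =>
    intro hi
    obtain ⟨h1, -, -⟩ := ih (by omega)
    have hs := hc.2 i (by omega)
    rcases ReflTransGen.cases_head h1 with h2 | ⟨d, h2, h3⟩
    · rw [h2] at hs
      exact absurd hs (hF _)
    · have := step_unique hM hs h2.1
      rw [this]
      exact ⟨h3, h2.2⟩

omit [Finite A] in
theorem mem_DCS_of_rch (L : Language A) (M : Machine A) (hM : M.Deterministic) (K : ℕ)
    (key : ∀ w : List A, ∃ F : M.Cfg, (F.state ∈ M.acc ↔ w ∈ L) ∧ (∀ d, ¬ M.Step w F d) ∧
      Rch M (K * w.length + K) w M.init F)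
    (hacc : ∀ (w : List A) (F d : M.Cfg), F.state ∈ M.acc → ¬ M.Step w F d) : L ∈ DCS A := by
  refine ⟨M, hM, ?_, ⟨K, K + 2, ?_⟩, ?_⟩
  · intro w n c hc
    obtain ⟨F, -, hF, hR⟩ := key w
    have hb := computation_bound hM hF hR hc n (le_refl _)
    exact ⟨by have := hb.2.2.1; omega, hb.2.2.2⟩
  · intro w n c hc
    obtain ⟨F, -, hF, hR⟩ := key w
    have hb := computation_bound hM hF hR hc
    unfold Machine.visited
    have hsub : ((Finset.range (n + 1)).image fun i => (c i).pos) ⊆
        Finset.Icc (0 : ℤ) ((K * w.length + K : ℕ) + 1) := by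
      intro p hp
      obtain ⟨i, hi, rfl⟩ := Finset.mem_image.1 hp
      rw [Finset.mem_range] at hi
      rw [Finset.mem_Icc]
      exact (hb i (by omega)).2.1
    refine (Finset.card_le_card hsub).trans ?_
    rw [Int.card_Icc]
    omega
  · ext w
    obtain ⟨F, hL, hF, hR⟩ := key w
    rw [← hL]
    constructor
    · rintro ⟨n, c, hc, ha⟩
      obtain ⟨h1, -, -⟩ := computation_bound hM hF hR hc n (le_refl _)
      rcases ReflTransGen.cases_head h1 with h2 | ⟨d, h2, h3⟩
      · rwa [← h2]
      · exact absurd h2.1 (hacc _ _ _ ha)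
    · intro ha
      have : ∀ C : M.Cfg, Rch M (K * w.length + K) w M.init C →
          ∃ n c, M.IsComputation w n c ∧ c n = C := by
        intro C hC
        induction hC with
        | refl => exact ⟨0, fun _ => M.init, ⟨rfl, fun i hi => absurd hi (Nat.not_lt_zero i)⟩, rfl⟩
        | @tail D C _ h2 ih =>
          obtain ⟨n, c, hc, hn⟩ := ih
          refine ⟨n + 1, fun i => if i ≤ n then c i else C, ⟨?_, ?_⟩, ?_⟩
          · simp only [Nat.zero_le, if_true]; exact hc.1
          · intro i hi
            by_cases hin : i < n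
            · simp only
              rw [if_pos (by omega), if_pos (by omega)]
              exact hc.2 i hin
            · have : i = n := by omega
              subst this
              simp only
              rw [if_pos (le_refl _), if_neg (by omega), hn]
              exact h2.1
          · simp only
            rw [if_neg (by omega)]
      obtain ⟨n, c, hc, hn⟩ := this F hR
      exact ⟨n, c, hc, by rw [hn]; exact ha⟩

/-- A language decided by a program in linear space is deterministic context-sensitive. -/
theorem mem_DCS_of_cmd (L : Language A) (c : Cmd A) (K : ℕ)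
    (H : ∀ w : List A, ∃ w' s', Exec (K * w.length + K) c w (fun _ => []) w' s' ∧
      ((s' 0).head? = some true ↔ w ∈ L)) : L ∈ DCS A := by
  obtain ⟨N, hN⟩ := c.exists_bdd
  have hN' : c.Bdd (N + 1) := hN.mono (Nat.le_succ N)
  let P : Set (List (Cmd A)) := insert [] (c.points [])
  have h0 : [] ∈ P := Set.mem_insert _ _
  have hfin : P.Finite := (c.points_finite []).insert _
  have hPc : c.points [] ⊆ P := Set.subset_insert _ _
  let M := mach N P h0 hfin [c]
  have key : ∀ w : List A, ∃ b i s p, (b = true ↔ w ∈ L) ∧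
      Rch M (K * w.length + K) w M.init (mk N P h0 hfin [c] (.done b) i (tapeOf N s) p) := by
    intro w
    obtain ⟨w', s', hE, hL⟩ := H w
    have hf : Fits (K * w.length + K) (fun _ => [] : St) := fun k => by simp
    obtain ⟨pre, hpre, h2⟩ := sim (N := N) (P := P) (h := h0) (hfin := hfin) (κ₀ := [c]) w hE []
      [] hN' hPc h0 hf (by simp)
    have h3 := rch_end (N := N) (h := h0) (hfin := hfin) (κ₀ := [c]) (w := w) (hE.fits hf)
      (i := pre.length) (by
        have := congrArg List.length hpre
        rw [List.length_append] at this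
        omega)
    refine ⟨_, _, _, _, ?_, ReflTransGen.head ?_ (h2.trans h3)⟩
    · rw [decide_eq_true_iff]; exact hL
    · refine bstep_of_act (P := P) (h := h0) (hfin := hfin) (κ₀ := [c]) (q := .start) (i := 0)
        (t := fun _ => .cell fun _ => none) (p := 0) .home .stay .stay rfl
        (by simp [Dir.toInt]) (by simp [Dir.toInt]) ?_ (by omega) (by omega)
        ⟨le_refl _, by simp⟩
      funext j
      by_cases hj : j = 0
      · subst hj; simp [tapeOf_zero]
      · rw [Function.update_of_ne hj]
        unfold tapeOf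
        rw [if_neg hj]
        split
        · rfl
        · simp
  have hno : ∀ (w : List A) (b : Bool) (i : ℤ) (t : ℤ → MSym A N) (p : ℤ) (d : M.Cfg),
      ¬ M.Step w (mk N P h0 hfin [c] (.done b) i t p) d := by
    rintro w b i t p d ⟨q, y, e, f, ha, -⟩
    have ha' : act N P h0 [c] (.done b) (M.inputSymbol w i) (t p) = some (q, y, e, f) := ha
    simp [act] at ha'
  refine mem_DCS_of_rch L M (mach_deterministic _ _ _ _ _) K (fun w => ?_) ?_
  · obtain ⟨b, i, s, p, hb, hR⟩ := key w
    refine ⟨_, ?_, hno _ _ _ _ _, hR⟩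
    rw [← hb]
    show (MState.done b : MState P) ∈ ({MState.done true} : Set (MState P)) ↔ b = true
    cases b <;> simp
  · intro w F d hF
    obtain ⟨q, i, t, p⟩ := F
    have : q = MState.done true := hF
    subst this
    exact hno w true i t p d

end Compile

end Pool.Agent.Lib.LinSpace
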