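import Pool.Agent.Lib.LinSpace.Lin

section

/-!
Closure of linear space functions under loops.
-/

set_option autoImplicit false
set_option linter.unusedSimpArgs false

namespace Pool.Agent.Lib.LinSpace

variable {α β γ σ δ : Type} [Enc α] [Enc β] [Enc γ] [Enc σ] [Enc δ]

/-! ### While loops -/

theorem runs_while {cond : σ → Bool} {step : σ → σ} {cb c : Prog} {p q : ℕ → ℕ} {m : ℕ}
    (hp : Monotone p) (hq : Monotone q)
    (Hb : ∀ x, Runs (p (sz x)) cb (cs (word x) E) (cs (word (cond x)) E))
    (H : ∀ x, Runs (q (sz x)) c (cs (word x) E) (cs (word (step x)) E)) (B : ℕ) (n : ℕ) :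
    ∀ s : σ, (∀ i < n, cond (step^[i] s) = true) → cond (step^[n] s) = false →
      (∀ i ≤ n, sz (step^[i] s) ≤ B) → B + p B + q B + 1 ≤ m →
      Runs m (.loop 1 fun _ => .seq (cp 0 2 3) (.seq (cb.shift 2) (.case 2 fun o =>
        if o = some true then .seq (clr 2) (.seq (mv 0 3) (.seq (mv 3 2) (.seq (c.shift 2)
          (.seq (mv 2 3) (.seq (mv 3 0) (.push 1 true)))))) else clr 2)))
        (cs (word s) (cs [true] E)) (cs (word (step^[n] s)) E) := by
  induction n with
  | zero =>
    intro s _ hf hB hm
    have hs := hB 0 (le_refl _)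
    simp only [Function.iterate_zero, id_eq] at hf hs ⊢
    have e3 : (word s).length = sz s := rfl
    have e4 := hp hs
    refine Runs.loop_cons (k := 1) (a := true) (l := []) (s' := cs (word s) E) rfl ?_
      (Runs.loop_nil rfl)
    have h0 : Function.update (cs (word s) (cs [true] E)) 1 [] = cs (word s) E := by
      rw [show (1 : ℕ) = 0 + 1 from rfl, update_cs_succ, update_cs_zero, cs_nil_E]
    rw [h0]
    have h1 := runs_cp (m := m) (i := 0) (j := 2) (t := 3) (by decide) (by decide) (by decide)
      (cs (word s) E) rfl (by simp only [cs_zero, cs_succ, E_apply, List.length_nil]; omega)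
    simp only [update_cs_zero, cs_zero, update_cs_succ, cs_succ, update_E_zero, update_E_succ,
      E_apply, List.append_nil] at h1
    have h2 := ((Hb s).mono (m' := m) (by omega)).shift2 (word s) []
    have h3 := runs_clr (m := m) 2 (cs (word s) (cs [] (cs (word (cond s)) E)))
    simp only [update_cs_zero, cs_zero, update_cs_succ, cs_succ, update_E_zero, update_E_succ,
      E_apply, List.append_nil, cs_nil_E] at h3
    refine h1.seq (h2.seq (Runs.case ?_))
    rw [if_neg]
    · exact h3
    · rw [hf]; simp [word_false]
  | succ n ih =>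
    intro s hc hf hB hm
    have hs := hB 0 (Nat.zero_le _)
    have hs1 := hB 1 (by omega)
    have hc0 := hc 0 (Nat.succ_pos _)
    simp only [Function.iterate_zero, id_eq, Function.iterate_one] at hs hc0 hs1
    have e3 : (word s).length = sz s := rfl
    have e5 : (word (step s)).length = sz (step s) := rfl
    have e4 := hp hs
    have e6 := hq hs
    have h2' := ih (step s) (fun i hi => by
      rw [← Function.iterate_succ_apply]; exact hc (i + 1) (by omega)) (by
      rw [← Function.iterate_succ_apply]; exact hf) (fun i hi => by
      rw [← Function.iterate_succ_apply]; exact hB (i + 1) (by omega)) hm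
    rw [← Function.iterate_succ_apply] at h2'
    refine Runs.loop_cons (k := 1) (a := true) (l := []) (s' := cs (word (step s)) (cs [true] E))
      rfl ?_ h2'
    have h0 : Function.update (cs (word s) (cs [true] E)) 1 [] = cs (word s) E := by
      rw [show (1 : ℕ) = 0 + 1 from rfl, update_cs_succ, update_cs_zero, cs_nil_E]
    rw [h0]
    have h1 := runs_cp (m := m) (i := 0) (j := 2) (t := 3) (by decide) (by decide) (by decide)
      (cs (word s) E) rfl (by simp only [cs_zero, cs_succ, E_apply, List.length_nil]; omega)
    simp only [update_cs_zero, cs_zero, update_cs_succ, cs_succ, update_E_zero, update_E_succ,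
      E_apply, List.append_nil] at h1
    have h2 := ((Hb s).mono (m' := m) (by omega)).shift2 (word s) []
    have h3 := runs_clr (m := m) 2 (cs (word s) (cs [] (cs (word (cond s)) E)))
    simp only [update_cs_zero, cs_zero, update_cs_succ, cs_succ, update_E_zero, update_E_succ,
      E_apply, List.append_nil, cs_nil_E] at h3
    have h4 := runs_mv (m := m) (i := 0) (j := 3) (by decide) (cs (word s) E)
      (by simp only [cs_zero, cs_succ, E_apply, List.length_nil]; omega)
    simp only [update_cs_zero, cs_zero, update_cs_succ, cs_succ, update_E_zero, update_E_succ,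
      E_apply, List.append_nil] at h4
    have h5 := runs_mv (m := m) (i := 3) (j := 2) (by decide)
      (cs [] (cs [] (cs [] (cs (word s).reverse E))))
      (by simp only [cs_zero, cs_succ, E_apply, List.length_nil, List.length_reverse]; omega)
    simp only [update_cs_zero, cs_zero, update_cs_succ, cs_succ, update_E_zero, update_E_succ,
      E_apply, List.append_nil, List.reverse_reverse, cs_nil_E] at h5
    have h6 := ((H s).mono (m' := m) (by omega)).shift2 [] []
    have h7 := runs_mv (m := m) (i := 2) (j := 3) (by decide)
      (cs [] (cs [] (cs (word (step s)) E)))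
      (by simp only [cs_zero, cs_succ, E_apply, List.length_nil]; omega)
    simp only [update_cs_zero, cs_zero, update_cs_succ, cs_succ, update_E_zero, update_E_succ,
      E_apply, List.append_nil] at h7
    have h8 := runs_mv (m := m) (i := 3) (j := 0) (by decide)
      (cs [] (cs [] (cs [] (cs (word (step s)).reverse E))))
      (by simp only [cs_zero, cs_succ, E_apply, List.length_nil, List.length_reverse]; omega)
    simp only [update_cs_zero, cs_zero, update_cs_succ, cs_succ, update_E_zero, update_E_succ,
      E_apply, List.append_nil, List.reverse_reverse, cs_nil_E] at h8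
    have h9 := Runs.push (m := m) 1 true (cs (word (step s)) E)
      (by simp only [cs_succ, E_apply, List.length_nil]; omega)
    simp only [update_cs_zero, cs_zero, update_cs_succ, cs_succ, update_E_zero, update_E_succ,
      E_apply] at h9
    refine h1.seq (h2.seq (Runs.case ?_))
    rw [if_pos]
    · refine h3.seq (h4.seq (h5.seq ?_))
      refine Runs.seq h6 (h7.seq (h8.seq h9))
    · rw [hc0]; rfl

/-- Closure under `while` loops whose states are linearly bounded. -/
theorem Lin.while {init : α → σ} {cond : σ → Bool} {step : σ → σ} {res : α → σ}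
    (hi : Lin init) (hc : Lin cond) (hs : Lin step) {g : ℕ → ℕ} (hg : LB g)
    (H : ∀ x, ∃ n, (∀ i < n, cond (step^[i] (init x)) = true) ∧
      cond (step^[n] (init x)) = false ∧ (∀ i ≤ n, sz (step^[i] (init x)) ≤ g (sz x)) ∧
      res x = step^[n] (init x)) : Lin res := by
  obtain ⟨ci, pi, hpi, Hi⟩ := hi
  obtain ⟨cb, p, hp, Hb⟩ := hc
  obtain ⟨c, q, hq, Hc⟩ := hs
  refine ⟨.seq ci (.seq (.push 1 true) (.loop 1 fun _ => .seq (cp 0 2 3) (.seq (cb.shift 2)
    (.case 2 fun o => if o = some true then .seq (clr 2) (.seq (mv 0 3) (.seq (mv 3 2)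
      (.seq (c.shift 2) (.seq (mv 2 3) (.seq (mv 3 0) (.push 1 true)))))) else clr 2)))),
    fun n => pi n + (g n + p (g n) + q (g n) + 1),
    hpi.add ((((hg.add (hp.comp hg)).add (hq.comp hg))).add (LB.const 1)), fun x => ?_⟩
  obtain ⟨n, h1, h2, h3, h4⟩ := H x
  set m := pi (sz x) + (g (sz x) + p (g (sz x)) + q (g (sz x)) + 1) with hm
  have a1 := (Hi x).mono (m' := m) (by omega)
  have a2 := Runs.push (m := m) 1 true (cs (word (init x)) E)
    (by simp only [cs_succ, E_apply, List.length_nil]; omega)
  simp only [update_cs_zero, cs_zero, update_cs_succ, cs_succ, update_E_zero, update_E_succ,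
    E_apply] at a2
  have a3 := runs_while (m := m) hp.1 hq.1 Hb Hc (g (sz x)) n (init x) h1 h2 h3 (by omega)
  rw [h4]
  exact a1.seq (a2.seq a3)

/-! ### Case distinction on lists -/

theorem Lin.not {b : α → Bool} (hb : Lin b) : Lin (fun x => !(b x)) :=
  (hb.ite (Lin.const false) (Lin.const true)).of_eq fun x => by cases b x <;> rfl

theorem Lin.and {b c : α → Bool} (hb : Lin b) (hc : Lin c) : Lin (fun x => b x && c x) :=
  (hb.ite hc (Lin.const false)).of_eq fun x => by cases b x <;> rfl

theorem Lin.or {b c : α → Bool} (hb : Lin b) (hc : Lin c) : Lin (fun x => b x || c x) :=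
  (hb.ite (Lin.const true) hc).of_eq fun x => by cases b x <;> rfl

theorem Lin.isEmpty {l : α → List γ} (hl : Lin l) : Lin (fun x => (l x).isEmpty) := by
  have h : Lin (fun l : List γ => l.isEmpty) := by
    refine Lin.isNil.of_word (fun l => Enc.enc l) (fun _ => rfl) (fun l => ?_)
    cases l <;> rfl
  exact h.comp hl

/-- Head with default value. -/
theorem Lin.headD {l : α → List γ} (hl : Lin l) (d : γ) : Lin (fun x => (l x).headD d) := by
  have h : Lin (fun l : List γ => if l.isEmpty then d else l.headD d) := by
    have h1 : Lin (fun l : List γ => if l.isEmpty then Enc.enc d else (Enc.enc l).car) :=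
      (Lin.isEmpty Lin.id).ite (Lin.const _)
        (Lin.car.of_word (fun l => Enc.enc l) (fun _ => rfl) (fun _ => rfl))
    refine h1.of_word (fun l => l) (fun _ => rfl) (fun l => ?_)
    cases l with
    | nil => rfl
    | cons a l => rfl
  refine (h.comp hl).of_eq fun x => ?_
  cases l x <;> rfl

theorem Lin.tail {l : α → List γ} (hl : Lin l) : Lin (fun x => (l x).tail) := by
  have h : Lin (fun l : List γ => l.tail) := by
    refine Lin.cdr.of_word (fun l => Enc.enc l) (fun _ => rfl) (fun l => ?_)
    cases l with
    | nil => rfl
    | cons a l => rfl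
  exact h.comp hl

/-! ### Folding -/

theorem sz_tail_le (l : List α) : sz l.tail ≤ sz l := by
  cases l with
  | nil => exact le_refl _
  | cons a l => rw [List.tail_cons, sz_cons]; omega

theorem sz_prefix_le {l l' : List α} (h : l' <+: l) : sz l' ≤ sz l := by
  obtain ⟨t, rfl⟩ := h
  have := sz_append l' t
  have := sz_pos t
  omega

theorem sz_suffix_le {l l' : List α} (h : l' <:+ l) : sz l' ≤ sz l := by
  obtain ⟨t, rfl⟩ := h
  have := sz_append t l'
  have := sz_pos t
  omega

/-- One step of a fold. -/
def foldStep (step : α × (σ × γ) → σ) (d : γ) (y : α × (List γ × σ)) : α × (List γ × σ) :=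
  (y.1, (y.2.1.tail, step (y.1, (y.2.2, y.2.1.headD d))))

omit [Enc α] [Enc γ] [Enc σ] in
theorem foldStep_iterate (step : α × (σ × γ) → σ) (d : γ) (x : α) (l₂ : List γ) (s0 : σ) :
    ∀ n ≤ l₂.length, (foldStep step d)^[n] (x, (l₂, s0)) =
      (x, (l₂.drop n, (l₂.take n).foldl (fun s b => step (x, (s, b))) s0)) := by
  intro n
  induction n with
  | zero => intro _; simp
  | succ n ih =>
    intro hn
    rw [Function.iterate_succ_apply', ih (by omega)]
    unfold foldStep
    simp only
    have hlt : n < l₂.length := by omega
    rw [List.tail_drop, List.take_succ_eq_append_getElem hlt, List.foldl_append]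
    simp only [List.foldl_cons, List.foldl_nil]
    rw [List.drop_eq_getElem_cons hlt]
    rfl

theorem Lin.foldl {l : α → List γ} {s0 : α → σ} {step : α × (σ × γ) → σ} (hl : Lin l)
    (h0 : Lin s0) (hs : Lin step) {q : ℕ → ℕ} (hq : LB q)
    (hb : ∀ x, ∀ l', l' <+: l x →
      sz (l'.foldl (fun s b => step (x, (s, b))) (s0 x)) ≤ q (sz x)) :
    Lin (fun x => (l x).foldl (fun s b => step (x, (s, b))) (s0 x)) := by
  rcases isEmpty_or_nonempty γ with hγ | ⟨⟨d⟩⟩
  · refine h0.of_eq fun x => ?_
    cases l x with
    | nil => rfl
    | cons a _ => exact (IsEmpty.false a).elim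
  obtain ⟨ql, hql, Hql⟩ := hl.size
  have hstep : Lin (foldStep step d) :=
    Lin.pair Lin.fst (Lin.pair ((Lin.fst.comp Lin.snd).tail)
      (hs.comp (Lin.pair Lin.fst (Lin.pair (Lin.snd.comp Lin.snd)
        ((Lin.fst.comp Lin.snd).headD d)))))
  have hcond : Lin (fun y : α × (List γ × σ) => !y.2.1.isEmpty) :=
    (Lin.isEmpty (Lin.fst.comp Lin.snd)).not
  have key : Lin (fun x => (x, (([] : List γ),
      (l x).foldl (fun s b => step (x, (s, b))) (s0 x)))) := by
    refine Lin.while (init := fun x => (x, (l x, s0 x))) (step := foldStep step d)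
      (Lin.pair Lin.id (Lin.pair hl h0)) hcond hstep
      (g := fun n => n + ql n + q n + 2) (((LB.id.add hql).add hq).add (LB.const 2)) fun x =>
      ⟨(l x).length, ?_, ?_, ?_, ?_⟩
    · intro i hi
      rw [foldStep_iterate _ _ _ _ _ _ hi.le]
      simp only [List.isEmpty_iff, Bool.not_eq_true', Bool.eq_false_iff, ne_eq,
        List.drop_eq_nil_iff]
      omega
    · rw [foldStep_iterate _ _ _ _ _ _ (le_refl _)]
      simp
    · intro i hi
      rw [foldStep_iterate _ _ _ _ _ _ hi, sz_pair, sz_pair]
      have h1 := Hql x
      have h2 := sz_suffix_le (List.drop_suffix i (l x))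
      have h3 := hb x _ (List.take_prefix i (l x))
      omega
    · rw [foldStep_iterate _ _ _ _ _ _ (le_refl _)]
      simp
  exact (Lin.snd.comp (Lin.snd.comp key))

/-! ### Lists -/

theorem sz_reverse (l : List α) : sz l.reverse = sz l := by
  induction l with
  | nil => rfl
  | cons a l ih =>
    rw [List.reverse_cons]
    have := sz_append l.reverse [a]
    rw [sz_cons, sz_nil] at this
    rw [sz_cons]
    omega

omit [Enc α] in
theorem foldl_cons_eq (l s : List α) : l.foldl (fun s b => b :: s) s = l.reverse ++ s := by
  induction l generalizing s with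
  | nil => rfl
  | cons a l ih => rw [List.foldl_cons, ih]; simp

/-- Reversing on top of another list. -/
theorem Lin.revAppend {l m : α → List γ} (hl : Lin l) (hm : Lin m) :
    Lin (fun x => (l x).reverse ++ m x) := by
  obtain ⟨ql, hql, Hql⟩ := hl.size
  obtain ⟨qm, hqm, Hqm⟩ := hm.size
  have h := Lin.foldl (step := fun y : α × (List γ × γ) => y.2.2 :: y.2.1) hl hm
    (Lin.cons (Lin.snd.comp Lin.snd) (Lin.fst.comp Lin.snd)) (hql.add hqm) (by
      intro x l' hl'
      have e : (l'.foldl (fun s b => b :: s) (m x)) = l'.reverse ++ m x := foldl_cons_eq _ _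
      show sz (l'.foldl (fun s b => b :: s) (m x)) ≤ _
      rw [e]
      have h1 := sz_append l'.reverse (m x)
      rw [sz_reverse] at h1
      have h2 := sz_prefix_le hl'
      have h3 := Hql x
      have h4 := Hqm x
      show _ ≤ ql (sz x) + qm (sz x)
      omega)
  exact h.of_eq fun x => foldl_cons_eq _ _

theorem Lin.reverse {l : α → List γ} (hl : Lin l) : Lin (fun x => (l x).reverse) :=
  (hl.revAppend (Lin.const [])).of_eq fun x => by simp

theorem Lin.append {l m : α → List γ} (hl : Lin l) (hm : Lin m) :
    Lin (fun x => l x ++ m x) :=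
  (hl.reverse.revAppend hm).of_eq fun x => by simp

end Pool.Agent.Lib.LinSpace
end

section

/-!
Derived closure properties: equality tests, finite types, maps over lists.
-/

set_option autoImplicit false
set_option linter.unusedSimpArgs false

namespace Pool.Agent.Lib.LinSpace

variable {α β γ σ δ : Type} [Enc α] [Enc β] [Enc γ] [Enc σ] [Enc δ]

deriving instance DecidableEq for Dat

/-! ### Equality test -/

/-- Total size of a list of pairs of trees. -/
def wt (l : List (Dat × Dat)) : ℕ := (l.map fun p => (code p.1).length + (code p.2).length).sum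

theorem sz_dat (d : Dat) : sz d = (code d).length := rfl

theorem sz_list_pair (l : List (Dat × Dat)) : sz l ≤ 2 * wt l + 1 := by
  induction l with
  | nil => simp [sz_nil]
  | cons p l ih =>
    obtain ⟨a, b⟩ := p
    have e1 := sz_pair a b
    have e2 := sz_pos a
    have e3 := sz_pos b
    rw [sz_cons, e1]
    simp only [wt, List.map_cons, List.sum_cons] at ih ⊢
    rw [sz_dat, sz_dat] at *
    omega

/-- One step of the equality test. -/
def eqStep (s : List (Dat × Dat) × Bool) : List (Dat × Dat) × Bool :=
  let p := s.1.headD (.nil, .nil)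
  if (match p.1 with | .nil => true | .cons _ _ => false) then
    if (match p.2 with | .nil => true | .cons _ _ => false) then (s.1.tail, s.2)
    else ([], false)
  else
    if (match p.2 with | .nil => true | .cons _ _ => false) then ([], false)
    else ((p.1.car, p.2.car) :: (p.1.cdr, p.2.cdr) :: s.1.tail, s.2)

theorem lin_eqStep : Lin eqStep := by
  have hp : Lin (fun s : List (Dat × Dat) × Bool => s.1.headD (.nil, .nil)) :=
    Lin.headD Lin.fst _
  have h1 : Lin (fun s : List (Dat × Dat) × Bool => (s.1.headD (.nil, .nil)).1) :=
    Lin.fst.comp hp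
  have h2 : Lin (fun s : List (Dat × Dat) × Bool => (s.1.headD (.nil, .nil)).2) :=
    Lin.snd.comp hp
  have ht : Lin (fun s : List (Dat × Dat) × Bool => s.1.tail) := Lin.tail Lin.fst
  exact (Lin.isNil.comp h1).ite
    ((Lin.isNil.comp h2).ite (ht.pair Lin.snd) (Lin.const _))
    ((Lin.isNil.comp h2).ite (Lin.const _)
      (((Lin.car.comp h1).pair (Lin.car.comp h2)).cons
        (((Lin.cdr.comp h1).pair (Lin.cdr.comp h2)).cons ht) |>.pair Lin.snd))

theorem eqStep_run (n : ℕ) : ∀ (l : List (Dat × Dat)), wt l ≤ n →
    ∃ k, (∀ i < k, (!(eqStep^[i] (l, true)).1.isEmpty) = true) ∧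
      (!(eqStep^[k] (l, true)).1.isEmpty) = false ∧
      (∀ i ≤ k, sz (eqStep^[i] (l, true)) ≤ 2 * wt l + 5) ∧
      ([], decide (∀ p ∈ l, p.1 = p.2)) = eqStep^[k] (l, true) := by
  induction n with
  | zero =>
    intro l hl
    cases l with
    | nil =>
      refine ⟨0, by simp, by simp, ?_, by simp⟩
      intro i hi
      have : i = 0 := by omega
      subst this
      simp only [Function.iterate_zero, id_eq, sz_pair, sz_nil]
      have := sz_bool true
      omega
    | cons p l =>
      have := code_length_pos p.1
      simp only [wt, List.map_cons, List.sum_cons] at hl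
      omega
  | succ n ih =>
    intro l hl
    cases l with
    | nil =>
      refine ⟨0, by simp, by simp, ?_, by simp⟩
      intro i hi
      have : i = 0 := by omega
      subst this
      simp only [Function.iterate_zero, id_eq, sz_pair, sz_nil]
      have := sz_bool true
      omega
    | cons p l =>
      obtain ⟨a, b⟩ := p
      have hsz0 : sz (((a, b) :: l, true) : List (Dat × Dat) × Bool) ≤ 2 * wt ((a, b) :: l) + 5 := by
        have := sz_list_pair ((a, b) :: l)
        have := sz_bool true
        rw [sz_pair]; omega
      have hfail : ∀ (h : eqStep ((a, b) :: l, true) = ([], false)), a ≠ b →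
          ∃ k, (∀ i < k, (!(eqStep^[i] ((a, b) :: l, true)).1.isEmpty) = true) ∧
          (!(eqStep^[k] ((a, b) :: l, true)).1.isEmpty) = false ∧
          (∀ i ≤ k, sz (eqStep^[i] ((a, b) :: l, true)) ≤ 2 * wt ((a, b) :: l) + 5) ∧
          ([], decide (∀ p ∈ (a, b) :: l, p.1 = p.2)) = eqStep^[k] ((a, b) :: l, true) := by
        intro h hab
        refine ⟨1, ?_, ?_, ?_, ?_⟩
        · intro i hi
          have : i = 0 := by omega
          subst this
          simp
        · rw [Function.iterate_one, h]; simp
        · intro i hi
          rcases Nat.eq_zero_or_pos i with h0 | h0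
          · subst h0; simpa using hsz0
          · have : i = 1 := by omega
            subst this
            rw [Function.iterate_one, h, sz_pair, sz_nil]
            have := sz_bool false
            omega
        · rw [Function.iterate_one, h]
          simp [hab]
      have hgo : ∀ (l' : List (Dat × Dat)), eqStep ((a, b) :: l, true) = (l', true) →
          wt l' < wt ((a, b) :: l) → ((∀ p ∈ l', p.1 = p.2) ↔ ∀ p ∈ (a, b) :: l, p.1 = p.2) →
          ∃ k, (∀ i < k, (!(eqStep^[i] ((a, b) :: l, true)).1.isEmpty) = true) ∧
          (!(eqStep^[k] ((a, b) :: l, true)).1.isEmpty) = false ∧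
          (∀ i ≤ k, sz (eqStep^[i] ((a, b) :: l, true)) ≤ 2 * wt ((a, b) :: l) + 5) ∧
          ([], decide (∀ p ∈ (a, b) :: l, p.1 = p.2)) = eqStep^[k] ((a, b) :: l, true) := by
        intro l' h hw hiff
        obtain ⟨k, h1, h2, h3, h4⟩ := ih l' (by omega)
        refine ⟨k + 1, ?_, ?_, ?_, ?_⟩
        · intro i hi
          cases i with
          | zero => simp
          | succ i => rw [Function.iterate_succ_apply, h]; exact h1 i (by omega)
        · rw [Function.iterate_succ_apply, h]; exact h2
        · intro i hi
          cases i with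
          | zero => simpa using hsz0
          | succ i =>
            rw [Function.iterate_succ_apply, h]
            have := h3 i (by omega)
            omega
        · rw [Function.iterate_succ_apply, h, ← h4]
          simp only [hiff]
      cases a with
      | nil =>
        cases b with
        | nil =>
          exact hgo l rfl (by simp [wt, code]) (by simp)
        | cons c d => exact hfail rfl (by simp)
      | cons c d =>
        cases b with
        | nil => exact hfail rfl (by simp)
        | cons e f =>
          refine hgo ((c, e) :: (d, f) :: l) rfl ?_ ?_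
          · simp only [wt, List.map_cons, List.sum_cons, code, List.length_cons,
              List.length_append]
            omega
          · simp only [List.mem_cons, forall_eq_or_imp, Dat.cons.injEq]
            tauto

theorem Lin.eqDat : Lin (fun p : Dat × Dat => decide (p.1 = p.2)) := by
  have h : Lin (fun p : Dat × Dat => (([] : List (Dat × Dat)), decide (p.1 = p.2))) := by
    refine Lin.while (init := fun p : Dat × Dat => ([p], true))
      (cond := fun s : List (Dat × Dat) × Bool => !s.1.isEmpty) (step := eqStep)
      ((Lin.id.cons (Lin.const _)).pair (Lin.const _)) (Lin.isEmpty Lin.fst).not lin_eqStep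
      (g := fun n => 2 * n + 5) ((LB.id.smul 2).add (LB.const 5)) fun p => ?_
    obtain ⟨k, h1, h2, h3, h4⟩ := eqStep_run (wt [p]) [p] (le_refl _)
    refine ⟨k, h1, h2, ?_, ?_⟩
    · intro i hi
      refine (h3 i hi).trans ?_
      have : sz p = sz p.1 + sz p.2 + 1 := sz_pair p.1 p.2
      simp only [wt, List.map_cons, List.map_nil, List.sum_cons, List.sum_nil]
      rw [sz_dat, sz_dat] at this
      omega
    · rw [← h4]; simp
  exact Lin.snd.comp h

theorem Lin.eq [DecidableEq γ] {f g : α → γ} (hf : Lin f) (hg : Lin g) :
    Lin (fun x => decide (f x = g x)) := by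
  have h : Lin (fun p : γ × γ => decide (p.1 = p.2)) := by
    refine Lin.eqDat.of_word (fun p => (Enc.enc p.1, Enc.enc p.2)) (fun _ => rfl) (fun p => ?_)
    have : decide (p.1 = p.2) = decide (Enc.enc p.1 = Enc.enc p.2) := by
      simp only [Enc.inj.eq_iff]
    simp only
    rw [this]
  exact h.comp (hf.pair hg)

/-! ### Finite types -/

theorem Lin.finCase {ι : Type} [Enc ι] [Finite ι] {i : α → ι} (hi : Lin i) {f : ι → α → β}
    (hf : ∀ j, Lin (f j)) : Lin (fun x => f (i x) x) := by
  classical
  rcases isEmpty_or_nonempty β with hβ | ⟨⟨d⟩⟩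
  · refine ⟨.skip, fun _ => 1, LB.const 1, fun x => (hβ.false (f (i x) x)).elim⟩
  have key : ∀ s : Finset ι, Lin (fun x => if i x ∈ s then f (i x) x else d) := by
    intro s
    induction s using Finset.induction_on with
    | empty => exact (Lin.const d).of_eq fun x => by simp
    | @insert a s _ ih =>
      refine ((Lin.eq hi (Lin.const a)).ite (hf a) ih).of_eq fun x => ?_
      by_cases h : i x = a
      · simp [h]
      · simp [h]
  have := Fintype.ofFinite ι
  exact (key Finset.univ).of_eq fun x => by simp

theorem Lin.of_finite [Finite α] (f : α → β) : Lin f :=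
  (Lin.finCase (i := fun x : α => x) Lin.id (f := fun j _ => f j) fun j => Lin.const (f j))

/-- Unary numbers as trees. -/
def unD : ℕ → Dat
  | 0 => .nil
  | k + 1 => .cons .nil (unD k)

theorem unD_inj : Function.Injective unD := by
  intro m
  induction m with
  | zero => intro n h; cases n with
    | zero => rfl
    | succ n => cases h
  | succ m ih => intro n h; cases n with
    | zero => cases h
    | succ n =>
      injection h with _ h
      rw [ih h]

/-- An encoding of a finite type. -/
@[reducible] noncomputable def encFinite (α : Type) [Finite α] : Enc α :=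
  ⟨fun a => unD (Finite.equivFin α a), fun _ _ h =>
    (Finite.equivFin α).injective (Fin.ext (unD_inj h))⟩

noncomputable instance : Enc Empty := encFinite Empty

/-! ### Mapping over lists -/

theorem foldl_map_eq {α β : Type} (f : α → β) (l : List α) (s : List β) :
    l.foldl (fun s b => f b :: s) s = (l.map f).reverse ++ s := by
  induction l generalizing s with
  | nil => rfl
  | cons a l ih => rw [List.foldl_cons, ih]; simp

omit [Enc γ] in
theorem sz_map_prefix {l l' : List γ} (h : l' <+: l) (f : γ → β) :
    sz (l'.map f) ≤ sz (l.map f) := by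
  obtain ⟨t, rfl⟩ := h
  rw [List.map_append]
  exact sz_prefix_le (List.prefix_append _ _)

/-- Mapping a function over a list. -/
theorem Lin.map {l : α → List γ} {f : α × γ → β} (hl : Lin l) (hf : Lin f) {q : ℕ → ℕ}
    (hq : LB q) (hb : ∀ x, sz ((l x).map fun b => f (x, b)) ≤ q (sz x)) :
    Lin (fun x => (l x).map fun b => f (x, b)) := by
  have h := Lin.foldl (step := fun y : α × (List β × γ) => f (y.1, y.2.2) :: y.2.1) hl
    (Lin.const ([] : List β))
    (Lin.cons (hf.comp (Lin.pair Lin.fst (Lin.snd.comp Lin.snd)))
      (Lin.fst.comp Lin.snd)) hq (by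
      intro x l' hl'
      show sz (l'.foldl (fun s b => f (x, b) :: s) []) ≤ q (sz x)
      rw [foldl_map_eq (fun b => f (x, b)), List.append_nil, sz_reverse]
      exact (sz_map_prefix hl' _).trans (hb x))
  exact (h.reverse).of_eq fun x => by
    rw [foldl_map_eq (fun b => f (x, b))]; simp

/-- A linear bound for the size of the image of a list under a function. -/
theorem sz_map_le {f : γ → β} {K : ℕ} (hK : ∀ x, sz (f x) ≤ K * sz x) (l : List γ) :
    sz (l.map f) ≤ (K + 1) * sz l := by
  induction l with
  | nil => rw [List.map_nil, sz_nil, sz_nil]; omega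
  | cons a l ih =>
    rw [List.map_cons, sz_cons, sz_cons, Nat.mul_add, Nat.mul_add]
    have := hK a
    have : K * sz a ≤ (K + 1) * sz a := Nat.mul_le_mul_right _ (by omega)
    omega

theorem LB.mul_sz {g : ℕ → ℕ} (hg : LB g) : ∃ K, ∀ n, 0 < n → g n ≤ K * n := by
  obtain ⟨K, hK⟩ := hg.2
  refine ⟨2 * K, fun n hn => (hK n).trans ?_⟩
  have : K ≤ K * n := Nat.le_mul_of_pos_right _ hn
  rw [Nat.mul_assoc, Nat.two_mul]
  omega

/-- Mapping a fixed function over a list. -/
theorem Lin.map' {l : α → List γ} {f : γ → β} (hl : Lin l) (hf : Lin f) :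
    Lin (fun x => (l x).map f) := by
  obtain ⟨g, hg, Hg⟩ := hf.size
  obtain ⟨K, hK⟩ := hg.mul_sz
  have h : Lin (fun l : List γ => l.map f) := by
    refine (Lin.map (l := fun l : List γ => l) (f := fun p : List γ × γ => f p.2) Lin.id
      (hf.comp Lin.snd) (q := fun n => (K + 1) * n) (LB.id.smul _) fun l => ?_)
    exact sz_map_le (fun x => (Hg x).trans (hK _ (sz_pos x))) l
  exact h.comp hl

end Pool.Agent.Lib.LinSpace
end

section

/-!
Enumeration of words and decoding of trees.
-/

set_option autoImplicit false
set_option linter.unusedSimpArgs false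

namespace Pool.Agent.Lib.LinSpace

variable {α β γ σ δ : Type} [Enc α] [Enc β] [Enc γ] [Enc σ] [Enc δ]

/-! ### Words of a given length -/

/-- The `i`-th word of length `n`. -/
def bits : ℕ → ℕ → List Bool
  | 0, _ => []
  | n + 1, i => (decide (i % 2 = 1)) :: bits n (i / 2)

theorem bits_length (n i : ℕ) : (bits n i).length = n := by
  induction n generalizing i with
  | zero => rfl
  | succ n ih => simp [bits, ih]

theorem exists_bits (w : List Bool) : ∃ i < 2 ^ w.length, bits w.length i = w := by
  induction w with
  | nil => exact ⟨0, by simp, rfl⟩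
  | cons b w ih =>
    obtain ⟨i, hi, h⟩ := ih
    refine ⟨2 * i + (if b then 1 else 0), ?_, ?_⟩
    · rw [List.length_cons, Nat.pow_succ]
      split <;> omega
    · rw [List.length_cons, bits]
      have h1 : (2 * i + (if b then 1 else 0)) / 2 = i := by split <;> omega
      rw [h1, h]
      congr 1
      cases b
      · simp
      · simp

/-- The successor of a word, read from the least significant digit. -/
def incr : List Bool → List Bool
  | [] => []
  | false :: l => true :: l
  | true :: l => false :: incr l

theorem incr_bits (n i : ℕ) : incr (bits n i) = bits n (i + 1) := by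
  induction n generalizing i with
  | zero => rfl
  | succ n ih =>
    rcases Nat.mod_two_eq_zero_or_one i with h | h
    · have e1 : decide (i % 2 = 1) = false := by simp; omega
      have e2 : decide ((i + 1) % 2 = 1) = true := by simp; omega
      have e3 : (i + 1) / 2 = i / 2 := by omega
      rw [bits, bits, e1, e2, e3, incr]
    · have e1 : decide (i % 2 = 1) = true := by simp; omega
      have e2 : decide ((i + 1) % 2 = 1) = false := by simp; omega
      have e3 : (i + 1) / 2 = i / 2 + 1 := by omega
      rw [bits, bits, e1, e2, e3, incr, ih]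

theorem bits_all (n i : ℕ) (hi : i < 2 ^ n) : (bits n i).all id = true ↔ i + 1 = 2 ^ n := by
  induction n generalizing i with
  | zero => simp [bits]; omega
  | succ n ih =>
    have h1 : i / 2 < 2 ^ n := by rw [Nat.pow_succ] at hi; omega
    have h2 := ih (i / 2) h1
    rw [bits, List.all_cons, Bool.and_eq_true, h2, Nat.pow_succ]
    simp only [id_eq, decide_eq_true_eq]
    omega

theorem bits_zero (n : ℕ) : bits n 0 = List.replicate n false := by
  induction n with
  | zero => rfl
  | succ n ih => simp [bits, ih, List.replicate_succ]

theorem sz_word_bool (w : List Bool) : sz w ≤ 4 * w.length + 1 := by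
  induction w with
  | nil => simp [sz_nil]
  | cons b w ih =>
    have := sz_bool b
    rw [sz_cons, List.length_cons]
    omega

theorem Lin.all {l : α → List Bool} (hl : Lin l) : Lin (fun x => (l x).all _root_.id) := by
  have h := Lin.foldl (step := fun y : α × (Bool × Bool) => y.2.1 && y.2.2) hl
    (Lin.const true) ((Lin.fst.comp Lin.snd).and (Lin.snd.comp Lin.snd)) (q := fun _ => 3)
    (LB.const 3) (fun x l' _ => sz_bool _)
  refine h.of_eq fun x => ?_
  generalize l x = w
  have : ∀ b : Bool, w.foldl (fun s b => s && b) b = (b && w.all _root_.id) := by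
    induction w with
    | nil => simp
    | cons a w ih => intro b; rw [List.foldl_cons, ih]; simp [Bool.and_assoc]
  exact (this true).trans (by simp)

theorem incr_foldl (w : List Bool) (c : Bool) (r : List Bool) :
    w.foldl (fun s b => (s.1 && b, (s.1 ^^ b) :: s.2)) (c, r) =
      (c && w.all id, (if c then incr w else w).reverse ++ r) := by
  induction w generalizing c r with
  | nil => cases c <;> simp [incr]
  | cons b w ih =>
    rw [List.foldl_cons, ih]
    cases c <;> cases b <;> simp [incr]

theorem Lin.incr {l : α → List Bool} (hl : Lin l) : Lin (fun x => incr (l x)) := by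
  obtain ⟨q, hq, Hq⟩ := hl.size
  have hx : Lin (fun y : α × ((Bool × List Bool) × Bool) =>
      (y.2.1.1 && y.2.2, (y.2.1.1 ^^ y.2.2) :: y.2.1.2)) := by
    have h1 : Lin (fun y : α × ((Bool × List Bool) × Bool) => y.2.1.1) :=
      Lin.fst.comp (Lin.fst.comp Lin.snd)
    have h2 : Lin (fun y : α × ((Bool × List Bool) × Bool) => y.2.2) := Lin.snd.comp Lin.snd
    have h3 : Lin (fun y : α × ((Bool × List Bool) × Bool) => y.2.1.2) :=
      Lin.snd.comp (Lin.fst.comp Lin.snd)
    have h4 : Lin (fun y : α × ((Bool × List Bool) × Bool) => y.2.1.1 ^^ y.2.2) :=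
      (h1.ite h2.not h2).of_eq fun y => by cases y.2.1.1 <;> cases y.2.2 <;> rfl
    exact (h1.and h2).pair (h4.cons h3)
  have h := Lin.foldl (step := fun y : α × ((Bool × List Bool) × Bool) =>
    (y.2.1.1 && y.2.2, (y.2.1.1 ^^ y.2.2) :: y.2.1.2)) hl (Lin.const (true, ([] : List Bool)))
    hx (q := fun n => 4 * q n + 5) ((hq.smul 4).add (LB.const 5)) (by
      intro x l' hl'
      show sz (l'.foldl (fun s b => (s.1 && b, (s.1 ^^ b) :: s.2)) (true, [])) ≤ 4 * q (sz x) + 5
      rw [incr_foldl, sz_pair, List.append_nil, sz_reverse]
      have h1 := sz_bool (true && l'.all _root_.id)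
      have h2 : (Pool.Agent.Lib.LinSpace.incr l').length = l'.length := by
        clear hl' h1
        induction l' with
        | nil => rfl
        | cons b l' ih => cases b <;> simp [Pool.Agent.Lib.LinSpace.incr, ih]
      have h3 := sz_word_bool (Pool.Agent.Lib.LinSpace.incr l')
      have h4 : l'.length < sz (l x) := (length_le_sz l').trans_le (sz_prefix_le hl')
      have h5 := Hq x
      simp only [if_true]
      omega)
  refine (Lin.reverse (Lin.snd.comp h)).of_eq fun x => ?_
  have := incr_foldl (l x) true []
  simp only [if_true, List.append_nil] at this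
  show ((l x).foldl (fun s b => (s.1 && b, (s.1 ^^ b) :: s.2)) (true, [])).2.reverse = _
  rw [this]
  simp

/-! ### Parsing -/

/-- One step of the parser, reading a word from right to left. -/
def parseStep (s : List Dat) (b : Bool) : List Dat :=
  if b then Dat.cons (s.headD .nil) (s.tail.headD .nil) :: s.tail.tail else .nil :: s

/-- The tree whose code is a prefix of a word. -/
def parse (w : List Bool) : Dat := (w.reverse.foldl parseStep []).headD .nil

theorem foldl_parse_code (d : Dat) (s : List Dat) :
    (code d).reverse.foldl parseStep s = d :: s := by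
  induction d generalizing s with
  | nil => rfl
  | cons a b iha ihb =>
    rw [code, List.reverse_cons, List.reverse_append, List.append_assoc, List.foldl_append, ihb,
      List.foldl_append, iha]
    rfl

theorem parse_code (d : Dat) (rest : List Bool) : parse (code d ++ rest) = d := by
  unfold parse
  rw [List.reverse_append, List.foldl_append, foldl_parse_code]
  rfl

theorem sz_parseStep (s : List Dat) (b : Bool) : sz (parseStep s b) ≤ sz s + 4 := by
  unfold parseStep
  cases b with
  | false =>
    rw [if_neg (by simp), sz_cons]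
    have : sz Dat.nil = 1 := rfl
    omega
  | true =>
    rw [if_pos rfl, sz_cons]
    have e : ∀ a b : Dat, sz (Dat.cons a b) = sz a + sz b + 1 := fun a b => by
      rw [sz_dat, sz_dat, sz_dat, code]; simp
    rw [e]
    have e0 : sz Dat.nil = 1 := rfl
    cases s with
    | nil => simp [sz_nil, e0]
    | cons c s =>
      cases s with
      | nil =>
        simp only [List.headD_cons, List.tail_cons, List.headD_nil, List.tail_nil]
        rw [sz_cons, e0]
        have := sz_nil (α := Dat)
        omega
      | cons d s =>
        simp only [List.headD_cons, List.tail_cons]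
        rw [sz_cons, sz_cons]
        omega

theorem sz_parse_foldl (w : List Bool) (s : List Dat) :
    sz (w.foldl parseStep s) ≤ sz s + 4 * w.length := by
  induction w generalizing s with
  | nil => simp
  | cons b w ih =>
    rw [List.foldl_cons, List.length_cons]
    have := ih (parseStep s b)
    have := sz_parseStep s b
    omega

theorem Lin.parse {l : α → List Bool} (hl : Lin l) : Lin (fun x => parse (l x)) := by
  obtain ⟨q, hq, Hq⟩ := hl.size
  have h1 : Lin (fun y : α × (List Dat × Bool) => y.2.1) := Lin.fst.comp Lin.snd
  have hc : Lin (fun p : Dat × Dat => Dat.cons p.1 p.2) :=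
    Lin.id.of_word (fun p => p) (fun _ => rfl) (fun _ => rfl)
  have hstep : Lin (fun y : α × (List Dat × Bool) => parseStep y.2.1 y.2.2) :=
    (Lin.snd.comp Lin.snd).ite
      ((hc.comp ((h1.headD .nil).pair (h1.tail.headD .nil))).cons h1.tail.tail)
      ((Lin.const Dat.nil).cons h1)
  have h := Lin.foldl (step := fun y : α × (List Dat × Bool) => parseStep y.2.1 y.2.2)
    hl.reverse (Lin.const ([] : List Dat)) hstep (q := fun n => 4 * q n + 1)
    ((hq.smul 4).add (LB.const 1)) (by
      intro x l' hl'
      show sz (l'.foldl parseStep []) ≤ 4 * q (sz x) + 1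
      have h1 := sz_parse_foldl l' []
      rw [sz_nil] at h1
      have h2 : l'.length < sz (l x) := by
        have := (length_le_sz l').trans_le (sz_prefix_le hl')
        rwa [sz_reverse] at this
      have h5 := Hq x
      omega)
  exact (h.headD .nil).of_eq fun x => rfl

/-! ### Reading trees -/

/-- Types whose elements can be read off from arbitrary trees. -/
class Rd (α : Type) [Enc α] where
  /-- the element read off from a tree -/
  rd : Dat → α
  /-- reading inverts coding -/
  rd_enc : ∀ x, rd (Enc.enc x) = x
  /-- reading is a linear space function -/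
  lin : Lin rd

/-- The spine of a tree. -/
def spine : Dat → List Dat
  | .nil => []
  | .cons a b => a :: spine b

theorem spine_listD (l : List Dat) : spine (listD l) = l := by
  induction l with
  | nil => rfl
  | cons a l ih => rw [listD, spine, ih]

theorem listD_spine (d : Dat) : listD (spine d) = d := by
  induction d with
  | nil => rfl
  | cons a b _ ih => rw [spine, listD, ih]

theorem Lin.spine : Lin spine := by
  refine Lin.id.of_word (fun d => d) (fun _ => rfl) (fun d => ?_)
  show code (listD ((Pool.Agent.Lib.LinSpace.spine d).map _root_.id)) = code d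
  rw [List.map_id, listD_spine]

noncomputable instance {α : Type} [Enc α] [Rd α] : Rd (List α) where
  rd d := (spine d).map Rd.rd
  rd_enc l := by
    show (spine (listD (l.map Enc.enc))).map Rd.rd = l
    rw [spine_listD, List.map_map]
    conv_rhs => rw [← List.map_id l]
    exact List.map_congr_left fun x _ => Rd.rd_enc x
  lin := Lin.map' Lin.spine Rd.lin

noncomputable instance {α β : Type} [Enc α] [Enc β] [Rd α] [Rd β] : Rd (α × β) where
  rd d := (Rd.rd d.car, Rd.rd d.cdr)
  rd_enc x := by
    show (Rd.rd (Enc.enc x.1), Rd.rd (Enc.enc x.2)) = x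
    rw [Rd.rd_enc, Rd.rd_enc]
  lin := (Rd.lin.comp Lin.car).pair (Rd.lin.comp Lin.cdr)

theorem lin_finite_aux [DecidableEq α] (s : Finset α) (d : α) :
    ∃ r : Dat → α, Lin r ∧ ∀ x ∈ s, r (Enc.enc x) = x := by
  classical
  induction s using Finset.induction_on with
  | empty => exact ⟨fun _ => d, Lin.const d, by simp⟩
  | @insert a s _ ih =>
    obtain ⟨r, hr, hs⟩ := ih
    refine ⟨fun t => if decide (t = Enc.enc a) then a else r t,
      (Lin.eq Lin.id (Lin.const (Enc.enc a))).ite (Lin.const a) hr, ?_⟩
    intro x hx
    by_cases h : x = a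
    · subst h; simp
    · have : ¬ (Enc.enc x = Enc.enc a) := fun e => h (Enc.inj e)
      simp only [this, decide_false, Bool.false_eq_true, if_false]
      rcases Finset.mem_insert.1 hx with hx | hx
      · exact absurd hx h
      · exact hs x hx

/-- Finite nonempty types can be read. -/
@[reducible] noncomputable def rdFinite (α : Type) [Enc α] [Finite α] [Nonempty α] : Rd α := by
  classical
  have := Fintype.ofFinite α
  have h := lin_finite_aux (Finset.univ : Finset α) (Classical.arbitrary α)
  exact ⟨h.choose, fun x => h.choose_spec.2 x (Finset.mem_univ _), h.choose_spec.1⟩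

noncomputable instance : Rd Bool := rdFinite Bool
instance : Rd Dat := ⟨fun d => d, fun _ => rfl, Lin.id⟩

end Pool.Agent.Lib.LinSpace
end
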