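import Pool.Agent.Lib.LinSpace.Recall

/-!
Recursive nondeterministic algorithms whose guesses shrink geometrically, with any fixed number
of subinstances (the case of two subinstances is in `Recall.lean`).
-/

set_option autoImplicit false
set_option linter.unusedSimpArgs false

namespace Pool.Agent.Lib.LinSpace.RecN

variable {α β γ σ δ ω : Type} [Enc α] [Enc β] [Enc γ] [Enc σ] [Enc δ] [Enc ω]

theorem exists_sz_le' (γ : Type) [Finite γ] [Enc γ] : ∃ D, ∀ a : γ, sz a ≤ D := by
  obtain ⟨D, hD⟩ := (Set.finite_range fun a : γ => sz a).bddAbove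
  exact ⟨D, fun a => hD ⟨a, rfl⟩⟩

theorem sz_list_le' {γ : Type} [Enc γ] {D : ℕ} (l : List γ) (hD : ∀ a ∈ l, sz a ≤ D) :
    sz l ≤ (D + 1) * l.length + 1 := by
  induction l with
  | nil => simp [sz_nil]
  | cons a l ih =>
    have h1 := hD a (List.mem_cons_self ..)
    have h2 := ih fun b hb => hD b (List.mem_cons_of_mem _ hb)
    rw [sz_cons, List.length_cons, Nat.mul_add]
    omega

/-- Numbers in unary. -/
abbrev un (i : ℕ) : List Bool := List.replicate i true

/-- The numerical conditions on the subinstances. -/
def okB (r : ℕ) (m : α → List Bool) (chk : α × β → Bool) (ch : (α × β) × List Bool → α) (B : ℕ)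
    (p : α × β) : Prop :=
  chk p = true ∧ ∀ i, i < r → sz (ch (p, un i)) ≤ B ∧
    10 * (m (ch (p, un i))).length ≤ 9 * (m p.1).length

/-- The instances accepted by the recursive algorithm. -/
inductive Rec [Rd β] (C r : ℕ) (base bval : α → Bool) (m : α → List Bool)
    (chk : α × β → Bool) (ch : (α × β) × List Bool → α) (B : ℕ) : α → Prop
  | base {x : α} : base x = true → bval x = true → Rec C r base bval m chk ch B x
  | node {x : α} {j : ℕ} : base x = false → 0 < j → j < 2 ^ (C * (m x).length + C + 1) →
      okB r m chk ch B (x, gu β (bits (C * (m x).length + C + 1) j)) →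
      (∀ i, i < r → Rec C r base bval m chk ch B
        (ch ((x, gu β (bits (C * (m x).length + C + 1) j)), un i))) →
      Rec C r base bval m chk ch B x

section Recall

variable [Rd β] {C K r : ℕ} {base bval : α → Bool} {m : α → List Bool} {chk : α × β → Bool}
  {ch : (α × β) × List Bool → α}

/-- Small guesses are sufficient. -/
theorem Rec.guess {B : ℕ} {x : α} {y : β} (hb : base x = false)
    (hy : sz y ≤ C * (m x).length + C) (hok : okB r m chk ch B (x, y))
    (h : ∀ i, i < r → Rec C r base bval m chk ch B (ch ((x, y), un i))) :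
    Rec C r base bval m chk ch B x := by
  set N := C * (m x).length + C + 1 with hN
  have hlen : (word y ++ List.replicate (N - sz y) true).length = N := by
    rw [List.length_append, List.length_replicate]
    have : (word y).length = sz y := rfl
    omega
  obtain ⟨j, hj, hw⟩ := exists_bits (word y ++ List.replicate (N - sz y) true)
  rw [hlen] at hj hw
  have hparse : gu β (bits N j) = y := by
    rw [hw, gu, word, parse_code, Rd.rd_enc]
  have hj0 : 0 < j := by
    rcases Nat.eq_zero_or_pos j with h | h
    · exfalso
      rw [h, bits_zero] at hw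
      have h1 : true ∈ word y ++ List.replicate (N - sz y) true := by
        rw [List.mem_append, List.mem_replicate]
        right
        exact ⟨by omega, rfl⟩
      rw [← hw, List.mem_replicate] at h1
      simp at h1
    · exact h
  refine Rec.node (j := j) hb hj0 hj ?_ ?_
  · rw [← hN, hparse]; exact hok
  · rw [← hN, hparse]; exact h

/-- The numerical conditions for one subinstance, as a test. -/
def okC (K : ℕ) (m : α → List Bool) (ch : (α × β) × List Bool → α) (i : ℕ)
    (p : α × (α × β)) : Bool :=
  decide ((List.replicate (sz (ch (p.2, un i))) false).length ≤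
      (rep K (List.replicate (sz p.1) false) ++ List.replicate K false).length) &&
    decide ((rep 10 (m (ch (p.2, un i)))).length ≤ (rep 9 (m p.2.1)).length)

/-- The numerical conditions for the first subinstances. -/
def okA (K : ℕ) (m : α → List Bool) (ch : (α × β) × List Bool → α) :
    ℕ → α × (α × β) → Bool
  | 0, _ => true
  | i + 1, p => okC K m ch i p && okA K m ch i p

/-- The numerical conditions, as a test. -/
def okF (K r : ℕ) (m : α → List Bool) (chk : α × β → Bool) (ch : (α × β) × List Bool → α)
    (p : α × (α × β)) : Bool :=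
  chk p.2 && okA K m ch r p

omit [Rd β] [Enc β] in
theorem okC_iff {i : ℕ} {p : α × (α × β)} : okC K m ch i p = true ↔
    sz (ch (p.2, un i)) ≤ K * sz p.1 + K ∧
      10 * (m (ch (p.2, un i))).length ≤ 9 * (m p.2.1).length := by
  simp only [okC, Bool.and_eq_true, decide_eq_true_eq, rep_length, List.length_replicate,
    List.length_append]

omit [Rd β] [Enc β] in
theorem okA_iff {p : α × (α × β)} (r : ℕ) : okA K m ch r p = true ↔
    ∀ i, i < r → okC K m ch i p = true := by
  induction r with
  | zero => simp [okA]
  | succ r ih =>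
    rw [okA, Bool.and_eq_true, ih]
    constructor
    · rintro ⟨h1, h2⟩ i hi
      rcases Nat.lt_succ_iff_lt_or_eq.1 hi with h | h
      · exact h2 i h
      · rw [h]; exact h1
    · intro h
      exact ⟨h r (by omega), fun i hi => h i (by omega)⟩

omit [Rd β] [Enc β] in
theorem okF_iff {p : α × (α × β)} : okF K r m chk ch p = true ↔
    okB r m chk ch (K * sz p.1 + K) p.2 := by
  rw [okF, okB, Bool.and_eq_true, okA_iff]
  simp only [okC_iff]

omit [Rd β] in
theorem lin_okF (hm : Lin m) (hc : Lin chk) (hs : Lin ch) : Lin (okF K r m chk ch) := by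
  have h1 : ∀ i : ℕ, Lin (fun p : α × (α × β) => ch (p.2, un i)) := fun b =>
    hs.comp (Lin.snd.pair (Lin.const _))
  have h2 : Lin (fun p : α × (α × β) => rep K (List.replicate (sz p.1) false) ++
      List.replicate K false) := ((Lin.rep (Lin.unary.comp Lin.fst) K)).append (Lin.const _)
  have h3 : Lin (fun p : α × (α × β) => rep 9 (m p.2.1)) :=
    Lin.rep (hm.comp (Lin.fst.comp Lin.snd)) 9
  have h4 : ∀ i : ℕ, Lin (okC K m ch i) := fun b =>
    (Lin.lenLe (Lin.unary.comp (h1 b)) h2).and (Lin.lenLe (Lin.rep (hm.comp (h1 b)) 10) h3)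
  have h5 : Lin (okA K m ch r) := by
    induction r with
    | zero => exact Lin.const true
    | succ r ih => exact (h4 r).and ih
  exact (hc.comp Lin.snd).and h5

/-- Passing to a subinstance, if it is small. -/
noncomputable def gstep (K : ℕ) (ch : (α × β) × List Bool → α)
    (p : α × (α × (List Bool × List Bool))) : α :=
  if decide ((List.replicate (sz (ch ((p.2.1, gu β p.2.2.1), p.2.2.2.tail))) false).length ≤
      (rep K (List.replicate (sz p.1) false) ++ List.replicate K false).length)
  then ch ((p.2.1, gu β p.2.2.1), p.2.2.2.tail) else p.2.1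

theorem lin_gstep (hs : Lin ch) : Lin (gstep K ch) := by
  have h1 : Lin (fun p : α × (α × (List Bool × List Bool)) =>
      ch ((p.2.1, gu β p.2.2.1), p.2.2.2.tail)) :=
    hs.comp (((Lin.fst.comp Lin.snd).pair (lin_gu (Lin.fst.comp (Lin.snd.comp Lin.snd)))).pair
      (Lin.snd.comp (Lin.snd.comp Lin.snd)).tail)
  exact (Lin.lenLe (Lin.unary.comp h1) (((Lin.rep (Lin.unary.comp Lin.fst) K)).append
    (Lin.const _))).ite h1 (Lin.fst.comp Lin.snd)

theorem gstep_eq {x0 x : α} {w : List Bool} {b : Bool} {i : List Bool}
    (h : sz (ch ((x, gu β w), i)) ≤ K * sz x0 + K) :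
    gstep K ch (x0, (x, (w, b :: i))) = ch ((x, gu β w), i) := by
  rw [gstep, if_pos]
  · rfl
  · simp only [decide_eq_true_eq, rep_length, List.length_replicate, List.length_append,
      List.tail_cons]
    exact h

/-- The current instance. -/
noncomputable def cur (K : ℕ) (ch : (α × β) × List Bool → α)
    (p : α × List (List Bool × List Bool)) : α :=
  p.2.reverse.foldl (fun x f => gstep K ch (p.1, (x, f))) p.1

theorem cur_cons (x0 : α) (f : List Bool × List Bool) (fr : List (List Bool × List Bool)) :
    cur K ch (x0, f :: fr) = gstep K ch (x0, (cur K ch (x0, fr), f)) := by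
  simp [cur, List.foldl_append]

theorem sz_cur_le (x0 : α) (l : List (List Bool × List Bool)) :
    sz (l.foldl (fun x f => gstep K ch (x0, (x, f))) x0) ≤ (K + 1) * sz x0 + K := by
  suffices H : ∀ x, sz x ≤ (K + 1) * sz x0 + K →
      sz (l.foldl (fun x f => gstep K ch (x0, (x, f))) x) ≤ (K + 1) * sz x0 + K by
    refine H x0 ?_
    rw [Nat.add_mul]; omega
  induction l with
  | nil => intro x hx; exact hx
  | cons f l ih =>
    intro x hx
    rw [List.foldl_cons]
    refine ih _ ?_
    obtain ⟨w, b⟩ := f
    unfold gstep
    split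
    next h =>
      simp only [decide_eq_true_eq, rep_length, List.length_replicate, List.length_append] at h
      rw [Nat.add_mul]
      refine h.trans ?_
      omega
    next => exact hx

theorem lin_cur (hs : Lin ch) : Lin (cur K ch) := by
  refine Lin.foldl (step := fun y : (α × List (List Bool × List Bool)) ×
      (α × (List Bool × List Bool)) =>
    gstep K ch (y.1.1, y.2)) (Lin.reverse Lin.snd) Lin.fst
    ((lin_gstep hs).comp ((Lin.fst.comp Lin.fst).pair Lin.snd))
    (q := fun n => (K + 1) * n + K) ((LB.id.smul (K + 1)).add (LB.const K)) ?_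
  intro x l' _
  refine (sz_cur_le x.1 l').trans ?_
  have : sz x.1 ≤ sz x := by
    obtain ⟨a, b⟩ := x
    rw [sz_pair]; simp only; omega
  have := Nat.mul_le_mul_left (K + 1) this
  omega

/-- States of the search: the first instance, the stack of current guesses together with the
number of the subinstances considered so far, whether an instance has to be evaluated, and the
value of the last evaluation. -/
abbrev Sr (α : Type) := α × (List (List Bool × List Bool) × (Bool × Bool))

/-- The first guess. -/
def zm (C : ℕ) (m : α → List Bool) (x : α) : List Bool :=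
  rep C ((m x).map fun _ => false) ++ List.replicate (C + 1) false

omit [Enc α] in
theorem zm_eq (x : α) : zm C m x = bits (C * (m x).length + C + 1) 0 := by
  rw [zm, List.map_const', rep_replicate, List.replicate_append_replicate, bits_zero,
    Nat.add_assoc]

theorem lin_zm (hm : Lin m) : Lin (zm C m) :=
  (Lin.rep (Lin.map' hm (Lin.const false)) C).append (Lin.const _)

/-- One step of the search. -/
noncomputable def rstep (C K r : ℕ) (base bval : α → Bool) (m : α → List Bool)
    (chk : α × β → Bool) (ch : (α × β) × List Bool → α) (s : Sr α) : Sr α :=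
  if s.2.2.1 then
    if base (cur K ch (s.1, s.2.1)) then (s.1, (s.2.1, (false, bval (cur K ch (s.1, s.2.1)))))
    else (s.1, ((zm C m (cur K ch (s.1, s.2.1)), []) :: s.2.1, (false, false)))
  else
    if s.2.2.2 then
      if decide ((un r).length ≤ (s.2.1.headD ([], [])).2.length) then
        (s.1, (s.2.1.tail, (false, true)))
      else (s.1, (((s.2.1.headD ([], [])).1, true :: (s.2.1.headD ([], [])).2) :: s.2.1.tail,
        (true, false)))
    else
      if (s.2.1.headD ([], [])).1.all id then (s.1, (s.2.1.tail, (false, false)))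
      else
        if okF K r m chk ch (s.1, (cur K ch (s.1, s.2.1.tail),
            gu β (incr (s.2.1.headD ([], [])).1))) then
          (s.1, ((incr (s.2.1.headD ([], [])).1, []) :: s.2.1.tail, (false, true)))
        else (s.1, ((incr (s.2.1.headD ([], [])).1, []) :: s.2.1.tail, (false, false)))

theorem lin_rstep (hb : Lin base) (hv : Lin bval) (hm : Lin m) (hc : Lin chk) (hs : Lin ch) :
    Lin (rstep C K r base bval m chk ch) := by
  have hfr : Lin (fun s : Sr α => s.2.1) := Lin.fst.comp Lin.snd
  have hh : Lin (fun s : Sr α => s.2.1.headD ([], [])) := hfr.headD _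
  have hh1 : Lin (fun s : Sr α => (s.2.1.headD ([], [])).1) := Lin.fst.comp hh
  have hh2 : Lin (fun s : Sr α => (s.2.1.headD ([], [])).2) := Lin.snd.comp hh
  have ht : Lin (fun s : Sr α => s.2.1.tail) := hfr.tail
  have hinc : Lin (fun s : Sr α => incr (s.2.1.headD ([], [])).1) := Lin.incr hh1
  have hcur : Lin (fun s : Sr α => cur K ch (s.1, s.2.1)) :=
    (lin_cur hs).comp (Lin.fst.pair hfr)
  have hcur' : Lin (fun s : Sr α => cur K ch (s.1, s.2.1.tail)) :=
    (lin_cur hs).comp (Lin.fst.pair ht)
  refine (Lin.fst.comp (Lin.snd.comp Lin.snd)).ite ((hb.comp hcur).ite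
    (Lin.fst.pair (hfr.pair ((Lin.const false).pair (hv.comp hcur))))
    (Lin.fst.pair (((((lin_zm hm).comp hcur).pair (Lin.const [])).cons hfr).pair
      (Lin.const _)))) ((Lin.snd.comp (Lin.snd.comp Lin.snd)).ite
      ((Lin.lenLe (Lin.const (un r)) hh2).ite
    (Lin.fst.pair (ht.pair (Lin.const _)))
    (Lin.fst.pair (((hh1.pair ((Lin.const true).cons hh2)).cons ht).pair (Lin.const _))))
    ((Lin.all hh1).ite (Lin.fst.pair (ht.pair (Lin.const _)))
      (((lin_okF hm hc hs).comp (Lin.fst.pair (hcur'.pair (lin_gu hinc)))).ite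
        (Lin.fst.pair (((hinc.pair (Lin.const [])).cons ht).pair (Lin.const _)))
        (Lin.fst.pair (((hinc.pair (Lin.const [])).cons ht).pair (Lin.const _))))))

/-- The condition of the main loop. -/
def rcond (s : Sr α) : Bool := s.2.2.1 || !s.2.1.isEmpty

theorem sz_sr (x0 : α) (fr : List (List Bool × List Bool)) (b v : Bool) :
    sz ((x0, (fr, (b, v))) : Sr α) ≤ sz x0 + sz fr + 9 := by
  rw [sz_pair, sz_pair, sz_pair]
  have := sz_bool b
  have := sz_bool v
  omega

/-- The bound for the space used by a call. -/
def bd (C r : ℕ) (x0 : α) (fr : List (List Bool × List Bool)) (k : ℕ) : ℕ :=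
  sz x0 + sz fr + (4 * C + 4 * r + 20) * (20 * k + 2)

theorem bd_cons {x0 : α} {fr : List (List Bool × List Bool)} {w : List Bool} {i k k' : ℕ}
    (hw : w.length = C * k + C + 1) (hi : i ≤ r) (hk : 10 * k' ≤ 9 * k) (hpos : 1 ≤ k) :
    bd C r x0 ((w, un i) :: fr) k' ≤ bd C r x0 fr k := by
  have h1 := sz_word_bool w
  have h2 := sz_word_bool (un i)
  rw [List.length_replicate] at h2
  rw [bd, bd, sz_cons, sz_pair]
  have h3 : (4 * C + 4 * r + 20) * (k + 1) + (4 * C + 4 * r + 20) * (20 * k' + 2) ≤
      (4 * C + 4 * r + 20) * (20 * k + 2) := by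
    rw [← Nat.mul_add]
    exact Nat.mul_le_mul_left _ (by omega)
  have h4 : sz w + sz (un i) + 2 ≤ (4 * C + 4 * r + 20) * (k + 1) := by
    have e : (4 * C + 4 * r + 20) * (k + 1) = 4 * (C * k) + 4 * (r * k) + 20 * k +
      (4 * C + 4 * r + 20) := by ring
    omega
  omega

theorem sz_le_bd {x0 : α} {fr : List (List Bool × List Bool)} {b v : Bool} {k : ℕ} :
    sz ((x0, (fr, (b, v))) : Sr α) ≤ bd C r x0 fr k := by
  have h1 := sz_sr x0 fr b v
  have h2 : (4 * C + 4 * r + 20) * 2 ≤ (4 * C + 4 * r + 20) * (20 * k + 2) :=
    Nat.mul_le_mul_left _ (by omega)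
  rw [bd]
  omega

theorem sz_le_bd_cons {x0 : α} {fr : List (List Bool × List Bool)} {w : List Bool} {i : ℕ}
    {b v : Bool} {k : ℕ} (hw : w.length = C * k + C + 1) (hi : i ≤ r) (hpos : 1 ≤ k) :
    sz ((x0, ((w, un i) :: fr, (b, v))) : Sr α) ≤ bd C r x0 fr k :=
  (sz_le_bd (C := C) (r := r) (k := 0)).trans (bd_cons hw hi (by omega) hpos)

/-- The evaluation of the subinstances for one guess. -/
theorem rec_sub {n : ℕ} {x0 : α}
    (ih : ∀ fr, (m (cur K ch (x0, fr))).length < n → ∀ b, ∃ v,
      (v = true ↔ Rec C r base bval m chk ch (K * sz x0 + K) (cur K ch (x0, fr))) ∧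
      Go rcond (rstep C K r base bval m chk ch)
        (bd C r x0 fr (m (cur K ch (x0, fr))).length)
        (x0, (fr, (true, b))) (x0, (fr, (false, v))))
    (fr : List (List Bool × List Bool)) (hn : (m (cur K ch (x0, fr))).length = n)
    (hpos : 1 ≤ n) {w : List Bool} (hw : w.length = C * n + C + 1)
    (hok : okB r m chk ch (K * sz x0 + K) (cur K ch (x0, fr), gu β w)) (t : ℕ) :
    ∀ k, k + t = r →
      ((∀ i, k ≤ i → i < r → Rec C r base bval m chk ch (K * sz x0 + K)
          (ch ((cur K ch (x0, fr), gu β w), un i))) ∧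
        Go rcond (rstep C K r base bval m chk ch) (bd C r x0 fr n)
          (x0, ((w, un k) :: fr, (false, true))) (x0, (fr, (false, true)))) ∨
      ((∃ i, i < r ∧ ¬ Rec C r base bval m chk ch (K * sz x0 + K)
          (ch ((cur K ch (x0, fr), gu β w), un i))) ∧
        ∃ c, c ≤ r ∧ Go rcond (rstep C K r base bval m chk ch) (bd C r x0 fr n)
          (x0, ((w, un k) :: fr, (false, true))) (x0, ((w, un c) :: fr, (false, false)))) := by
  induction t with
  | zero =>
    intro k hk
    left
    refine ⟨fun i h1 h2 => by omega, Go.one (by simp [rcond])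
      (sz_le_bd_cons hw (by omega) hpos) ?_⟩
    have : r ≤ k := by omega
    simp [rstep, this]
  | succ t iht =>
    intro k hk
    set z := cur K ch (x0, fr) with hz
    have hkr : k < r := by omega
    have s1 : Go rcond (rstep C K r base bval m chk ch) (bd C r x0 fr n)
        (x0, ((w, un k) :: fr, (false, true)))
        (x0, ((w, un (k + 1)) :: fr, (true, false))) := by
      refine Go.one (by simp [rcond]) (sz_le_bd_cons hw (by omega) hpos) ?_
      have : ¬ r ≤ k := by omega
      simp [rstep, this, List.replicate_succ]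
    have hcur : cur K ch (x0, (w, un (k + 1)) :: fr) = ch ((z, gu β w), un k) := by
      rw [cur_cons, ← hz]
      exact gstep_eq (b := true) (i := un k) (hok.2 k hkr).1
    have hlt : 10 * (m (ch ((z, gu β w), un k))).length ≤ 9 * n := by
      have := (hok.2 k hkr).2
      rwa [hn] at this
    obtain ⟨v, hv, hgo⟩ := ih ((w, un (k + 1)) :: fr) (by rw [hcur]; omega) false
    rw [hcur] at hv hgo
    have s2 := s1.trans (hgo.mono (bd_cons hw (by omega) hlt hpos))
    cases v with
    | false =>
      right
      refine ⟨⟨k, hkr, fun h => ?_⟩, k + 1, by omega, s2⟩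
      exact absurd (hv.2 h) (by simp)
    | true =>
      rcases iht (k + 1) (by omega) with ⟨h1, h2⟩ | ⟨h1, c, hc, h2⟩
      · left
        refine ⟨fun i hi1 hi2 => ?_, s2.trans h2⟩
        rcases Nat.eq_or_lt_of_le hi1 with h | h
        · rw [← h]; exact hv.1 rfl
        · exact h1 i (by omega) hi2
      · right
        exact ⟨h1, c, hc, s2.trans h2⟩

theorem rec_guess {n : ℕ} {x0 : α}
    (ih : ∀ fr, (m (cur K ch (x0, fr))).length < n → ∀ b, ∃ v,
      (v = true ↔ Rec C r base bval m chk ch (K * sz x0 + K) (cur K ch (x0, fr))) ∧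
      Go rcond (rstep C K r base bval m chk ch)
        (bd C r x0 fr (m (cur K ch (x0, fr))).length)
        (x0, (fr, (true, b))) (x0, (fr, (false, v))))
    (fr : List (List Bool × List Bool)) (hn : (m (cur K ch (x0, fr))).length = n)
    (hpos : 1 ≤ n) (s : ℕ) : ∀ i, i < 2 ^ (C * n + C + 1) →
      2 ^ (C * n + C + 1) - 1 - i = s → ∀ c, c ≤ r →
      ∃ v, (v = true ↔ ∃ j, i < j ∧ j < 2 ^ (C * n + C + 1) ∧
          okB r m chk ch (K * sz x0 + K) (cur K ch (x0, fr), gu β (bits (C * n + C + 1) j)) ∧
          ∀ l, l < r → Rec C r base bval m chk ch (K * sz x0 + K)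
            (ch ((cur K ch (x0, fr), gu β (bits (C * n + C + 1) j)), un l))) ∧
        Go rcond (rstep C K r base bval m chk ch) (bd C r x0 fr n)
          (x0, ((bits (C * n + C + 1) i, un c) :: fr, (false, false)))
          (x0, (fr, (false, v))) := by
  set N := C * n + C + 1 with hN
  set z := cur K ch (x0, fr) with hz
  induction s with
  | zero =>
    intro i hi hr c hc
    refine ⟨false, ?_, Go.one (by simp [rcond]) (sz_le_bd_cons (bits_length _ _) hc hpos) ?_⟩
    · simp only [Bool.false_eq_true, false_iff, not_exists, not_and]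
      intro j h1 h2
      omega
    · have h1 : (bits N i).all id = true := (bits_all N i hi).2 (by omega)
      simp [rstep, h1]
  | succ s ihr =>
    intro i hi hr c hc
    have h1 : ¬ (bits N i).all id = true := by
      rw [bits_all N i hi]; omega
    have h2 : incr (bits N i) = bits N (i + 1) := incr_bits N i
    have hskip : ∀ v, (v = true ↔ ∃ j, i + 1 < j ∧ j < 2 ^ N ∧
          okB r m chk ch (K * sz x0 + K) (z, gu β (bits N j)) ∧
          ∀ l, l < r → Rec C r base bval m chk ch (K * sz x0 + K)
            (ch ((z, gu β (bits N j)), un l))) →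
        ¬ (okB r m chk ch (K * sz x0 + K) (z, gu β (bits N (i + 1))) ∧
          ∀ l, l < r → Rec C r base bval m chk ch (K * sz x0 + K)
            (ch ((z, gu β (bits N (i + 1))), un l))) →
        (v = true ↔ ∃ j, i < j ∧ j < 2 ^ N ∧
          okB r m chk ch (K * sz x0 + K) (z, gu β (bits N j)) ∧
          ∀ l, l < r → Rec C r base bval m chk ch (K * sz x0 + K)
            (ch ((z, gu β (bits N j)), un l))) := by
      intro v hv hno
      rw [hv]
      constructor
      · rintro ⟨j, a, b⟩
        exact ⟨j, by omega, b⟩
      · rintro ⟨j, a, b, e⟩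
        rcases Nat.lt_or_ge (i + 1) j with h | h
        · exact ⟨j, h, b, e⟩
        · have : j = i + 1 := by omega
          subst this
          exact absurd e hno
    by_cases hc' : okF K r m chk ch (x0, (z, gu β (bits N (i + 1)))) = true
    · have hok := okF_iff.1 hc'
      have s1 : Go rcond (rstep C K r base bval m chk ch) (bd C r x0 fr n)
          (x0, ((bits N i, un c) :: fr, (false, false)))
          (x0, ((bits N (i + 1), un 0) :: fr, (false, true))) := by
        refine Go.one (by simp [rcond]) (sz_le_bd_cons (bits_length _ _) hc hpos) ?_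
        simp only [rstep, List.headD_cons, Bool.false_eq_true, if_false, h1, h2,
          List.tail_cons, ← hz, hc', if_true, List.replicate_zero]
      rcases rec_sub (base := base) (bval := bval) ih fr hn hpos (bits_length _ _) hok r 0
        (by omega) with ⟨h3, h4⟩ | ⟨⟨l, hl1, hl2⟩, c', hc1, h4⟩
      · refine ⟨true, ?_, s1.trans h4⟩
        simp only [true_iff]
        exact ⟨i + 1, by omega, by omega, hok, fun l hl => h3 l (by omega) hl⟩
      · obtain ⟨v, hv, hgo⟩ := ihr (i + 1) (by omega) (by omega) c' hc1
        refine ⟨v, hskip v hv ?_, (s1.trans h4).trans hgo⟩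
        rintro ⟨_, h5⟩
        exact hl2 (h5 l hl1)
    · have s1 : Go rcond (rstep C K r base bval m chk ch) (bd C r x0 fr n)
          (x0, ((bits N i, un c) :: fr, (false, false)))
          (x0, ((bits N (i + 1), un 0) :: fr, (false, false))) := by
        refine Go.one (by simp [rcond]) (sz_le_bd_cons (bits_length _ _) hc hpos) ?_
        simp only [rstep, List.headD_cons, Bool.false_eq_true, if_false, h1, h2,
          List.tail_cons, ← hz, hc', List.replicate_zero]
      obtain ⟨v, hv, hgo⟩ := ihr (i + 1) (by omega) (by omega) 0 (by omega)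
      refine ⟨v, hskip v hv ?_, s1.trans hgo⟩
      rintro ⟨h4, _⟩
      exact hc' (okF_iff.2 h4)

theorem rec_main (hpos : ∀ x, base x = false → 1 ≤ (m x).length) (x0 : α) (n : ℕ) :
    ∀ fr, (m (cur K ch (x0, fr))).length < n → ∀ b, ∃ v,
      (v = true ↔ Rec C r base bval m chk ch (K * sz x0 + K) (cur K ch (x0, fr))) ∧
      Go rcond (rstep C K r base bval m chk ch)
        (bd C r x0 fr (m (cur K ch (x0, fr))).length)
        (x0, (fr, (true, b))) (x0, (fr, (false, v))) := by
  induction n with
  | zero => intro fr h; omega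
  | succ n ih =>
    intro fr hn b
    set z := cur K ch (x0, fr) with hz
    rcases Bool.eq_false_or_eq_true (base z) with hb | hb
    · refine ⟨bval z, ?_, Go.one (by simp [rcond]) sz_le_bd ?_⟩
      · constructor
        · intro h; exact .base hb h
        · intro h
          cases h with
          | base _ h => exact h
          | node h => rw [hb] at h; simp at h
      · simp [rstep, ← hz, hb]
    · have hp := hpos z hb
      have s1 : Go rcond (rstep C K r base bval m chk ch) (bd C r x0 fr (m z).length)
          (x0, (fr, (true, b)))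
          (x0, ((bits (C * (m z).length + C + 1) 0, un 0) :: fr, (false, false))) := by
        refine Go.one (by simp [rcond]) sz_le_bd ?_
        simp only [rstep, if_true, ← hz, hb, Bool.false_eq_true, if_false, zm_eq,
          List.replicate_zero]
      obtain ⟨v, hv, hgo⟩ := rec_guess (C := C) (base := base) (bval := bval) (chk := chk)
        (n := (m z).length) (x0 := x0) (fun fr' hfr' b' => ih fr' (by omega) b') fr rfl hp _ 0
        (Nat.two_pow_pos _) rfl 0 (by omega)
      refine ⟨v, ?_, s1.trans hgo⟩
      rw [hv]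
      constructor
      · rintro ⟨j, h1, h2, h3, h4⟩
        exact .node hb h1 h2 h3 h4
      · intro h
        cases h with
        | base h => rw [hb] at h; simp at h
        | node _ h1 h2 h3 h4 => exact ⟨_, h1, h2, h3, h4⟩

/-- The recursive algorithm runs in linear space. -/
theorem lin_rec (hb : Lin base) (hv : Lin bval) (hm : Lin m) (hc : Lin chk)
    (hs : Lin ch) (hpos : ∀ x, base x = false → 1 ≤ (m x).length) {x0 : ω → α} (hx0 : Lin x0)
    {f : ω → Bool}
    (hf : ∀ w, f w = true ↔ Rec C r base bval m chk ch (K * sz (x0 w) + K) (x0 w)) :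
    Lin f := by
  obtain ⟨g3, hg3, Hg3⟩ := hm.size
  obtain ⟨g4, hg4, Hg4⟩ := hx0.size
  have key : Lin (fun w => ((x0 w, (([] : List (List Bool × List Bool)), (false, f w))) :
      Sr α)) := by
    refine Lin.while (init := fun w => (x0 w, (([] : List (List Bool × List Bool)),
      (true, false))))
      (cond := rcond) (step := rstep C K r base bval m chk ch)
      (hx0.pair ((Lin.const _).pair (Lin.const _)))
      ((Lin.fst.comp (Lin.snd.comp Lin.snd)).or (Lin.isEmpty (Lin.fst.comp Lin.snd)).not)
      (lin_rstep hb hv hm hc hs)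
      (g := fun n => g4 n + 1 + (4 * C + 4 * r + 20) * (20 * g3 (g4 n) + 2) + 9)
      (((hg4.add (LB.const 1)).add ((((hg3.comp hg4).smul 20).add (LB.const 2)).smul _)).add
        (LB.const 9)) fun w => ?_
    have hcur : cur K ch (x0 w, []) = x0 w := rfl
    obtain ⟨v, hv, n, hn, H⟩ := rec_main (C := C) (K := K) (r := r) (bval := bval) (chk := chk)
      (ch := ch) hpos (x0 w) ((m (x0 w)).length + 1) [] (by rw [hcur]; omega) false
    rw [hcur] at hv H
    have hvf : v = f w := by
      rw [Bool.eq_iff_iff, hv, hf]
    have hB : bd C r (x0 w) [] (m (x0 w)).length ≤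
        g4 (sz w) + 1 + (4 * C + 4 * r + 20) * (20 * g3 (g4 (sz w)) + 2) := by
      have h1 := length_le_sz (m (x0 w))
      have h2 := Hg3 (x0 w)
      have h3 := hg3.1 (Hg4 w)
      have h4 := Hg4 w
      have h5 : (4 * C + 4 * r + 20) * (20 * (m (x0 w)).length + 2) ≤
        (4 * C + 4 * r + 20) * (20 * g3 (g4 (sz w)) + 2) :=
          Nat.mul_le_mul_left _ (by omega)
      rw [bd, sz_nil]
      omega
    refine ⟨n, fun i hi => (H i hi).1, ?_, fun i hi => ?_, ?_⟩
    · rw [hn]; simp [rcond]
    · rcases Nat.lt_or_ge i n with h | h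
      · exact (H i h).2.trans (by omega)
      · have : i = n := by omega
        subst this
        rw [hn]
        have h1 := sz_sr (x0 w) ([] : List (List Bool × List Bool)) false v
        have h2 := Hg4 w
        rw [sz_nil] at h1
        omega
    · rw [hn, hvf]
  exact Lin.snd.comp (Lin.snd.comp (Lin.snd.comp key))

end Recall

/-- Search for a word of linearly bounded length. -/
theorem lin_exists {B : Type} [Finite B] [Enc B] [Rd B] {g : ω × List B → Bool} (hg : Lin g)
    (K : ℕ) {f : ω → Bool}
    (hf : ∀ x, f x = true ↔ ∃ s : List B, s.length ≤ K * sz x + K ∧ g (x, s) = true) :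
    Lin f := by
  obtain ⟨D, hD⟩ := exists_sz_le' B
  refine lin_rec (α := ω) (β := List B) (C := (D + 1) * K + 1) (K := 0) (r := 0)
    (base := fun _ => false) (bval := fun _ => false)
    (m := fun x => List.replicate (sz x) false)
    (chk := fun p => decide (p.2.length ≤
      (rep K (List.replicate (sz p.1) false) ++ List.replicate K false).length) && g p)
    (ch := fun p => p.1.1) (Lin.const _) (Lin.const _) Lin.unary ?_ (Lin.fst.comp Lin.fst)
    (fun x _ => ?_) (x0 := fun x => x) Lin.id fun x => ?_
  · exact (Lin.lenLe Lin.snd ((Lin.rep (Lin.unary.comp Lin.fst) K).append (Lin.const _))).and hg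
  · rw [List.length_replicate]; exact sz_pos x
  · rw [hf]
    constructor
    · rintro ⟨s, h1, h2⟩
      refine Rec.guess (y := s) rfl ?_ ⟨?_, fun i hi => by omega⟩ fun i hi => by omega
      · rw [List.length_replicate]
        have h3 := sz_list_le' (D := D) s fun a _ => hD a
        have h4 : (D + 1) * s.length ≤ (D + 1) * (K * sz x + K) := Nat.mul_le_mul_left _ h1
        have e : (D + 1) * (K * sz x + K) = (D + 1) * K * sz x + (D + 1) * K := by ring
        have e' : ((D + 1) * K + 1) * sz x = (D + 1) * K * sz x + sz x := by ring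
        omega
      · simp only [Bool.and_eq_true, decide_eq_true_eq, List.length_append, rep_length,
          List.length_replicate]
        exact ⟨h1, h2⟩
    · intro h
      cases h with
      | base h => simp at h
      | node _ _ _ h4 _ =>
        have h5 := h4.1
        simp only [Bool.and_eq_true, decide_eq_true_eq, List.length_append, rep_length,
          List.length_replicate] at h5
        exact ⟨_, h5.1, h5.2⟩

end Pool.Agent.Lib.LinSpace.RecN
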