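import Pool.Agent.Lib.LinSpace.Lists

/-!
Recursive nondeterministic algorithms whose instances shrink geometrically are computed in
linear space.
-/

set_option autoImplicit false
set_option linter.unusedSimpArgs false

namespace Pool.Agent.Lib.LinSpace

variable {α β γ σ δ ω : Type} [Enc α] [Enc β] [Enc γ] [Enc σ] [Enc δ] [Enc ω]

/-! ### Bounded runs of a step function -/

/-- `step` leads from `s` to `t` through states of size at most `B` satisfying `cond`. -/
def Go (cond : σ → Bool) (step : σ → σ) (B : ℕ) (s t : σ) : Prop :=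
  ∃ n, step^[n] s = t ∧ ∀ i < n, cond (step^[i] s) = true ∧ sz (step^[i] s) ≤ B

theorem Go.refl {cond : σ → Bool} {step : σ → σ} {B : ℕ} (s : σ) : Go cond step B s s :=
  ⟨0, rfl, by simp⟩

theorem Go.one {cond : σ → Bool} {step : σ → σ} {B : ℕ} {s t : σ} (h : cond s = true)
    (hB : sz s ≤ B) (ht : step s = t) : Go cond step B s t :=
  ⟨1, ht, fun i hi => by
    have : i = 0 := by omega
    subst this
    exact ⟨h, hB⟩⟩

theorem Go.trans {cond : σ → Bool} {step : σ → σ} {B : ℕ} {s t u : σ}
    (h1 : Go cond step B s t) (h2 : Go cond step B t u) : Go cond step B s u := by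
  obtain ⟨n, hn, H⟩ := h1
  obtain ⟨k, hk, H'⟩ := h2
  refine ⟨k + n, by rw [Function.iterate_add_apply, hn, hk], fun i hi => ?_⟩
  rcases Nat.lt_or_ge i n with h | h
  · exact H i h
  · obtain ⟨j, rfl⟩ := Nat.exists_eq_add_of_le' h
    rw [Function.iterate_add_apply, hn]
    exact H' j (by omega)

theorem Go.mono {cond : σ → Bool} {step : σ → σ} {B B' : ℕ} {s t : σ}
    (h : Go cond step B s t) (hB : B ≤ B') : Go cond step B' s t := by
  obtain ⟨n, hn, H⟩ := h
  exact ⟨n, hn, fun i hi => ⟨(H i hi).1, (H i hi).2.trans hB⟩⟩

/-! ### Depth first search -/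

/-- States of the search: a stack of frames (instance, current guess, pending instances) and
either an instance to be evaluated or a value to be returned. -/
abbrev Sg (α : Type) := List (α × (List Bool × List α)) × (List α × Bool)

/-- The first guess. -/
def zw (C : ℕ) (x : α) : List Bool :=
  rep C (List.replicate (sz x) false) ++ List.replicate (C + 1) false

theorem rep_replicate {γ : Type} (n k : ℕ) (a : γ) :
    rep n (List.replicate k a) = List.replicate (n * k) a := by
  induction n with
  | zero => simp [rep]
  | succ n ih =>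
    rw [rep, ih, List.replicate_append_replicate]
    congr 1
    rw [Nat.add_mul]; omega

theorem zw_eq (C : ℕ) (x : α) : zw C x = bits (C * sz x + C + 1) 0 := by
  rw [zw, rep_replicate, List.replicate_append_replicate, bits_zero, Nat.add_assoc]

theorem Lin.zw (C : ℕ) : Lin (zw C : α → List Bool) :=
  (Lin.rep Lin.unary C).append (Lin.const _)

/-- All tests for a guess. -/
def chkF (good : α → Bool) (m : α → List Bool) (chk : α × β → Bool) (subs : α × β → List α)
    (p : α × β) : Bool :=
  chk p && (subs p).all fun z => good z && decide ((rep 10 (m z)).length ≤ (rep 9 (m p.1)).length)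

/-- One step of the search. -/
noncomputable def dstep [Rd β] (C : ℕ) (d : α) (good base bval : α → Bool) (m : α → List Bool)
    (chk : α × β → Bool) (subs : α × β → List α) (s : Sg α) : Sg α :=
  let f := s.1.headD (d, ([], []))
  let z := s.2.1.headD d
  if s.2.1.isEmpty then
    if s.2.2 then
      if f.2.2.isEmpty then (s.1.tail, ([], true))
      else ((f.1, (f.2.1, f.2.2.tail)) :: s.1.tail, ([f.2.2.headD d], true))
    else
      if f.2.1.all id then (s.1.tail, ([], false))
      else
        if chkF good m chk subs (f.1, (Rd.rd (parse (incr f.2.1)) : β)) then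
          ((f.1, (incr f.2.1, subs (f.1, (Rd.rd (parse (incr f.2.1)) : β)))) :: s.1.tail,
            ([], true))
        else ((f.1, (incr f.2.1, [])) :: s.1.tail, ([], false))
  else
    if base z then (s.1, ([], bval z)) else ((z, (zw C z, [])) :: s.1, ([], false))

theorem lin_chkF {good : α → Bool} {m : α → List Bool} {chk : α × β → Bool}
    {subs : α × β → List α} (hg : Lin good) (hm : Lin m) (hc : Lin chk) (hs : Lin subs) :
    Lin (chkF good m chk subs) := by
  refine hc.and (Lin.allP (p := fun y : (α × β) × α =>
    good y.2 && decide ((rep 10 (m y.2)).length ≤ (rep 9 (m y.1.1)).length)) hs ?_)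
  exact (hg.comp Lin.snd).and (Lin.lenLe (Lin.rep (hm.comp Lin.snd) 10)
    (Lin.rep (hm.comp (Lin.fst.comp Lin.fst)) 9))

theorem lin_dstep [Rd β] {C : ℕ} {d : α} {good base bval : α → Bool} {m : α → List Bool}
    {chk : α × β → Bool} {subs : α × β → List α} (hg : Lin good) (hb : Lin base)
    (hv : Lin bval) (hm : Lin m) (hc : Lin chk) (hs : Lin subs) :
    Lin (dstep C d good base bval m chk subs) := by
  have hf : Lin (fun s : Sg α => s.1.headD (d, ([], []))) := Lin.headD Lin.fst _
  have hz : Lin (fun s : Sg α => s.2.1.headD d) := Lin.headD (Lin.fst.comp Lin.snd) _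
  have hf1 : Lin (fun s : Sg α => (s.1.headD (d, ([], []))).1) := Lin.fst.comp hf
  have hf21 : Lin (fun s : Sg α => (s.1.headD (d, ([], []))).2.1) :=
    Lin.fst.comp (Lin.snd.comp hf)
  have hf22 : Lin (fun s : Sg α => (s.1.headD (d, ([], []))).2.2) :=
    Lin.snd.comp (Lin.snd.comp hf)
  have ht : Lin (fun s : Sg α => s.1.tail) := Lin.tail Lin.fst
  have hinc : Lin (fun s : Sg α => incr (s.1.headD (d, ([], []))).2.1) := Lin.incr hf21
  have hp : Lin (fun s : Sg α => ((s.1.headD (d, ([], []))).1,
      (Rd.rd (parse (incr (s.1.headD (d, ([], []))).2.1)) : β))) :=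
    hf1.pair (Rd.lin.comp (Lin.parse hinc))
  have hnil : Lin (fun _ : Sg α => ([] : List α)) := Lin.const []
  refine (Lin.isEmpty (Lin.fst.comp Lin.snd)).ite ((Lin.snd.comp Lin.snd).ite
    ((Lin.isEmpty hf22).ite (ht.pair (Lin.const _)) (((hf1.pair (hf21.pair hf22.tail)).cons
      ht).pair (((hf22.headD d).cons hnil).pair (Lin.const true))))
    ((Lin.all hf21).ite (ht.pair (Lin.const _)) (((lin_chkF hg hm hc hs).comp hp).ite
      (((hf1.pair (hinc.pair (hs.comp hp))).cons ht).pair (Lin.const _))
      (((hf1.pair (hinc.pair hnil)).cons ht).pair (Lin.const _)))))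
    ((hb.comp hz).ite (Lin.fst.pair (hnil.pair (hv.comp hz)))
      (((hz.pair (((Lin.zw C).comp hz).pair hnil)).cons Lin.fst).pair (Lin.const _)))

section Correct

variable [Rd β] {C : ℕ} {d : α} {good base bval : α → Bool} {m : α → List Bool}
  {chk : α × β → Bool} {subs : α × β → List α}

/-- The condition of the main loop. -/
def dcond (s : Sg α) : Bool := !(s.2.1.isEmpty && s.1.isEmpty)

theorem sz_state_nil (fr : List (α × (List Bool × List α))) (b : Bool) :
    sz ((fr, (([] : List α), b)) : Sg α) ≤ sz fr + 6 := by
  rw [sz_pair, sz_pair, sz_nil]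
  have := sz_bool b
  omega

theorem sz_state_call (fr : List (α × (List Bool × List α))) (z : α) (b : Bool) :
    sz ((fr, ([z], b)) : Sg α) ≤ sz fr + sz z + 8 := by
  rw [sz_pair, sz_pair, sz_cons, sz_nil]
  have := sz_bool b
  omega

theorem shrink_list {F : α → Prop} {K : ℕ}
    (hK : ∀ x, good x = true → ∀ w l, w.length = C * sz x + C + 1 →
      l <:+ subs (x, (Rd.rd (parse w) : β)) → sz (x, (w, l)) + 10 ≤ K * ((m x).length + 1))
    (n : ℕ)
    (ih : ∀ z, good z = true → (m z).length < n → ∀ fr b,
      ∃ v, (v = true ↔ F z) ∧ Go dcond (dstep C d good base bval m chk subs)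
        (sz fr + K * (20 * (m z).length + 2)) (fr, ([z], b)) (fr, ([], v)))
    (x : α) (hx : good x = true) (hn : (m x).length = n) (hpos : 1 ≤ (m x).length)
    (w : List Bool) (hw : w.length = C * sz x + C + 1) (fr : List (α × (List Bool × List α))) :
    ∀ l : List α, l <:+ subs (x, (Rd.rd (parse w) : β)) →
      (∀ z ∈ l, good z = true ∧ 10 * (m z).length ≤ 9 * (m x).length) →
      ((∀ z ∈ l, F z) ∧ Go dcond (dstep C d good base bval m chk subs)
        (sz fr + K * (20 * (m x).length + 2)) ((x, (w, l)) :: fr, ([], true)) (fr, ([], true))) ∨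
      (¬ (∀ z ∈ l, F z) ∧ ∃ l', l' <:+ subs (x, (Rd.rd (parse w) : β)) ∧
        Go dcond (dstep C d good base bval m chk subs)
        (sz fr + K * (20 * (m x).length + 2)) ((x, (w, l)) :: fr, ([], true))
          ((x, (w, l')) :: fr, ([], false))) := by
  intro l
  induction l with
  | nil =>
    intro hl _
    left
    refine ⟨by simp, Go.one ?_ ?_ ?_⟩
    · simp [dcond]
    · have h1 := sz_state_nil ((x, (w, ([] : List α))) :: fr) true
      have h2 := hK x hx w [] hw hl
      rw [sz_cons] at h1
      have : K * ((m x).length + 1) ≤ K * (20 * (m x).length + 2) :=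
        Nat.mul_le_mul_left _ (by omega)
      omega
    · simp [dstep]
  | cons z l ihl =>
    intro hl hz
    have hl2 : l <:+ subs (x, (Rd.rd (parse w) : β)) := (List.suffix_cons z l).trans hl
    obtain ⟨g1, g2⟩ := hz z (List.mem_cons_self ..)
    obtain ⟨v, hv, hgo⟩ := ih z g1 (by omega) ((x, (w, l)) :: fr) true
    have h1 := hK x hx w (z :: l) hw hl
    have h2 := hK x hx w l hw hl2
    have hKK : K * ((m x).length + 1) + K * (20 * (m z).length + 2) ≤
        K * (20 * (m x).length + 2) := by
      rw [← Nat.mul_add]
      exact Nat.mul_le_mul_left _ (by omega)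
    have s1 : Go dcond (dstep C d good base bval m chk subs)
        (sz fr + K * (20 * (m x).length + 2)) ((x, (w, z :: l)) :: fr, ([], true))
        ((x, (w, l)) :: fr, ([z], true)) := by
      refine Go.one (by simp [dcond]) ?_ (by simp [dstep])
      have h3 := sz_state_nil ((x, (w, z :: l)) :: fr) true
      rw [sz_cons] at h3
      omega
    have s2 := s1.trans (hgo.mono (B' := sz fr + K * (20 * (m x).length + 2)) (by
      rw [sz_cons]; omega))
    cases v with
    | false =>
      right
      refine ⟨fun h => ?_, l, hl2, s2⟩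
      have := hv.2 (h z (List.mem_cons_self ..))
      simp at this
    | true =>
      have hFz := hv.1 rfl
      rcases ihl hl2 (fun z' hz' => hz z' (List.mem_cons_of_mem _ hz')) with ⟨h3, h4⟩ | ⟨h3, l', h4, h5⟩
      · left
        refine ⟨?_, s2.trans h4⟩
        intro z' hz'
        rcases List.mem_cons.1 hz' with h | h
        · subst h; exact hFz
        · exact h3 z' h
      · right
        exact ⟨fun h => h3 fun z' hz' => h z' (List.mem_cons_of_mem _ hz'), l', h4, s2.trans h5⟩

omit [Enc α] [Enc β] [Rd β] in
theorem chkF_iff {p : α × β} : chkF good m chk subs p = true ↔ chk p = true ∧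
    ∀ z ∈ subs p, good z = true ∧ 10 * (m z).length ≤ 9 * (m p.1).length := by
  simp only [chkF, Bool.and_eq_true, List.all_eq_true, decide_eq_true_eq, rep_length]

theorem shrink_guess {F : α → Prop} {K : ℕ}
    (hK : ∀ x, good x = true → ∀ w l, w.length = C * sz x + C + 1 →
      l <:+ subs (x, (Rd.rd (parse w) : β)) → sz (x, (w, l)) + 10 ≤ K * ((m x).length + 1))
    (n : ℕ)
    (ih : ∀ z, good z = true → (m z).length < n → ∀ fr b,
      ∃ v, (v = true ↔ F z) ∧ Go dcond (dstep C d good base bval m chk subs)
        (sz fr + K * (20 * (m z).length + 2)) (fr, ([z], b)) (fr, ([], v)))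
    (x : α) (hx : good x = true) (hn : (m x).length = n) (hpos : 1 ≤ (m x).length)
    (fr : List (α × (List Bool × List α))) (r : ℕ) :
    ∀ i, i < 2 ^ (C * sz x + C + 1) → 2 ^ (C * sz x + C + 1) - 1 - i = r →
      ∀ l, l <:+ subs (x, (Rd.rd (parse (bits (C * sz x + C + 1) i)) : β)) →
      ∃ v, (v = true ↔ ∃ j, i < j ∧ j < 2 ^ (C * sz x + C + 1) ∧
          chkF good m chk subs (x, (Rd.rd (parse (bits (C * sz x + C + 1) j)) : β)) = true ∧
          ∀ z ∈ subs (x, (Rd.rd (parse (bits (C * sz x + C + 1) j)) : β)), F z) ∧
        Go dcond (dstep C d good base bval m chk subs)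
        (sz fr + K * (20 * (m x).length + 2))
          ((x, (bits (C * sz x + C + 1) i, l)) :: fr, ([], false)) (fr, ([], v)) := by
  set N := C * sz x + C + 1 with hN
  have hsz : ∀ (j : ℕ) (l : List α), l <:+ subs (x, (Rd.rd (parse (bits N j)) : β)) → ∀ b,
      sz ((((x, (bits N j, l)) :: fr, ([], b))) : Sg α) ≤ sz fr + K * (20 * (m x).length + 2) := by
    intro j l hl b
    have h1 := sz_state_nil ((x, (bits N j, l)) :: fr) b
    have h2 := hK x hx (bits N j) l (bits_length _ _) hl
    rw [sz_cons] at h1
    have : K * ((m x).length + 1) ≤ K * (20 * (m x).length + 2) :=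
      Nat.mul_le_mul_left _ (by omega)
    omega
  induction r with
  | zero =>
    intro i hi hr l hl
    refine ⟨false, ?_, Go.one (by simp [dcond]) (hsz i l hl false) ?_⟩
    · simp only [Bool.false_eq_true, false_iff, not_exists, not_and]
      intro j h1 h2
      omega
    · have h1 : (bits N i).all id = true := (bits_all N i hi).2 (by omega)
      simp [dstep, h1]
  | succ r ihr =>
    intro i hi hr l hl
    have h1 : ¬ (bits N i).all id = true := by
      rw [bits_all N i hi]; omega
    have h2 : incr (bits N i) = bits N (i + 1) := incr_bits N i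
    by_cases hc : chkF good m chk subs (x, (Rd.rd (parse (bits N (i + 1))) : β)) = true
    · have s1 : Go dcond (dstep C d good base bval m chk subs)
          (sz fr + K * (20 * (m x).length + 2))
          ((x, (bits N i, l)) :: fr, ([], false))
          ((x, (bits N (i + 1), subs (x, (Rd.rd (parse (bits N (i + 1))) : β)))) :: fr,
            ([], true)) := by
        refine Go.one (by simp [dcond]) (hsz i l hl false) ?_
        simp only [dstep, List.isEmpty_nil, if_true, List.headD_cons, Bool.false_eq_true,
          if_false, h1, h2, hc, List.tail_cons]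
      have hc' := chkF_iff.1 hc
      rcases shrink_list (d := d) (base := base) (bval := bval) (chk := chk) hK n ih x hx hn hpos
        (bits N (i + 1)) (bits_length _ _) fr _
        (List.suffix_refl _) hc'.2 with ⟨h3, h4⟩ | ⟨h3, l', h4, h5⟩
      · refine ⟨true, ?_, s1.trans h4⟩
        simp only [true_iff]
        exact ⟨i + 1, by omega, by omega, hc, h3⟩
      · obtain ⟨v, hv, hgo⟩ := ihr (i + 1) (by omega) (by omega) l' h4
        refine ⟨v, ?_, s1.trans (h5.trans hgo)⟩
        rw [hv]
        constructor
        · rintro ⟨j, a, b, c⟩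
          exact ⟨j, by omega, b, c⟩
        · rintro ⟨j, a, b, c⟩
          rcases Nat.lt_or_ge (i + 1) j with h | h
          · exact ⟨j, h, b, c⟩
          · have : j = i + 1 := by omega
            subst this
            exact absurd c.2 h3
    · have s1 : Go dcond (dstep C d good base bval m chk subs)
          (sz fr + K * (20 * (m x).length + 2))
          ((x, (bits N i, l)) :: fr, ([], false))
          ((x, (bits N (i + 1), [])) :: fr, ([], false)) := by
        refine Go.one (by simp [dcond]) (hsz i l hl false) ?_
        simp only [dstep, List.isEmpty_nil, if_true, List.headD_cons, Bool.false_eq_true,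
          if_false, h1, h2, hc, List.tail_cons]
      obtain ⟨v, hv, hgo⟩ := ihr (i + 1) (by omega) (by omega) [] (List.nil_suffix)
      refine ⟨v, ?_, s1.trans hgo⟩
      rw [hv]
      constructor
      · rintro ⟨j, a, b, c⟩
        exact ⟨j, by omega, b, c⟩
      · rintro ⟨j, a, b, c⟩
        rcases Nat.lt_or_ge (i + 1) j with h | h
        · exact ⟨j, h, b, c⟩
        · have : j = i + 1 := by omega
          subst this
          exact absurd c.1 hc

theorem shrink_main {F : α → Prop} {K : ℕ}
    (hK : ∀ x, good x = true → ∀ w l, w.length = C * sz x + C + 1 →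
      l <:+ subs (x, (Rd.rd (parse w) : β)) → sz (x, (w, l)) + 10 ≤ K * ((m x).length + 1))
    (hbase : ∀ x, good x = true → base x = true → (bval x = true ↔ F x))
    (hpos : ∀ x, good x = true → base x = false → 1 ≤ (m x).length)
    (hsound : ∀ x, good x = true → base x = false → ∀ y, chk (x, y) = true →
      (∀ z ∈ subs (x, y), F z) → F x)
    (hcomp : ∀ x, good x = true → base x = false → F x → ∃ y : β, sz y ≤ C * sz x + C ∧
      chk (x, y) = true ∧ ∀ z ∈ subs (x, y), good z = true ∧
        10 * (m z).length ≤ 9 * (m x).length ∧ F z) (n : ℕ) :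
    ∀ z, good z = true → (m z).length < n → ∀ fr b,
      ∃ v, (v = true ↔ F z) ∧ Go dcond (dstep C d good base bval m chk subs)
        (sz fr + K * (20 * (m z).length + 2)) (fr, ([z], b)) (fr, ([], v)) := by
  induction n with
  | zero => intro z _ h; omega
  | succ n ih =>
    intro z hz hn fr b
    have hcall : sz ((fr, ([z], b)) : Sg α) ≤ sz fr + K * (20 * (m z).length + 2) := by
      have h1 := sz_state_call fr z b
      have h2 := hK z hz (bits (C * sz z + C + 1) 0) [] (bits_length _ _) List.nil_suffix
      have h3 : K * ((m z).length + 1) ≤ K * (20 * (m z).length + 2) :=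
        Nat.mul_le_mul_left _ (by omega)
      rw [sz_pair] at h2
      have := sz_pos (bits (C * sz z + C + 1) 0, ([] : List α))
      omega
    rcases Bool.eq_false_or_eq_true (base z) with hb | hb
    · refine ⟨bval z, hbase z hz hb, Go.one (by simp [dcond]) hcall ?_⟩
      simp [dstep, hb]
    · have hp := hpos z hz hb
      have s1 : Go dcond (dstep C d good base bval m chk subs)
          (sz fr + K * (20 * (m z).length + 2)) (fr, ([z], b))
          ((z, (bits (C * sz z + C + 1) 0, [])) :: fr, ([], false)) := by
        refine Go.one (by simp [dcond]) hcall ?_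
        simp [dstep, hb, zw_eq]
      obtain ⟨v, hv, hgo⟩ := shrink_guess (d := d) (base := base) (bval := bval) (chk := chk)
        (F := F) hK (m z).length
        (fun z' hz' hn' fr' b' => ih z' hz' (by omega) fr' b') z hz rfl hp fr _ 0
        (Nat.two_pow_pos _) rfl [] List.nil_suffix
      refine ⟨v, ?_, s1.trans hgo⟩
      rw [hv]
      constructor
      · rintro ⟨j, _, _, h1, h2⟩
        exact hsound z hz hb _ (chkF_iff.1 h1).1 h2
      · intro hF
        obtain ⟨y, hy, hc, hsub⟩ := hcomp z hz hb hF
        set N := C * sz z + C + 1 with hN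
        have hlen : (word y ++ List.replicate (N - sz y) true).length = N := by
          rw [List.length_append, List.length_replicate]
          have : (word y).length = sz y := rfl
          omega
        obtain ⟨j, hj, hw⟩ := exists_bits (word y ++ List.replicate (N - sz y) true)
        rw [hlen] at hj hw
        have hparse : (Rd.rd (parse (bits N j)) : β) = y := by
          rw [hw, word, parse_code, Rd.rd_enc]
        refine ⟨j, ?_, hj, ?_, ?_⟩
        · rcases Nat.eq_zero_or_pos j with h | h
          · exfalso
            rw [h, bits_zero] at hw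
            have h1 : true ∈ word y ++ List.replicate (N - sz y) true := by
              rw [List.mem_append, List.mem_replicate]
              right
              exact ⟨by omega, rfl⟩
            rw [← hw, List.mem_replicate] at h1
            simp at h1
          · exact h
        · rw [hparse]
          exact chkF_iff.2 ⟨hc, fun z' hz' => ⟨(hsub z' hz').1, (hsub z' hz').2.1⟩⟩
        · rw [hparse]
          exact fun z' hz' => (hsub z' hz').2.2

/-- Recursive nondeterministic algorithms with geometrically shrinking instances run in linear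
space. -/
theorem lin_shrink {F : α → Prop} (hg : Lin good) (hb : Lin base)
    (hv : Lin bval) (hm : Lin m) (hc : Lin chk) (hs : Lin subs)
    (hsz : ∀ x, good x = true → sz x ≤ C * ((m x).length + 1))
    (hbase : ∀ x, good x = true → base x = true → (bval x = true ↔ F x))
    (hpos : ∀ x, good x = true → base x = false → 1 ≤ (m x).length)
    (hsound : ∀ x, good x = true → base x = false → ∀ y, chk (x, y) = true →
      (∀ z ∈ subs (x, y), F z) → F x)
    (hcomp : ∀ x, good x = true → base x = false → F x → ∃ y : β, sz y ≤ C * sz x + C ∧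
      chk (x, y) = true ∧ ∀ z ∈ subs (x, y), good z = true ∧
        10 * (m z).length ≤ 9 * (m x).length ∧ F z)
    {x0 : ω → α} (hx0 : Lin x0) (hgood : ∀ w, good (x0 w) = true) {f : ω → Bool}
    (hf : ∀ w, f w = true ↔ F (x0 w)) : Lin f := by
  rcases isEmpty_or_nonempty α with hα | ⟨⟨d⟩⟩
  · refine ⟨.skip, fun _ => 1, LB.const 1, fun w => (hα.false (x0 w)).elim⟩
  -- the bound for frames
  have hrp : Lin (fun w : List Bool => (Rd.rd (parse w) : β)) := Rd.lin.comp (Lin.parse Lin.id)
  obtain ⟨g1, hg1, Hg1⟩ := hrp.size
  obtain ⟨g2, hg2, Hg2⟩ := hs.size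
  obtain ⟨g3, hg3, Hg3⟩ := hm.size
  obtain ⟨g4, hg4, Hg4⟩ := hx0.size
  obtain ⟨K1, hK1⟩ : ∃ K1, ∀ n, n + (4 * (C * n + C + 1) + 1) +
      g2 (n + g1 (4 * (C * n + C + 1) + 1) + 1) + 12 ≤ K1 * n + K1 := by
    have h1 : LB fun n : ℕ => 4 * (C * n + C + 1) + 1 :=
      (((((LB.id.smul C).add (LB.const C)).add (LB.const 1)).smul 4).add (LB.const 1))
    have h2 : LB fun n : ℕ => n + (4 * (C * n + C + 1) + 1) +
        g2 (n + g1 (4 * (C * n + C + 1) + 1) + 1) + 12 :=
      ((LB.id.add h1).add (hg2.comp ((LB.id.add (hg1.comp h1)).add (LB.const 1)))).add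
        (LB.const 12)
    exact h2.2
  have hK : ∀ x, good x = true → ∀ w l, w.length = C * sz x + C + 1 →
      l <:+ subs (x, (Rd.rd (parse w) : β)) →
      sz (x, (w, l)) + 10 ≤ (K1 * C + K1) * ((m x).length + 1) := by
    intro x hx w l hw hl
    have e1 := sz_word_bool w
    rw [hw] at e1
    have e2 := Hg1 w
    have e3 := hg1.1 e1
    have e4 := Hg2 (x, (Rd.rd (parse w) : β))
    rw [sz_pair] at e4
    have e5 := hg2.1 (show sz x + sz (Rd.rd (parse w) : β) + 1 ≤
      sz x + g1 (4 * (C * sz x + C + 1) + 1) + 1 by omega)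
    have e6 := sz_suffix_le hl
    have e7 := hK1 (sz x)
    have e8 := hsz x hx
    have e9 : K1 * sz x + K1 ≤ (K1 * C + K1) * ((m x).length + 1) := by
      have : K1 * sz x ≤ K1 * (C * ((m x).length + 1)) := Nat.mul_le_mul_left _ e8
      rw [Nat.add_mul, Nat.mul_assoc]
      have : K1 ≤ K1 * ((m x).length + 1) := Nat.le_mul_of_pos_right _ (by omega)
      omega
    rw [sz_pair, sz_pair]
    omega
  have key : Lin (fun w => ((([] : List (α × (List Bool × List α))), (([] : List α), f w)) :
      Sg α)) := by
    refine Lin.while (init := fun w => (([] : List (α × (List Bool × List α))), ([x0 w], false)))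
      (cond := dcond) (step := dstep C d good base bval m chk subs)
      ((Lin.const _).pair ((hx0.cons (Lin.const _)).pair (Lin.const _)))
      ((((Lin.isEmpty (Lin.fst.comp Lin.snd)).and (Lin.isEmpty Lin.fst))).not)
      (lin_dstep hg hb hv hm hc hs)
      (g := fun n => 1 + (K1 * C + K1) * (20 * g3 (g4 n) + 2) + 7)
      (((LB.const 1).add ((((hg3.comp hg4).smul 20).add (LB.const 2)).smul _)).add (LB.const 7))
      fun w => ?_
    obtain ⟨v, hv, n, hn, H⟩ := shrink_main (d := d) (F := F) hK hbase hpos hsound hcomp
      ((m (x0 w)).length + 1) (x0 w) (hgood w) (by omega) [] false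
    have hvf : v = f w := by
      rw [Bool.eq_iff_iff, hv, hf]
    have hB : sz ([] : List (α × (List Bool × List α))) +
        (K1 * C + K1) * (20 * (m (x0 w)).length + 2) ≤
        1 + (K1 * C + K1) * (20 * g3 (g4 (sz w)) + 2) := by
      rw [sz_nil]
      have h1 := length_le_sz (m (x0 w))
      have h2 := Hg3 (x0 w)
      have h3 := hg3.1 (Hg4 w)
      have : (K1 * C + K1) * (20 * (m (x0 w)).length + 2) ≤
        (K1 * C + K1) * (20 * g3 (g4 (sz w)) + 2) := Nat.mul_le_mul_left _ (by omega)
      omega
    refine ⟨n, fun i hi => (H i hi).1, ?_, fun i hi => ?_, ?_⟩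
    · rw [hn]; simp [dcond]
    · rcases Nat.lt_or_ge i n with h | h
      · exact (H i h).2.trans (by omega)
      · have : i = n := by omega
        subst this
        rw [hn]
        have := sz_state_nil ([] : List (α × (List Bool × List α))) v
        rw [sz_nil] at this
        omega
    · rw [hn, hvf]
  exact (Lin.snd.comp (Lin.snd.comp key))

end Correct

end Pool.Agent.Lib.LinSpace
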