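import Pool.Agent.Lib.LinSpace.Compile
import Pool.Agent.Lib.LinSpace.Shrink

/-!
From linear space functions to deterministic linearly bounded machines.
-/

set_option autoImplicit false
set_option linter.unusedSimpArgs false

namespace Pool.Agent.Lib.LinSpace

/-- A program that does not read the input, as a program with input letters in `A`. -/
def Cmd.lift {A : Type} : Cmd Empty → Cmd A
  | .skip => .skip
  | .push k a => .push k a
  | .pop k => .pop k
  | .seq c d => .seq c.lift d.lift
  | .case k f => .case k fun o => (f o).lift
  | .loop k f => .loop k fun a => (f a).lift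
  | .read f => (f none).lift

theorem Exec.lift {A : Type} {m : ℕ} {c : Cmd Empty} {u u' : List Empty} {s s' : St}
    (h : Exec m c u s u' s') (w : List A) : Exec m c.lift w s w s' := by
  induction h with
  | skip _ s => exact .skip _ _
  | push k a _ s hk => exact .push k a _ _ hk
  | pop k _ s => exact .pop k _ _
  | seq _ _ ih1 ih2 => exact .seq ih1 ih2
  | case _ ih => exact .case ih
  | loop_nil h => exact .loop_nil h
  | loop_cons hs _ _ ih1 ih2 => exact .loop_cons hs ih1 ih2
  | @read f u u' s s' _ ih =>
    cases u with
    | nil => exact ih
    | cons a _ => exact a.elim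

theorem Runs.lift {A : Type} {m : ℕ} {c : Prog} {s s' : St} (h : Runs m c s s') (w : List A) :
    Exec m c.lift w s w s' := Exec.lift h w

/-- The loop reading the input. -/
def rdLoop (A : Type) [Enc A] : Cmd A :=
  .loop 2 fun _ => .read fun o => match o with
    | none => .skip
    | some a => .seq (wr 1 (true :: word a).reverse).lift (.push 2 true)

theorem exec_rdLoop {A : Type} [Enc A] (m : ℕ) : ∀ (w : List A) (v : List Bool),
    (word w).length + v.length + 1 ≤ m →
    Exec m (rdLoop A) w (cs [] (cs v (cs [true] E))) []
      (cs [] (cs ((w.flatMap fun a => true :: word a).reverse ++ v) E)) := by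
  intro w
  induction w with
  | nil =>
    intro v _
    refine .loop_cons (a := true) (l := []) (w' := []) (s' := cs [] (cs v E)) rfl ?_
      (.loop_nil rfl)
    apply Exec.read
    have : Function.update (cs [] (cs v (cs [true] E))) 2 [] = cs [] (cs v E) := by
      rw [show (2 : ℕ) = 0 + 1 + 1 from rfl, update_cs_succ, update_cs_succ, update_cs_zero,
        cs_nil_E]
    rw [this]
    exact .skip _ _
  | cons a w ih =>
    intro v hm
    have e1 : (word (a :: w)).length = (word a).length + (word w).length + 1 := by
      rw [word_cons]; simp
    rw [e1] at hm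
    have hpos := sz_pos w
    unfold sz at hpos
    have h := ih ((true :: word a).reverse ++ v) (by
      simp only [List.length_append, List.length_reverse, List.length_cons]; omega)
    refine .loop_cons (a := true) (l := []) (w' := w)
      (s' := cs [] (cs ((true :: word a).reverse ++ v) (cs [true] E))) rfl ?_ ?_
    · apply Exec.read
      have h1 : Function.update (cs [] (cs v (cs [true] E))) 2 [] = cs [] (cs v E) := by
        rw [show (2 : ℕ) = 0 + 1 + 1 from rfl, update_cs_succ, update_cs_succ, update_cs_zero,
          cs_nil_E]
      rw [h1]
      have h2 := (runs_wr (m := m) 1 (true :: word a).reverse (cs [] (cs v E)) (by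
        simp only [List.length_append, List.length_reverse, List.length_cons, cs_succ,
          cs_zero]
        omega)).lift (A := A) w
      have h3 := Exec.push (A := A) (m := m) 2 true w (cs [] (cs ((true :: word a).reverse ++ v) E))
        (by simp only [cs_succ, E_apply, List.length_nil]; omega)
      simp only [update_cs_zero, cs_zero, update_cs_succ, cs_succ, update_E_zero, E_apply] at h2 h3
      exact .seq h2 h3
    · refine cast ?_ h
      congr 3
      rw [List.flatMap_cons, List.reverse_append, List.append_assoc]

theorem word_eq_flatMap {A : Type} [Enc A] (w : List A) :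
    word w = (w.flatMap fun a => true :: word a) ++ [false] := by
  induction w with
  | nil => rfl
  | cons a w ih => rw [word_cons, ih]; simp

/-- Predicates computable in linear space define deterministic context-sensitive languages. -/
theorem mem_DCS_of_lin {A : Type} [Finite A] [Enc A] {f : List A → Bool} (hf : Lin f)
    (L : Language A) (h : ∀ w, f w = true ↔ w ∈ L) : L ∈ DCS A := by
  obtain ⟨c, g, hg, H⟩ := hf
  obtain ⟨D, hD⟩ : ∃ D, ∀ a : A, (word a).length ≤ D := by
    obtain ⟨D, hD⟩ := (Set.finite_range fun a : A => (word a).length).bddAbove
    exact ⟨D, fun a => hD ⟨a, rfl⟩⟩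
  have hlen : ∀ w : List A, (word w).length ≤ (D + 1) * w.length + 1 := by
    intro w
    induction w with
    | nil => simp [word_nil]
    | cons a w ih =>
      rw [word_cons, List.length_cons, List.length_append, List.length_cons, Nat.mul_add]
      have := hD a
      omega
  obtain ⟨K, hK⟩ := hg.2
  refine mem_DCS_of_cmd L (.seq (.push 2 true) (.seq (rdLoop A) (.seq (.push 1 false)
    (.seq (mv 1 0).lift c.lift)))) (K * (D + 1) + K + (D + 1) + 3) fun w => ?_
  set m := (K * (D + 1) + K + (D + 1) + 3) * w.length + (K * (D + 1) + K + (D + 1) + 3) with hm
  have hl := hlen w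
  have hmw : (word w).length + 2 ≤ m := by
    have : (D + 1) * w.length ≤ (K * (D + 1) + K + (D + 1) + 3) * w.length :=
      Nat.mul_le_mul_right _ (by omega)
    omega
  have hgm : g (sz w) ≤ m := by
    refine (hg.1 hl).trans ((hK _).trans ?_)
    rw [hm]
    have e1 : K * ((D + 1) * w.length + 1) = K * (D + 1) * w.length + K := by ring
    have e2 : K * (D + 1) * w.length ≤ (K * (D + 1) + K + (D + 1) + 3) * w.length :=
      Nat.mul_le_mul_right _ (by omega)
    have e3 : K ≤ K * (D + 1) := Nat.le_mul_of_pos_right _ (by omega)
    omega
  refine ⟨[], cs (word (f w)) E, ?_, ?_⟩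
  · have h1 := Exec.push (A := A) (m := m) 2 true w E
      (by simp only [E_apply, List.length_nil]; omega)
    have e1 : Function.update E 2 (true :: E 2) = cs [] (cs [] (cs [true] E)) := by
      rw [show (2 : ℕ) = 0 + 1 + 1 from rfl, update_E_succ, update_E_succ, update_E_zero,
        E_apply]
    rw [e1] at h1
    have h2 := exec_rdLoop m w [] (by simp only [List.length_nil]; omega)
    have h3 := Exec.push (A := A) (m := m) 1 false []
      (cs [] (cs ((w.flatMap fun a => true :: word a).reverse ++ []) E))
      (by
        simp only [cs_succ, cs_zero, List.append_nil, List.length_reverse]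
        have := congrArg List.length (word_eq_flatMap w)
        rw [List.length_append, List.length_singleton] at this
        omega)
    have e3 : Function.update (cs [] (cs ((w.flatMap fun a => true :: word a).reverse ++ []) E)) 1
        (false :: (cs [] (cs ((w.flatMap fun a => true :: word a).reverse ++ []) E)) 1) =
        cs [] (cs (word w).reverse E) := by
      rw [show (1 : ℕ) = 0 + 1 from rfl, update_cs_succ, update_cs_zero, cs_succ, cs_zero,
        word_eq_flatMap, List.reverse_append]
      simp
    rw [e3] at h3
    have h4 := (runs_mv (m := m) (i := 1) (j := 0) (by decide) (cs [] (cs (word w).reverse E)) (by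
      simp only [cs_succ, cs_zero, List.length_reverse, List.length_nil]; omega)).lift (A := A) []
    simp only [update_cs_zero, cs_zero, update_cs_succ, cs_succ, update_E_zero, E_apply,
      List.append_nil, List.reverse_reverse, cs_nil_E] at h4
    have h5 := ((H w).mono hgm).lift (A := A) []
    exact .seq h1 (.seq h2 (.seq h3 (.seq h4 h5)))
  · rw [cs_zero, ← h]
    cases f w <;> simp [word_true, word_false]

end Pool.Agent.Lib.LinSpace
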