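import Pool.Agent.Lib.LinSpace.Prog

/-!
Functions computed by stack programs in linear space, with closure properties.
-/

set_option autoImplicit false
set_option linter.unusedSimpArgs false

namespace Pool.Agent.Lib.LinSpace

/-! ### Linear bounds -/

/-- Monotone functions bounded by linear functions. -/
def LB (g : ℕ → ℕ) : Prop := Monotone g ∧ ∃ K, ∀ n, g n ≤ K * n + K

theorem LB.const (c : ℕ) : LB fun _ => c := ⟨monotone_const, c, fun n => by nlinarith⟩

theorem LB.id : LB fun n => n := ⟨monotone_id, 1, fun n => by simp⟩

theorem LB.add {f g : ℕ → ℕ} (hf : LB f) (hg : LB g) : LB fun n => f n + g n := by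
  obtain ⟨mf, p, hp⟩ := hf
  obtain ⟨mg, q, hq⟩ := hg
  exact ⟨mf.add mg, p + q, fun n => by
    have := hp n; have := hq n; rw [Nat.add_mul]; dsimp only; omega⟩

theorem LB.comp {f g : ℕ → ℕ} (hf : LB f) (hg : LB g) : LB fun n => f (g n) := by
  obtain ⟨mf, p, hp⟩ := hf
  obtain ⟨mg, q, hq⟩ := hg
  refine ⟨mf.comp mg, p * q + p, fun n => ?_⟩
  have h1 := hp (g n)
  have h2 := Nat.mul_le_mul_left p (hq n)
  calc f (g n) ≤ p * g n + p := h1
    _ ≤ p * (q * n + q) + p := by omega
    _ ≤ (p * q + p) * n + (p * q + p) := by
        rw [Nat.mul_add, Nat.add_mul, ← Nat.mul_assoc]; omega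

theorem LB.smul {f : ℕ → ℕ} (hf : LB f) (c : ℕ) : LB fun n => c * f n := by
  obtain ⟨mf, p, hp⟩ := hf
  refine ⟨fun a b h => Nat.mul_le_mul_left _ (mf h), c * p, fun n => ?_⟩
  calc c * f n ≤ c * (p * n + p) := Nat.mul_le_mul_left _ (hp n)
    _ = c * p * n + c * p := by rw [Nat.mul_add, Nat.mul_assoc]

theorem LB.max {f g : ℕ → ℕ} (hf : LB f) (hg : LB g) : LB fun n => max (f n) (g n) := by
  obtain ⟨K, hK⟩ := (hf.add hg).2
  exact ⟨fun a b h => max_le_max (hf.1 h) (hg.1 h), K, fun n => by
    have := hK n
    simp only at this
    dsimp only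
    rcases le_total (f n) (g n) with h | h
    · rw [max_eq_right h]; omega
    · rw [max_eq_left h]; omega⟩

/-! ### Encodings -/

/-- Types whose elements are represented by trees. -/
class Enc (α : Type) where
  /-- the tree of an element -/
  enc : α → Dat
  /-- different elements have different trees -/
  inj : Function.Injective enc

/-- The word of an element. -/
def word {α : Type} [Enc α] (x : α) : List Bool := code (Enc.enc x)

/-- The size of an element. -/
def sz {α : Type} [Enc α] (x : α) : ℕ := (word x).length

/-- The tree of a list of trees. -/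
def listD : List Dat → Dat
  | [] => .nil
  | a :: l => .cons a (listD l)

theorem listD_inj : Function.Injective listD := by
  intro l
  induction l with
  | nil => intro l' h; cases l' with
    | nil => rfl
    | cons a l' => cases h
  | cons a l ih => intro l' h; cases l' with
    | nil => cases h
    | cons b l' =>
      injection h with h1 h2
      rw [h1, ih h2]

instance : Enc Dat := ⟨id, Function.injective_id⟩
instance : Enc Unit := ⟨fun _ => .nil, fun _ _ _ => rfl⟩
instance : Enc Bool := ⟨fun b => if b then .cons .nil .nil else .nil, by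
  intro a b h; cases a <;> cases b <;> simp_all⟩
instance {α β : Type} [Enc α] [Enc β] : Enc (α × β) :=
  ⟨fun x => .cons (Enc.enc x.1) (Enc.enc x.2), by
    rintro ⟨a, b⟩ ⟨c, d⟩ h
    injection h with h1 h2
    exact Prod.ext (Enc.inj h1) (Enc.inj h2)⟩
instance {α : Type} [Enc α] : Enc (List α) :=
  ⟨fun l => listD (l.map Enc.enc), fun _ _ h => (List.map_injective_iff.2 Enc.inj) (listD_inj h)⟩

theorem word_pair {α β : Type} [Enc α] [Enc β] (x : α) (y : β) :
    word (x, y) = true :: (word x ++ word y) := rfl
theorem word_nil {α : Type} [Enc α] : word ([] : List α) = [false] := rfl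
theorem word_cons {α : Type} [Enc α] (a : α) (l : List α) :
    word (a :: l) = true :: (word a ++ word l) := rfl
theorem word_true : word true = [true, false, false] := rfl
theorem word_false : word false = [false] := rfl

theorem sz_pair {α β : Type} [Enc α] [Enc β] (x : α) (y : β) :
    sz (x, y) = sz x + sz y + 1 := by simp [sz, word_pair]
theorem sz_nil {α : Type} [Enc α] : sz ([] : List α) = 1 := rfl
theorem sz_cons {α : Type} [Enc α] (a : α) (l : List α) :
    sz (a :: l) = sz a + sz l + 1 := by simp [sz, word_cons]
theorem sz_pos {α : Type} [Enc α] (x : α) : 0 < sz x := code_length_pos _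
theorem sz_bool (b : Bool) : sz b ≤ 3 := by cases b <;> simp [sz, word_true, word_false]
theorem sz_append {α : Type} [Enc α] (l l' : List α) : sz (l ++ l') + 1 = sz l + sz l' := by
  induction l with
  | nil => simp [sz_nil]; omega
  | cons a l ih => rw [List.cons_append, sz_cons, sz_cons]; omega
theorem length_le_sz {α : Type} [Enc α] (l : List α) : l.length < sz l := by
  induction l with
  | nil => simp [sz_nil]
  | cons a l ih => rw [sz_cons, List.length_cons]; omega
theorem sz_le_of_mem {α : Type} [Enc α] {l : List α} {a : α} (h : a ∈ l) : sz a < sz l := by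
  induction l with
  | nil => simp at h
  | cons b l ih =>
    rw [sz_cons]
    rcases List.mem_cons.1 h with h | h
    · subst h; have := sz_pos l; omega
    · have := ih h; omega

/-- Codes are prefix free. -/
theorem code_append_inj : ∀ {d e : Dat} {u v : List Bool}, code d ++ u = code e ++ v →
    d = e ∧ u = v
  | .nil, .nil, u, v, h => by
    simp only [code, List.cons_append, List.nil_append, List.cons.injEq, true_and] at h
    exact ⟨rfl, h⟩
  | .nil, .cons a b, u, v, h => by simp [code] at h
  | .cons a b, .nil, u, v, h => by simp [code] at h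
  | .cons a b, .cons c d, u, v, h => by
    simp only [code, List.cons_append, List.append_assoc, List.cons.injEq, true_and] at h
    obtain ⟨h1, h2⟩ := code_append_inj h
    obtain ⟨h3, h4⟩ := code_append_inj h2
    exact ⟨by rw [h1, h3], h4⟩

theorem code_inj : Function.Injective code := fun d e h =>
  (code_append_inj (u := []) (v := []) (by rw [h])).1

theorem word_inj {α : Type} [Enc α] : Function.Injective (word : α → List Bool) :=
  fun _ _ h => Enc.inj (code_inj h)

/-! ### Linear space -/

/-- Linear space functions between encoded types. -/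
def Lin {α β : Type} [Enc α] [Enc β] (f : α → β) : Prop :=
  ∃ (c : Prog) (g : ℕ → ℕ), LB g ∧
    ∀ x, Runs (g (sz x)) c (cs (word x) E) (cs (word (f x)) E)

variable {α β γ σ δ : Type} [Enc α] [Enc β] [Enc γ] [Enc σ] [Enc δ]

theorem fits_cs {m : ℕ} {x : List Bool} {s : St} (hx : x.length ≤ m) (hs : Fits m s) :
    Fits m (cs x s) := by
  intro k
  cases k with
  | zero => exact hx
  | succ k => exact hs k

theorem fits_E {m : ℕ} : Fits m E := fun k => by simp

theorem Lin.of_eq {f g : α → β} (hf : Lin f) (h : ∀ x, f x = g x) : Lin g := by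
  have : f = g := funext h
  exact this ▸ hf

theorem Lin.of_word {f : α → β} {α' β' : Type} [Enc α'] [Enc β'] {g : α' → β'}
    (hg : Lin g) (e : α → α') (h : ∀ x, word x = word (e x))
    (h' : ∀ x, word (f x) = word (g (e x))) : Lin f := by
  obtain ⟨c, p, hp, H⟩ := hg
  refine ⟨c, p, hp, fun x => ?_⟩
  have := H (e x)
  rw [← h x, ← h' x] at this
  have e2 : sz (e x) = sz x := by simp only [sz, h x]
  rwa [e2] at this

theorem Lin.id : Lin (fun x : α => x) :=
  ⟨.skip, fun _ => 1, LB.const 1, fun _ => Runs.skip _⟩

/-- The size of the value is linearly bounded. -/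
theorem Lin.size {f : α → β} (hf : Lin f) : ∃ g, LB g ∧ ∀ x, sz (f x) ≤ g (sz x) := by
  obtain ⟨c, g, hg, H⟩ := hf
  refine ⟨fun n => n + g n, LB.id.add hg, fun x => ?_⟩
  have h1 := ((H x).mono (m' := sz x + g (sz x)) (by omega)).fits
    (fits_cs (by show sz x ≤ _; omega) fits_E)
  exact h1 0

theorem Lin.comp {f : β → γ} {g : α → β} (hf : Lin f) (hg : Lin g) :
    Lin (fun x => f (g x)) := by
  obtain ⟨q, hq, Hq⟩ := hg.size
  obtain ⟨c, p, hp, H⟩ := hf
  obtain ⟨d, r, hr, H'⟩ := hg
  refine ⟨.seq d c, fun n => r n + p (q n), hr.add (hp.comp hq), fun x => ?_⟩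
  have := hp.1 (Hq x)
  exact ((H' x).mono (by dsimp only; omega)).seq ((H (g x)).mono (by dsimp only; omega))

theorem Lin.const (b : β) : Lin (fun _ : α => b) := by
  refine ⟨.seq (clr 0) (wr 0 (word b)), fun _ => sz b, LB.const _, fun x => ?_⟩
  have h1 := runs_clr (m := sz b) 0 (cs (word x) E)
  simp only [update_cs_zero, cs_zero] at h1
  have h2 := runs_wr (m := sz b) 0 (word b) (cs [] E) (by simp [sz])
  simp only [update_cs_zero, cs_zero, List.append_nil] at h2
  exact h1.seq h2

theorem Lin.pair {f : α → β} {g : α → γ} (hf : Lin f) (hg : Lin g) :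
    Lin (fun x => (f x, g x)) := by
  obtain ⟨qf, hqf, Hqf⟩ := hf.size
  obtain ⟨qg, hqg, Hqg⟩ := hg.size
  obtain ⟨c, p, hp, H⟩ := hf
  obtain ⟨d, r, hr, H'⟩ := hg
  refine ⟨.seq (cp 0 1 2) (.seq (d.shift 1) (.seq (mv 0 2) (.seq (mv 1 3) (.seq (mv 3 0)
    (.seq (mv 2 1) (.seq (c.shift 1) (.seq (mv 1 2) (.seq (mv 2 0) (.push 0 true))))))))),
    fun n => n + r n + p n + qf n + qg n + 1,
    ((((LB.id.add hr).add hp).add hqf).add hqg).add (LB.const 1), fun x => ?_⟩
  set m := sz x + r (sz x) + p (sz x) + qf (sz x) + qg (sz x) + 1 with hm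
  have e1 := Hqg x
  have e2 := Hqf x
  have e3 : (word x).length = sz x := rfl
  have e4 : (word (f x)).length = sz (f x) := rfl
  have e5 : (word (g x)).length = sz (g x) := rfl
  have h1 := runs_cp (m := m) (i := 0) (j := 1) (t := 2) (by decide) (by decide) (by decide)
    (cs (word x) E) rfl (by simp only [cs_zero, cs_succ, E_apply, List.length_nil]; omega)
  simp only [update_cs_zero, cs_zero, update_cs_succ, cs_succ, update_E_zero, E_apply,
    List.append_nil] at h1
  have h2 := ((H' x).mono (m' := m) (by omega)).shift1 (word x)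
  have h3 := runs_mv (m := m) (i := 0) (j := 2) (by decide) (cs (word x) (cs (word (g x)) E))
    (by simp only [cs_zero, cs_succ, E_apply, List.length_nil]; omega)
  simp only [update_cs_zero, cs_zero, update_cs_succ, cs_succ, update_E_zero, E_apply,
    List.append_nil] at h3
  have h4 := runs_mv (m := m) (i := 1) (j := 3) (by decide)
    (cs [] (cs (word (g x)) (cs (word x).reverse E)))
    (by simp only [cs_zero, cs_succ, E_apply, List.length_nil]; omega)
  simp only [update_cs_zero, cs_zero, update_cs_succ, cs_succ, update_E_zero, E_apply,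
    List.append_nil] at h4
  have h5 := runs_mv (m := m) (i := 3) (j := 0) (by decide)
    (cs [] (cs [] (cs (word x).reverse (cs (word (g x)).reverse E))))
    (by simp only [cs_zero, cs_succ, E_apply, List.length_nil, List.length_reverse]; omega)
  simp only [update_cs_zero, cs_zero, update_cs_succ, cs_succ, update_E_zero, E_apply,
    List.append_nil, List.reverse_reverse, cs_nil_E] at h5
  have h6 := runs_mv (m := m) (i := 2) (j := 1) (by decide)
    (cs (word (g x)) (cs [] (cs (word x).reverse E)))
    (by simp only [cs_zero, cs_succ, E_apply, List.length_nil, List.length_reverse]; omega)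
  simp only [update_cs_zero, cs_zero, update_cs_succ, cs_succ, update_E_zero, E_apply,
    List.append_nil, List.reverse_reverse, cs_nil_E] at h6
  have h7 := ((H x).mono (m' := m) (by omega)).shift1 (word (g x))
  have h8 := runs_mv (m := m) (i := 1) (j := 2) (by decide) (cs (word (g x)) (cs (word (f x)) E))
    (by simp only [cs_zero, cs_succ, E_apply, List.length_nil, List.length_reverse]; omega)
  simp only [update_cs_zero, cs_zero, update_cs_succ, cs_succ, update_E_zero, E_apply,
    List.append_nil] at h8
  have h9 := runs_mv (m := m) (i := 2) (j := 0) (by decide)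
    (cs (word (g x)) (cs [] (cs (word (f x)).reverse E)))
    (by simp only [cs_zero, cs_succ, E_apply, List.length_nil, List.length_reverse]; omega)
  simp only [update_cs_zero, cs_zero, update_cs_succ, cs_succ, update_E_zero, E_apply,
    List.append_nil, List.reverse_reverse, cs_nil_E] at h9
  have h10 := Runs.push (m := m) 0 true (cs (word (f x) ++ word (g x)) E)
    (by simp only [cs_zero, List.length_append]; omega)
  simp only [update_cs_zero, cs_zero] at h10
  exact (h1.seq (h2.seq (h3.seq (h4.seq (h5.seq (h6.seq (h7.seq (h8.seq (h9.seq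
    h10)))))))))

theorem Lin.isNil : Lin (fun d : Dat => match d with | .nil => true | .cons _ _ => false) := by
  refine ⟨.case 0 fun o => .seq (clr 0)
    (wr 0 (if o = some true then [false] else [true, false, false])), fun _ => 3, LB.const _,
    fun x => ?_⟩
  apply Runs.case
  have h1 := runs_clr (m := 3) 0 (cs (word x) E)
  simp only [update_cs_zero, cs_zero] at h1
  cases x with
  | nil =>
    have h2 := runs_wr (m := 3) 0 [true, false, false] (cs [] E) (by simp)
    simp only [update_cs_zero, cs_zero, List.append_nil] at h2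
    exact h1.seq h2
  | cons a b =>
    have h2 := runs_wr (m := 3) 0 [false] (cs [] E) (by simp)
    simp only [update_cs_zero, cs_zero, List.append_nil] at h2
    exact h1.seq h2

/-- First component of a tree. -/
def Dat.car : Dat → Dat
  | .nil => .nil
  | .cons a _ => a

/-- Second component of a tree. -/
def Dat.cdr : Dat → Dat
  | .nil => .nil
  | .cons _ b => b

theorem Lin.car : Lin Dat.car := by
  refine ⟨.case 0 fun o => if o = some true then
      .seq (.pop 0) (.seq (item 0 1 2) (.seq (clr 0) (mv 1 0))) else .skip,
    fun n => n, LB.id, fun x => ?_⟩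
  apply Runs.case
  cases x with
  | nil => exact Runs.skip _
  | cons a b =>
    have e : sz (Dat.cons a b) = (code a).length + (code b).length + 1 := by
      simp [sz, word, Enc.enc, code]
    set m := sz (Dat.cons a b)
    have h1 := Runs.pop (m := m) 0 (cs (word (Dat.cons a b)) E)
    simp only [update_cs_zero, cs_zero] at h1
    have h2 := runs_item (m := m) (i := 0) (j := 1) (k := 2) (by decide) (by decide)
      (by decide) a (code b) (cs (code a ++ code b) E) rfl rfl (by simp; omega)
    simp only [update_cs_zero, cs_zero, update_cs_succ, cs_succ, update_E_zero, E_apply,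
      List.append_nil] at h2
    have h3 := runs_clr (m := m) 0 (cs (code b) (cs (code a).reverse E))
    simp only [update_cs_zero, cs_zero] at h3
    have h4 := runs_mv (m := m) (i := 1) (j := 0) (by decide) (cs [] (cs (code a).reverse E))
      (by simp; omega)
    simp only [update_cs_zero, cs_zero, update_cs_succ, cs_succ, update_E_zero, E_apply,
      List.append_nil, List.reverse_reverse, cs_nil_E] at h4
    exact (h1.seq (h2.seq (h3.seq h4)))

theorem Lin.cdr : Lin Dat.cdr := by
  refine ⟨.case 0 fun o => if o = some true then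
      .seq (.pop 0) (.seq (item 0 1 2) (clr 1)) else .skip,
    fun n => n, LB.id, fun x => ?_⟩
  apply Runs.case
  cases x with
  | nil => exact Runs.skip _
  | cons a b =>
    have e : sz (Dat.cons a b) = (code a).length + (code b).length + 1 := by
      simp [sz, word, Enc.enc, code]
    set m := sz (Dat.cons a b)
    have h1 := Runs.pop (m := m) 0 (cs (word (Dat.cons a b)) E)
    simp only [update_cs_zero, cs_zero] at h1
    have h2 := runs_item (m := m) (i := 0) (j := 1) (k := 2) (by decide) (by decide)
      (by decide) a (code b) (cs (code a ++ code b) E) rfl rfl (by simp; omega)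
    simp only [update_cs_zero, cs_zero, update_cs_succ, cs_succ, update_E_zero, E_apply,
      List.append_nil] at h2
    have h3 := runs_clr (m := m) 1 (cs (code b) (cs (code a).reverse E))
    simp only [update_cs_zero, cs_zero, update_cs_succ, cs_succ, update_E_zero, E_apply,
      List.append_nil, List.reverse_reverse, cs_nil_E] at h3
    exact (h1.seq (h2.seq h3))

theorem Lin.fst : Lin (fun x : α × β => x.1) :=
  Lin.car.of_word (fun x => Enc.enc x) (fun _ => rfl) (fun _ => rfl)

theorem Lin.snd : Lin (fun x : α × β => x.2) :=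
  Lin.cdr.of_word (fun x => Enc.enc x) (fun _ => rfl) (fun _ => rfl)

theorem Lin.cons {f : α → γ} {g : α → List γ} (hf : Lin f) (hg : Lin g) :
    Lin (fun x => f x :: g x) :=
  (Lin.pair hf hg).of_word (fun x => x) (fun _ => rfl) (fun _ => rfl)

theorem Lin.ite {b : α → Bool} {f g : α → β} (hb : Lin b) (hf : Lin f) (hg : Lin g) :
    Lin (fun x => if b x then f x else g x) := by
  obtain ⟨c, p, hp, H⟩ := hf
  obtain ⟨d, r, hr, H'⟩ := hg
  obtain ⟨cb, q, hq, Hb⟩ := hb
  refine ⟨.seq (cp 0 1 2) (.seq (cb.shift 1) (.case 1 fun o => if o = some true then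
      .seq (clr 1) c else .seq (clr 1) d)),
    fun n => n + q n + p n + r n, ((LB.id.add hq).add hp).add hr, fun x => ?_⟩
  set m := sz x + q (sz x) + p (sz x) + r (sz x) with hm
  have e3 : (word x).length = sz x := rfl
  have h1 := runs_cp (m := m) (i := 0) (j := 1) (t := 2) (by decide) (by decide) (by decide)
    (cs (word x) E) rfl (by simp only [cs_zero, cs_succ, E_apply, List.length_nil]; omega)
  simp only [update_cs_zero, cs_zero, update_cs_succ, cs_succ, update_E_zero, E_apply,
    List.append_nil] at h1
  have h2 := ((Hb x).mono (m' := m) (by omega)).shift1 (word x)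
  refine (h1.seq (h2.seq (Runs.case ?_)))
  cases hbx : b x with
  | true =>
    have h3 := runs_clr (m := m) 1 (cs (word x) (cs (word true) E))
    simp only [update_cs_zero, cs_zero, update_cs_succ, cs_succ, update_E_zero, E_apply,
      List.append_nil, List.reverse_reverse, cs_nil_E] at h3
    exact (h3.seq ((H x).mono (m' := m) (by omega))).to (by simp [hbx]) (le_refl _)
  | false =>
    have h3 := runs_clr (m := m) 1 (cs (word x) (cs (word false) E))
    simp only [update_cs_zero, cs_zero, update_cs_succ, cs_succ, update_E_zero, E_apply,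
      List.append_nil, List.reverse_reverse, cs_nil_E] at h3
    exact (h3.seq ((H' x).mono (m' := m) (by omega))).to (by simp [hbx]) (le_refl _)

end Pool.Agent.Lib.LinSpace
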