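import Pool.Agent.Lib.LinSpace.Enum

/-!
More linear space functions on lists.
-/

set_option autoImplicit false
set_option linter.unusedSimpArgs false

namespace Pool.Agent.Lib.LinSpace

variable {α β γ σ δ : Type} [Enc α] [Enc β] [Enc γ] [Enc σ] [Enc δ]

/-! ### The size in unary -/

theorem runs_unary_loop (m : ℕ) : ∀ (w v : List Bool), 2 * w.length + v.length ≤ m →
    Runs m (.loop 0 fun _ => .seq (.push 1 false) (.push 1 true)) (cs w (cs v E))
      (cs [] (cs ((List.replicate w.length [true, false]).flatten ++ v) E)) := by
  intro w
  induction w with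
  | nil => intro v _; exact Runs.loop_nil rfl
  | cons a w ih =>
    intro v hm
    rw [List.length_cons] at hm
    have h := ih (true :: false :: v) (by simp only [List.length_cons]; omega)
    refine Runs.loop_cons (a := a) (l := w) (s' := cs w (cs (true :: false :: v) E)) rfl ?_ ?_
    · rw [update_cs_zero]
      have h1 := Runs.push (m := m) 1 false (cs w (cs v E))
        (by simp only [cs_succ, cs_zero]; omega)
      have h2 := Runs.push (m := m) 1 true (cs w (cs (false :: v) E))
        (by simp only [cs_succ, cs_zero, List.length_cons]; omega)
      simp only [update_cs_zero, cs_zero, update_cs_succ, cs_succ] at h1 h2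
      exact h1.seq h2
    · refine h.to ?_ (le_refl _)
      have : (List.replicate w.length [true, false]).flatten ++ (true :: false :: v) =
          (List.replicate (a :: w).length [true, false]).flatten ++ v := by
        rw [List.length_cons, List.replicate_succ', List.flatten_append]
        simp
      rw [this]

theorem word_replicate_false (n : ℕ) : word (List.replicate n false) =
    (List.replicate n [true, false]).flatten ++ [false] := by
  induction n with
  | zero => rfl
  | succ n ih => rw [List.replicate_succ, word_cons, ih, word_false]; simp [List.replicate_succ]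

/-- The size of an element, in unary. -/
theorem Lin.unary : Lin (fun x : α => List.replicate (sz x) false) := by
  refine ⟨.seq (.push 1 false) (.seq (.loop 0 fun _ => .seq (.push 1 false) (.push 1 true))
    (.seq (mv 1 2) (mv 2 0))), fun n => 2 * n + 2, (LB.id.smul 2).add (LB.const 2), fun x => ?_⟩
  set m := 2 * sz x + 2 with hm
  have e1 : (word x).length = sz x := rfl
  have h1 := Runs.push (m := m) 1 false (cs (word x) E)
    (by simp only [cs_succ, E_apply, List.length_nil]; omega)
  simp only [update_cs_zero, cs_zero, update_cs_succ, cs_succ, update_E_zero, E_apply] at h1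
  have h2 := runs_unary_loop m (word x) [false] (by rw [e1]; simp; omega)
  rw [e1, ← word_replicate_false] at h2
  have e2 : (word (List.replicate (sz x) false)).length = 2 * sz x + 1 := by
    rw [word_replicate_false]; simp; omega
  have h3 := runs_mv (m := m) (i := 1) (j := 2) (by decide)
    (cs [] (cs (word (List.replicate (sz x) false)) E))
    (by simp only [cs_zero, cs_succ, E_apply, List.length_nil, e2]; omega)
  simp only [update_cs_zero, cs_zero, update_cs_succ, cs_succ, update_E_zero, update_E_succ,
    E_apply, List.append_nil] at h3
  have h4 := runs_mv (m := m) (i := 2) (j := 0) (by decide)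
    (cs [] (cs [] (cs (word (List.replicate (sz x) false)).reverse E)))
    (by simp only [cs_zero, cs_succ, E_apply, List.length_nil, List.length_reverse, e2]; omega)
  simp only [update_cs_zero, cs_zero, update_cs_succ, cs_succ, update_E_zero, update_E_succ,
    E_apply, List.append_nil, List.reverse_reverse, cs_nil_E] at h4
  exact h1.seq (h2.seq (h3.seq h4))

/-! ### All, filter, flatten -/

theorem Lin.allP {l : α → List γ} {p : α × γ → Bool} (hl : Lin l) (hp : Lin p) :
    Lin (fun x => (l x).all fun b => p (x, b)) := by
  have h := Lin.foldl (step := fun y : α × (Bool × γ) => y.2.1 && p (y.1, y.2.2)) hl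
    (Lin.const true) ((Lin.fst.comp Lin.snd).and (hp.comp (Lin.fst.pair (Lin.snd.comp Lin.snd))))
    (q := fun _ => 3) (LB.const 3) (fun x l' _ => sz_bool _)
  refine h.of_eq fun x => ?_
  generalize l x = w
  have : ∀ b : Bool, w.foldl (fun s b => s && p (x, b)) b = (b && w.all fun b => p (x, b)) := by
    induction w with
    | nil => simp
    | cons a w ih => intro b; rw [List.foldl_cons, ih]; simp [Bool.and_assoc]
  exact (this true).trans (by simp)

theorem Lin.all' {l : α → List γ} {p : γ → Bool} (hl : Lin l) (hp : Lin p) :
    Lin (fun x => (l x).all p) :=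
  (Lin.allP (p := fun y : α × γ => p y.2) hl (hp.comp Lin.snd)).of_eq fun x => rfl

omit [Enc γ] in
theorem foldl_filter_eq (p : γ → Bool) (l s : List γ) :
    l.foldl (fun s b => if p b then b :: s else s) s = (l.filter p).reverse ++ s := by
  induction l generalizing s with
  | nil => rfl
  | cons a l ih =>
    rw [List.foldl_cons, ih, List.filter_cons]
    cases p a <;> simp

theorem sz_filter_le (p : γ → Bool) (l : List γ) : sz (l.filter p) ≤ sz l := by
  induction l with
  | nil => simp
  | cons a l ih =>
    rw [List.filter_cons]
    split
    · rw [sz_cons, sz_cons]; omega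
    · rw [sz_cons]; omega

theorem Lin.filter {l : α → List γ} {p : γ → Bool} (hl : Lin l) (hp : Lin p) :
    Lin (fun x => (l x).filter p) := by
  obtain ⟨q, hq, Hq⟩ := hl.size
  have h := Lin.foldl (step := fun y : α × (List γ × γ) => if p y.2.2 then y.2.2 :: y.2.1
    else y.2.1) hl (Lin.const ([] : List γ))
    ((hp.comp (Lin.snd.comp Lin.snd)).ite ((Lin.snd.comp Lin.snd).cons (Lin.fst.comp Lin.snd))
      (Lin.fst.comp Lin.snd)) hq (by
      intro x l' hl'
      show sz (l'.foldl (fun s b => if p b then b :: s else s) []) ≤ q (sz x)
      rw [foldl_filter_eq, List.append_nil, sz_reverse]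
      exact ((sz_filter_le p l').trans (sz_prefix_le hl')).trans (Hq x))
  exact (h.reverse).of_eq fun x => by
    rw [foldl_filter_eq]; simp

theorem sz_flatten_le (l : List (List γ)) : sz l.flatten ≤ sz l := by
  induction l with
  | nil => exact le_refl _
  | cons a l ih =>
    rw [List.flatten_cons, sz_cons]
    have := sz_append a l.flatten
    omega

theorem Lin.flatten {l : α → List (List γ)} (hl : Lin l) : Lin (fun x => (l x).flatten) := by
  obtain ⟨q, hq, Hq⟩ := hl.size
  have h := Lin.foldl (step := fun y : α × (List γ × List γ) => y.2.1 ++ y.2.2) hl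
    (Lin.const ([] : List γ))
    ((Lin.fst.comp Lin.snd).append (Lin.snd.comp Lin.snd)) hq (by
      intro x l' hl'
      show sz (l'.foldl (fun s b => s ++ b) []) ≤ q (sz x)
      have : l'.foldl (fun s b => s ++ b) [] = l'.flatten := by
        have := List.foldl_append_eq_append (l := l') (f := fun x : List γ => x) (l' := [])
        simpa using this
      rw [this]
      exact ((sz_flatten_le l').trans (sz_prefix_le hl')).trans (Hq x))
  exact h.of_eq fun x => by
    have := List.foldl_append_eq_append (l := l x) (f := fun x : List γ => x) (l' := [])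
    simpa using this

theorem Lin.flatMap {l : α → List γ} {f : γ → List β} (hl : Lin l) (hf : Lin f) :
    Lin (fun x => (l x).flatMap f) :=
  (Lin.flatten (Lin.map' hl hf)).of_eq fun x => by rw [List.flatMap_def]

/-! ### Lengths -/

theorem sz_drop_le (l : List γ) (n : ℕ) : sz (l.drop n) ≤ sz l :=
  sz_suffix_le (List.drop_suffix n l)

omit [Enc γ] [Enc δ] in
theorem foldl_tail_eq (l : List γ) (s : List δ) :
    l.foldl (fun s _ => s.tail) s = s.drop l.length := by
  induction l generalizing s with
  | nil => rfl
  | cons a l ih => rw [List.foldl_cons, ih, List.length_cons, List.drop_tail]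

theorem Lin.lenLe {l : α → List γ} {l' : α → List δ} (hl : Lin l) (hl' : Lin l') :
    Lin (fun x => decide ((l x).length ≤ (l' x).length)) := by
  obtain ⟨q, hq, Hq⟩ := hl.size
  have h := Lin.foldl (step := fun y : α × (List γ × δ) => y.2.1.tail) hl' hl
    (Lin.fst.comp Lin.snd).tail hq (by
      intro x m _
      show sz (m.foldl (fun s _ => s.tail) (l x)) ≤ q (sz x)
      rw [foldl_tail_eq]
      exact (sz_drop_le _ _).trans (Hq x))
  refine (Lin.isEmpty h).of_eq fun x => ?_
  show ((l' x).foldl (fun s _ => s.tail) (l x)).isEmpty = _
  rw [foldl_tail_eq]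
  rw [Bool.eq_iff_iff]
  simp

/-- Repeat a list. -/
def rep {γ : Type} : ℕ → List γ → List γ
  | 0, _ => []
  | n + 1, l => l ++ rep n l

omit [Enc γ] in
theorem rep_length (n : ℕ) (l : List γ) : (rep n l).length = n * l.length := by
  induction n with
  | zero => simp [rep]
  | succ n ih => rw [rep, List.length_append, ih, Nat.add_mul]; omega

theorem Lin.rep {l : α → List γ} (hl : Lin l) (n : ℕ) : Lin (fun x => rep n (l x)) := by
  induction n with
  | zero => exact Lin.const []
  | succ n ih => exact hl.append ih

/-- Equality of a value with a constant in a finite type, and general predicates on finite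
types. -/
theorem Lin.finPred {ι : Type} [Enc ι] [Finite ι] {i : α → ι} (hi : Lin i) (p : ι → Bool) :
    Lin (fun x => p (i x)) := (Lin.of_finite p).comp hi

/-- The first element of a list, if any. -/
noncomputable def encOption (ι : Type) [Finite ι] : Enc (Option ι) := encFinite (Option ι)

end Pool.Agent.Lib.LinSpace
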