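import Mathlib

/-!
Turing machines with a read-only input tape and one bi-infinite work tape, linearly bounded
machines, and the families `CS` and `DCS`.
-/

set_option autoImplicit false

namespace Pool.Agent.Lib.LinSpace

/-- Moves of a head. -/
inductive Dir : Type
  | left : Dir
  | stay : Dir
  | right : Dir

/-- The displacement of a move. -/
def Dir.toInt : Dir → ℤ
  | .left => -1
  | .stay => 0
  | .right => 1

/-- A nondeterministic Turing machine with input alphabet `A`: finitely many states, a finite
tape alphabet containing `A` and a blank symbol, a read-only input tape and one bi-infinite
read-write work tape. -/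
structure Machine (A : Type) where
  /-- the states -/
  Q : Type
  /-- the tape symbols -/
  Γ : Type
  /-- there are finitely many states -/
  finQ : Finite Q
  /-- there are finitely many tape symbols -/
  finΓ : Finite Γ
  /-- input letters as tape symbols -/
  ι : A → Γ
  /-- different letters are different tape symbols -/
  ι_inj : Function.Injective ι
  /-- the blank symbol -/
  blank : Γ
  /-- the blank symbol is not a letter -/
  blank_notin : ∀ a, ι a ≠ blank
  /-- the initial state -/
  start : Q
  /-- the accepting states -/
  acc : Set Q
  /-- the possible actions in state `q` when the input head reads `x` and the work head reads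
  `y`: new state, symbol written on the work tape, move of the input head, move of the work
  head -/
  δ : Q → Γ → Γ → Set (Q × Γ × Dir × Dir)

namespace Machine

variable {A : Type} (M : Machine A)

/-- A configuration on a fixed input. -/
@[ext] structure Cfg where
  /-- the state -/
  state : M.Q
  /-- the position of the head on the input tape -/
  inPos : ℤ
  /-- the content of the work tape -/
  tape : ℤ → M.Γ
  /-- the position of the head on the work tape -/
  pos : ℤ

/-- The symbol in cell `i` of the input tape when the input is `w`: the letters of `w` stand in
the cells `0, 1, ..., |w| - 1`, all other cells are blank. -/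
def inputSymbol (w : List A) (i : ℤ) : M.Γ :=
  if 0 ≤ i then (w[i.toNat]?).elim M.blank M.ι else M.blank

/-- The initial configuration. -/
def init : M.Cfg := ⟨M.start, 0, fun _ => M.blank, 0⟩

/-- One step on the input `w`. -/
def Step (w : List A) (c c' : M.Cfg) : Prop :=
  ∃ q y d e, (q, y, d, e) ∈ M.δ c.state (M.inputSymbol w c.inPos) (c.tape c.pos) ∧
    c' = ⟨q, c.inPos + d.toInt, Function.update c.tape c.pos y, c.pos + e.toInt⟩

/-- `c 0, c 1, ..., c n` is a computation of `M` on the input `w`. -/
def IsComputation (w : List A) (n : ℕ) (c : ℕ → M.Cfg) : Prop :=
  c 0 = M.init ∧ ∀ i < n, M.Step w (c i) (c (i + 1))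

/-- The number of cells of the work tape visited by `c 0, c 1, ..., c n`. -/
def visited (n : ℕ) (c : ℕ → M.Cfg) : ℕ :=
  ((Finset.range (n + 1)).image fun i => (c i).pos).card

/-- The language accepted by `M`. -/
def language : Language A :=
  {w | ∃ n c, M.IsComputation w n c ∧ (c n).state ∈ M.acc}

/-- `M` is deterministic: there is never more than one possible action. -/
def Deterministic : Prop := ∀ q x y, (M.δ q x y).Subsingleton

/-- The head of the input tape never leaves the input word and the two blank cells next to
it. -/
def InputBounded : Prop :=
  ∀ w n c, M.IsComputation w n c → -1 ≤ (c n).inPos ∧ (c n).inPos ≤ w.length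

/-- `M` is linearly bounded: for some constants `a`, `b`, every computation on a word of length
`n` visits at most `a * n + b` cells of the work tape. -/
def LinearlyBounded : Prop :=
  ∃ a b : ℕ, ∀ w n c, M.IsComputation w n c → M.visited n c ≤ a * w.length + b

end Machine

/-- The context-sensitive languages over `A`: the languages accepted by nondeterministic
linearly bounded machines. -/
def CS (A : Type) : Set (Language A) :=
  {L | ∃ M : Machine A, M.InputBounded ∧ M.LinearlyBounded ∧ M.language = L}

/-- The deterministic context-sensitive languages over `A`: the languages accepted by
deterministic linearly bounded machines. -/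
def DCS (A : Type) : Set (Language A) :=
  {L | ∃ M : Machine A, M.Deterministic ∧ M.InputBounded ∧ M.LinearlyBounded ∧
    M.language = L}

end Pool.Agent.Lib.LinSpace
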