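import Pool.Agent.Lib.LinSpace.Cmd

/-!
Basic stack programs with space bounds.
-/

set_option autoImplicit false
set_option linter.unusedSimpArgs false

namespace Pool.Agent.Lib.LinSpace

/-- Programs that do not read the input. -/
abbrev Prog := Cmd Empty

/-- All stacks empty. -/
def E : St := fun _ => []

/-- Put a new stack in front. -/
def cs (x : List Bool) (s : St) : St
  | 0 => x
  | k + 1 => s k

@[simp] theorem cs_zero (x : List Bool) (s : St) : cs x s 0 = x := rfl
@[simp] theorem cs_succ (x : List Bool) (s : St) (k : ℕ) : cs x s (k + 1) = s k := rfl
@[simp] theorem E_apply (k : ℕ) : (E : St) k = [] := rfl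

@[simp] theorem update_cs_zero (x y : List Bool) (s : St) :
    Function.update (cs x s) 0 y = cs y s := by
  funext k
  cases k with
  | zero => simp
  | succ k => simp [Function.update_of_ne]

@[simp] theorem update_cs_succ (x y : List Bool) (s : St) (k : ℕ) :
    Function.update (cs x s) (k + 1) y = cs x (Function.update s k y) := by
  funext j
  cases j with
  | zero => simp [Function.update_of_ne]
  | succ j =>
    by_cases h : j = k
    · subst h; simp
    · rw [Function.update_of_ne (by omega), cs_succ, cs_succ, Function.update_of_ne h]

@[simp] theorem update_E_zero (y : List Bool) : Function.update (E : St) 0 y = cs y E := by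
  funext k
  cases k with
  | zero => simp
  | succ k => simp [Function.update_of_ne]

@[simp] theorem update_E_succ (k : ℕ) (y : List Bool) :
    Function.update (E : St) (k + 1) y = cs [] (Function.update E k y) := by
  funext j
  cases j with
  | zero => simp [Function.update_of_ne]
  | succ j =>
    by_cases h : j = k
    · subst h; simp
    · rw [Function.update_of_ne (by omega), cs_succ, E_apply, Function.update_of_ne h, E_apply]

@[simp] theorem cs_nil_E : cs [] (E : St) = E := by
  funext k; cases k <;> rfl

/-- `Runs m c s s'`: the program `c` leads from `s` to `s'` without pushing above height `m`. -/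
def Runs (m : ℕ) (c : Prog) (s s' : St) : Prop := Exec m c [] s [] s'

theorem Runs.mono {m m' : ℕ} {c : Prog} {s s' : St} (h : Runs m c s s') (hm : m ≤ m') :
    Runs m' c s s' := Exec.mono hm h

theorem Runs.to {m m' : ℕ} {c : Prog} {s s' s'' : St} (h : Runs m c s s') (hs : s' = s'')
    (hm : m ≤ m') : Runs m' c s s'' := hs ▸ h.mono hm

theorem Runs.fits {m : ℕ} {c : Prog} {s s' : St} (h : Runs m c s s') (hs : Fits m s) :
    Fits m s' := Exec.fits h hs

variable {m : ℕ}

theorem Runs.skip (s : St) : Runs m .skip s s := Exec.skip _ s

theorem Runs.push (k : ℕ) (a : Bool) (s : St) (h : (s k).length + 1 ≤ m) :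
    Runs m (.push k a) s (Function.update s k (a :: s k)) := Exec.push k a _ s h

theorem Runs.pop (k : ℕ) (s : St) :
    Runs m (.pop k) s (Function.update s k (s k).tail) := Exec.pop k _ s

theorem Runs.seq {c d : Prog} {s s' s'' : St} (h1 : Runs m c s s')
    (h2 : Runs m d s' s'') : Runs m (.seq c d) s s'' := Exec.seq h1 h2

theorem Runs.case {k : ℕ} {f : Option Bool → Prog} {s s' : St}
    (h : Runs m (f (s k).head?) s s') : Runs m (.case k f) s s' := Exec.case h

theorem Runs.loop_nil {k : ℕ} {f : Bool → Prog} {s : St} (h : s k = []) :
    Runs m (.loop k f) s s := Exec.loop_nil h

theorem Runs.loop_cons {k : ℕ} {f : Bool → Prog} {s s' s'' : St} {a : Bool} {l : List Bool}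
    (h : s k = a :: l) (h1 : Runs m (f a) (Function.update s k l) s')
    (h2 : Runs m (.loop k f) s' s'') : Runs m (.loop k f) s s'' := Exec.loop_cons h h1 h2

/-- Shift all stack indices by `j`. -/
def Cmd.shift {A : Type} (j : ℕ) : Cmd A → Cmd A
  | .skip => .skip
  | .push k a => .push (k + j) a
  | .pop k => .pop (k + j)
  | .seq c d => .seq (c.shift j) (d.shift j)
  | .case k f => .case (k + j) fun o => (f o).shift j
  | .loop k f => .loop (k + j) fun a => (f a).shift j
  | .read f => .read fun o => (f o).shift j

theorem Exec.shift_one {A : Type} {c : Cmd A} {w w' : List A} {s s' : St} (x : List Bool)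
    (h : Exec m c w s w' s') : Exec m (c.shift 1) w (cs x s) w' (cs x s') := by
  induction h with
  | skip w s => exact .skip _ _
  | push k a w s hk =>
    have := Exec.push (A := A) (m := m) (k + 1) a w (cs x s) hk
    simpa [Cmd.shift] using this
  | pop k w s =>
    have := Exec.pop (A := A) (m := m) (k + 1) w (cs x s)
    simpa [Cmd.shift] using this
  | seq _ _ ih1 ih2 => exact .seq ih1 ih2
  | case _ ih => exact .case ih
  | loop_nil h => exact .loop_nil h
  | loop_cons hs _ _ ih1 ih2 =>
    refine .loop_cons (l := _) hs ?_ ih2
    rw [update_cs_succ]
    exact ih1
  | read _ ih => exact .read ih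

theorem Cmd.shift_shift {A : Type} (i j : ℕ) (c : Cmd A) :
    (c.shift i).shift j = c.shift (i + j) := by
  induction c with
  | skip => rfl
  | push k a => simp [Cmd.shift, Nat.add_assoc]
  | pop k => simp [Cmd.shift, Nat.add_assoc]
  | seq c d ih1 ih2 => simp [Cmd.shift, ih1, ih2]
  | case k f ih => simp [Cmd.shift, ih, Nat.add_assoc]
  | loop k f ih => simp [Cmd.shift, ih, Nat.add_assoc]
  | read f ih => simp [Cmd.shift, ih]

theorem Runs.shift1 {c : Prog} {s s' : St} (h : Runs m c s s') (x : List Bool) :
    Runs m (c.shift 1) (cs x s) (cs x s') := Exec.shift_one x h

theorem Runs.shift2 {c : Prog} {s s' : St} (h : Runs m c s s') (x y : List Bool) :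
    Runs m (c.shift 2) (cs x (cs y s)) (cs x (cs y s')) := by
  have := (h.shift1 y).shift1 x
  rwa [Cmd.shift_shift] at this

theorem Runs.shift4 {c : Prog} {s s' : St} (h : Runs m c s s') (x y z w : List Bool) :
    Runs m (c.shift 4) (cs x (cs y (cs z (cs w s)))) (cs x (cs y (cs z (cs w s')))) := by
  have := (h.shift2 z w).shift2 x y
  rwa [Cmd.shift_shift] at this

/-- Empty the stack `i`. -/
def clr (i : ℕ) : Prog := .loop i fun _ => .skip

theorem runs_clr (i : ℕ) (s : St) : Runs m (clr i) s (Function.update s i []) := by
  generalize hl : s i = l
  induction l generalizing s with
  | nil =>
    have : Function.update s i [] = s := by rw [← hl]; simp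
    rw [this]
    exact Runs.loop_nil hl
  | cons a l ih =>
    have h2 := ih (Function.update s i l) (by simp)
    rw [Function.update_idem] at h2
    exact Runs.loop_cons hl (Runs.skip _) h2

/-- Move the content of the stack `i` to the stack `j` (reversing it). -/
def mv (i j : ℕ) : Prog := .loop i fun a => .push j a

theorem runs_mv {i j : ℕ} (hij : i ≠ j) (s : St) (hm : (s i).length + (s j).length ≤ m) :
    Runs m (mv i j) s (Function.update (Function.update s i []) j ((s i).reverse ++ s j)) := by
  generalize hl : s i = l at hm
  induction l generalizing s with
  | nil =>
    have e : Function.update s i [] = s := by rw [← hl, Function.update_eq_self]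
    have : Function.update (Function.update s i []) j (([] : List Bool).reverse ++ s j) = s := by
      rw [e]; simp
    rw [this]
    exact Runs.loop_nil hl
  | cons a l ih =>
    have h2 := ih (Function.update (Function.update s i l) j
      (a :: (Function.update s i l) j)) (by
        rw [Function.update_of_ne hij, Function.update_self]) (by
        rw [Function.update_self, Function.update_of_ne hij.symm]
        simp only [List.length_cons] at hm ⊢
        omega)
    refine Runs.loop_cons hl (Runs.push _ _ _ ?_) ?_
    · rw [Function.update_of_ne hij.symm]
      simp only [List.length_cons] at hm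
      omega
    · refine cast ?_ h2
      congr 1
      rw [Function.update_comm hij.symm, Function.update_idem, Function.update_idem,
        Function.update_self, Function.update_of_ne hij.symm]
      simp

/-- Move the content of the stack `i` to both stacks `j` and `k` (reversing it). -/
def mv2 (i j k : ℕ) : Prog := .loop i fun a => .seq (.push j a) (.push k a)

theorem runs_mv2 {i j k : ℕ} (hij : i ≠ j) (hik : i ≠ k) (hjk : j ≠ k) (s : St)
    (hm : (s i).length + (s j).length ≤ m) (hm' : (s i).length + (s k).length ≤ m) :
    Runs m (mv2 i j k) s (Function.update (Function.update (Function.update s i []) j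
      ((s i).reverse ++ s j)) k ((s i).reverse ++ s k)) := by
  generalize hl : s i = l at hm hm'
  induction l generalizing s with
  | nil =>
    have e : Function.update s i [] = s := by rw [← hl, Function.update_eq_self]
    have : Function.update (Function.update (Function.update s i []) j
      (([] : List Bool).reverse ++ s j)) k (([] : List Bool).reverse ++ s k) = s := by
      rw [e]; simp
    rw [this]
    exact Runs.loop_nil hl
  | cons a l ih =>
    simp only [List.length_cons] at hm hm'
    have e1 : Function.update (Function.update (Function.update s i l) j
        (a :: (Function.update s i l) j)) k (a :: (Function.update (Function.update s i l) j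
        (a :: (Function.update s i l) j)) k) =
        Function.update (Function.update (Function.update s i l) j (a :: s j)) k (a :: s k) := by
      rw [Function.update_of_ne hij.symm, Function.update_of_ne hjk.symm,
        Function.update_of_ne hik.symm]
    have h2 := ih (Function.update (Function.update (Function.update s i l) j
      (a :: s j)) k (a :: s k)) (by
        rw [Function.update_of_ne hik, Function.update_of_ne hij, Function.update_self]) (by
        rw [Function.update_of_ne hjk, Function.update_self, List.length_cons]; omega) (by
        rw [Function.update_self, List.length_cons]; omega)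
    refine Runs.loop_cons hl ((Runs.push _ _ _ ?_).seq (Runs.push _ _ _ ?_)) ?_
    · rw [Function.update_of_ne hij.symm]; omega
    · rw [Function.update_of_ne hjk.symm, Function.update_of_ne hik.symm]; omega
    · rw [e1]
      refine cast ?_ h2
      congr 1
      funext m
      by_cases hk : m = k
      · subst hk; simp
      · by_cases hj : m = j
        · subst hj
          simp [Function.update_of_ne hk]
        · by_cases hi : m = i
          · subst hi
            simp [Function.update_of_ne hk, Function.update_of_ne hj]
          · simp [Function.update_of_ne hk, Function.update_of_ne hj, Function.update_of_ne hi]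

/-- Copy the stack `i` on top of the stack `j` with the help of the empty stack `t`. -/
def cp (i j t : ℕ) : Prog := .seq (mv i t) (mv2 t i j)

theorem runs_cp {i j t : ℕ} (hij : i ≠ j) (hit : i ≠ t) (hjt : j ≠ t) (s : St)
    (ht : s t = []) (hm : (s i).length + (s j).length ≤ m) :
    Runs m (cp i j t) s (Function.update s j (s i ++ s j)) := by
  have h1 := runs_mv (m := m) hit s (by rw [ht]; simp; omega)
  have h2 := runs_mv2 (m := m) hit.symm hjt.symm hij
    (Function.update (Function.update s i []) t ((s i).reverse ++ s t)) (by
      simp [ht, hit]; omega) (by simp [ht, hjt, hij.symm]; omega)
  refine cast ?_ (h1.seq h2)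
  congr 1
  funext m
  by_cases hj : m = j
  · subst hj
    simp [ht, hjt, hij.symm]
  · by_cases hi : m = i
    · subst hi
      simp [ht, hj, hit]
    · by_cases hmt : m = t
      · subst hmt
        simp [Function.update_of_ne hj, Function.update_of_ne hi, ht]
      · simp [Function.update_of_ne hj, Function.update_of_ne hi, Function.update_of_ne hmt]

/-- Write a word on top of the stack `j`. -/
def wr (j : ℕ) : List Bool → Prog
  | [] => .skip
  | a :: l => .seq (wr j l) (.push j a)

theorem runs_wr (j : ℕ) (l : List Bool) (s : St) (hm : l.length + (s j).length ≤ m) :
    Runs m (wr j l) s (Function.update s j (l ++ s j)) := by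
  induction l with
  | nil =>
    have : Function.update s j ([] ++ s j) = s := by simp
    rw [this]
    exact Runs.skip s
  | cons a l ih =>
    simp only [List.length_cons] at hm
    have h2 := (ih (by omega)).seq (Runs.push j a _ (by
      rw [Function.update_self, List.length_append]; omega))
    refine cast ?_ h2
    congr 1
    simp

/-! ### Trees and their codes -/

/-- Binary trees. -/
inductive Dat : Type
  | nil : Dat
  | cons (a b : Dat) : Dat

/-- The code of a tree, a word. -/
def code : Dat → List Bool
  | .nil => [false]
  | .cons a b => true :: (code a ++ code b)

theorem code_ne_nil (d : Dat) : code d ≠ [] := by cases d <;> simp [code]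

theorem code_length_pos (d : Dat) : 0 < (code d).length :=
  List.length_pos_of_ne_nil (code_ne_nil d)

theorem length_le_flatMap_code (ds : List Dat) : ds.length ≤ (ds.flatMap code).length := by
  induction ds with
  | nil => simp
  | cons d ds ih =>
    have := code_length_pos d
    simp only [List.flatMap_cons, List.length_append, List.length_cons]
    omega

/-- The loop of `item`. -/
def itemLoop (i j k : ℕ) : Prog :=
  .loop k fun _ => .case i fun o => match o with
    | some true => .seq (.pop i) (.seq (.push j true) (.seq (.push k false) (.push k false)))
    | some false => .seq (.pop i) (.push j false)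
    | none => .skip

/-- Move one code from the top of the stack `i` to the stack `j` (reversing it) with the help
of the empty stack `k`. -/
def item (i j k : ℕ) : Prog := .seq (.push k false) (itemLoop i j k)

theorem runs_itemLoop {i j k : ℕ} (hij : i ≠ j) (hik : i ≠ k) (hjk : j ≠ k) (n : ℕ) :
    ∀ (ds : List Dat) (rest : List Bool) (s : St), (ds.flatMap code).length = n →
      s i = ds.flatMap code ++ rest → s k = List.replicate ds.length false →
      n + (s j).length ≤ m →
      Runs m (itemLoop i j k) s (Function.update (Function.update (Function.update s i rest) j
        ((ds.flatMap code).reverse ++ s j)) k []) := by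
  induction n using Nat.strong_induction_on with
  | _ n ih =>
    intro ds rest s hn hi hk hm
    match ds with
    | [] =>
      simp only [List.flatMap_nil, List.nil_append, List.length_nil, List.replicate_zero] at hi hk
      have e : Function.update (Function.update (Function.update s i rest) j
          ((([] : List Dat).flatMap code).reverse ++ s j)) k [] = s := by
        rw [← hi, ← hk]; simp
      rw [e]
      exact Runs.loop_nil hk
    | .nil :: ds' =>
      have hk' : s k = false :: List.replicate ds'.length false := by
        rw [hk]; rfl
      have hi' : s i = false :: (ds'.flatMap code ++ rest) := by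
        rw [hi]; simp [code]
      have hlen : (ds'.flatMap code).length + 1 = n := by
        rw [← hn]; simp [code]
      set s1 : St := Function.update (Function.update (Function.update s k
        (List.replicate ds'.length false)) i (ds'.flatMap code ++ rest)) j (false :: s j) with hs1
      have key := ih (ds'.flatMap code).length (by omega) ds' rest s1 rfl
        (by simp [hs1, Function.update_of_ne hij])
        (by simp [hs1, Function.update_of_ne hjk.symm, Function.update_of_ne hik.symm])
        (by simp [hs1] at hlen ⊢; omega)
      refine (Runs.loop_cons hk' (s' := s1) ?_ key).to ?_ (le_refl _)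
      rotate_left
      · funext m
        by_cases h1 : m = k
        · subst h1; simp
        · by_cases h2 : m = j
          · subst h2
            simp [Function.update_of_ne h1, hs1, code, List.append_assoc]
          · by_cases h3 : m = i
            · subst h3
              simp [Function.update_of_ne h1, Function.update_of_ne h2]
            · simp [Function.update_of_ne h1, Function.update_of_ne h2, Function.update_of_ne h3,
                hs1]
      · apply Runs.case
        have : (Function.update s k (List.replicate ds'.length false) i).head? = some false := by
          rw [Function.update_of_ne hik, hi']; rfl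
        rw [this]
        refine ((Runs.pop i _).seq (Runs.push j false _ ?_)).to ?_ (le_refl _)
        · rw [Function.update_of_ne hij.symm, Function.update_of_ne hjk]; omega
        · funext m
          by_cases h2 : m = j
          · subst h2
            simp [hs1, hij.symm, hjk]
          · by_cases h3 : m = i
            · subst h3
              simp [Function.update_of_ne h2, hs1, hik, hi']
            · simp [Function.update_of_ne h2, Function.update_of_ne h3, hs1]
    | .cons a b :: ds' =>
      have hk' : s k = false :: List.replicate ds'.length false := by
        rw [hk]; rfl
      have hi' : s i = true :: ((a :: b :: ds').flatMap code ++ rest) := by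
        rw [hi]; simp [code]
      have hlen : ((a :: b :: ds').flatMap code).length + 1 = n := by
        rw [← hn]; simp [code]
      have hlen2 := length_le_flatMap_code (a :: b :: ds')
      simp only [List.length_cons] at hlen2
      set s1 : St := Function.update (Function.update (Function.update s k
        (List.replicate (a :: b :: ds').length false)) i ((a :: b :: ds').flatMap code ++ rest)) j
        (true :: s j) with hs1
      have key := ih ((a :: b :: ds').flatMap code).length (by omega) (a :: b :: ds') rest s1 rfl
        (by simp [hs1, Function.update_of_ne hij])
        (by simp [hs1, Function.update_of_ne hjk.symm, Function.update_of_ne hik.symm])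
        (by rw [hs1, Function.update_self, List.length_cons]; omega)
      refine (Runs.loop_cons hk' (s' := s1) ?_ key).to ?_ (le_refl _)
      rotate_left
      · funext m
        by_cases h1 : m = k
        · subst h1; simp
        · by_cases h2 : m = j
          · subst h2
            simp [Function.update_of_ne h1, hs1, code, List.append_assoc]
          · by_cases h3 : m = i
            · subst h3
              simp [Function.update_of_ne h1, Function.update_of_ne h2]
            · simp [Function.update_of_ne h1, Function.update_of_ne h2, Function.update_of_ne h3,
                hs1]
      · apply Runs.case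
        have : (Function.update s k (List.replicate ds'.length false) i).head? = some true := by
          rw [Function.update_of_ne hik, hi']; rfl
        rw [this]
        refine ((Runs.pop i _).seq ((Runs.push j true _ ?_).seq ((Runs.push k false _ ?_).seq
          (Runs.push k false _ ?_)))).to ?_ (le_refl _)
        · rw [Function.update_of_ne hij.symm, Function.update_of_ne hjk]; omega
        · rw [Function.update_of_ne hjk.symm, Function.update_of_ne hik.symm,
            Function.update_self, List.length_replicate]
          omega
        · rw [Function.update_self, List.length_cons, Function.update_of_ne hjk.symm,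
            Function.update_of_ne hik.symm, Function.update_self, List.length_replicate]
          omega
        · funext m
          by_cases h1 : m = k
          · subst h1
            simp [hs1, hik.symm, hjk.symm, List.replicate_succ]
          · by_cases h2 : m = j
            · subst h2
              simp [hs1, hij.symm, h1]
            · by_cases h3 : m = i
              · subst h3
                simp [h1, h2, hs1, hi']
              · simp [h1, h2, h3, hs1]

theorem runs_item {i j k : ℕ} (hij : i ≠ j) (hik : i ≠ k) (hjk : j ≠ k) (d : Dat)
    (rest : List Bool) (s : St) (hi : s i = code d ++ rest) (hk : s k = [])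
    (hm : (code d).length + (s j).length ≤ m) :
    Runs m (item i j k) s
      (Function.update (Function.update s i rest) j ((code d).reverse ++ s j)) := by
  have hpos := code_length_pos d
  have h2 := runs_itemLoop (m := m) hij hik hjk (code d).length [d] rest
    (Function.update s k (false :: s k)) (by simp)
    (by rw [Function.update_of_ne hik, hi]; simp) (by simp [hk])
    (by rw [Function.update_of_ne hjk]; exact hm)
  refine ((Runs.push k false s (by rw [hk]; simp; omega)).seq h2).to ?_ (le_refl _)
  funext m
  by_cases e1 : m = k
  · subst e1; simp [hik.symm, hjk.symm, hk]
  · by_cases e2 : m = j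
    · subst e2
      simp [e1]
    · by_cases e3 : m = i
      · subst e3
        simp [e1, e2]
      · simp [e1, e2, e3]

end Pool.Agent.Lib.LinSpace
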