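import Pool.Agent.Lib.LinSpace.Shrink

/-!
Recursive nondeterministic algorithms whose guesses shrink geometrically, while the instances
themselves are only linearly bounded in the size of the first instance: the instances are not
stored, but recomputed from the first instance and the current guesses.
-/

set_option autoImplicit false
set_option linter.unusedSimpArgs false

namespace Pool.Agent.Lib.LinSpace

variable {α β γ σ δ ω : Type} [Enc α] [Enc β] [Enc γ] [Enc σ] [Enc δ] [Enc ω]

/-- The guess written in a word. -/
noncomputable def gu (β : Type) [Enc β] [Rd β] (w : List Bool) : β := Rd.rd (parse w)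

theorem lin_gu [Rd β] {u : α → List Bool} (hu : Lin u) : Lin (fun x => gu β (u x)) :=
  Rd.lin.comp (Lin.parse hu)

/-- The numerical conditions on the subinstances. -/
def okB (m : α → List Bool) (chk : α × β → Bool) (ch : (α × β) × Bool → α) (B : ℕ)
    (p : α × β) : Prop :=
  chk p = true ∧ ∀ b, sz (ch (p, b)) ≤ B ∧ 10 * (m (ch (p, b))).length ≤ 9 * (m p.1).length

/-- The instances accepted by the recursive algorithm: `base` recognizes the instances which are
decided by `bval`; for the others a guess is made and tested by `chk`, and both subinstances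
given by `ch` are solved recursively. -/
inductive Rec [Rd β] (C : ℕ) (base bval : α → Bool) (m : α → List Bool) (chk : α × β → Bool)
    (ch : (α × β) × Bool → α) (B : ℕ) : α → Prop
  | base {x : α} : base x = true → bval x = true → Rec C base bval m chk ch B x
  | node {x : α} {j : ℕ} : base x = false → 0 < j → j < 2 ^ (C * (m x).length + C + 1) →
      okB m chk ch B (x, gu β (bits (C * (m x).length + C + 1) j)) →
      (∀ b, Rec C base bval m chk ch B
        (ch ((x, gu β (bits (C * (m x).length + C + 1) j)), b))) →
      Rec C base bval m chk ch B x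

section Recall

variable [Rd β] {C K : ℕ} {base bval : α → Bool} {m : α → List Bool} {chk : α × β → Bool}
  {ch : (α × β) × Bool → α}

/-- Small guesses are sufficient. -/
theorem Rec.guess {B : ℕ} {x : α} {y : β} (hb : base x = false)
    (hy : sz y ≤ C * (m x).length + C) (hok : okB m chk ch B (x, y))
    (h : ∀ b, Rec C base bval m chk ch B (ch ((x, y), b))) : Rec C base bval m chk ch B x := by
  set N := C * (m x).length + C + 1 with hN
  have hlen : (word y ++ List.replicate (N - sz y) true).length = N := by
    rw [List.length_append, List.length_replicate]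
    have : (word y).length = sz y := rfl
    omega
  obtain ⟨j, hj, hw⟩ := exists_bits (word y ++ List.replicate (N - sz y) true)
  rw [hlen] at hj hw
  have hparse : gu β (bits N j) = y := by
    rw [hw, gu, word, parse_code, Rd.rd_enc]
  have hj0 : 0 < j := by
    rcases Nat.eq_zero_or_pos j with h | h
    · exfalso
      rw [h, bits_zero] at hw
      have h1 : true ∈ word y ++ List.replicate (N - sz y) true := by
        rw [List.mem_append, List.mem_replicate]
        right
        exact ⟨by omega, rfl⟩
      rw [← hw, List.mem_replicate] at h1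
      simp at h1
    · exact h
  refine Rec.node (j := j) hb hj0 hj ?_ ?_
  · rw [← hN, hparse]; exact hok
  · rw [← hN, hparse]; exact h

/-- The numerical conditions, as a test. -/
def okF (K : ℕ) (m : α → List Bool) (chk : α × β → Bool) (ch : (α × β) × Bool → α)
    (p : α × (α × β)) : Bool :=
  chk p.2 && ((decide ((List.replicate (sz (ch (p.2, false))) false).length ≤
      (rep K (List.replicate (sz p.1) false) ++ List.replicate K false).length) &&
    decide ((rep 10 (m (ch (p.2, false)))).length ≤ (rep 9 (m p.2.1)).length)) &&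
    (decide ((List.replicate (sz (ch (p.2, true))) false).length ≤
      (rep K (List.replicate (sz p.1) false) ++ List.replicate K false).length) &&
    decide ((rep 10 (m (ch (p.2, true)))).length ≤ (rep 9 (m p.2.1)).length)))

omit [Enc β] [Rd β] in
theorem okF_iff {p : α × (α × β)} : okF K m chk ch p = true ↔
    okB m chk ch (K * sz p.1 + K) p.2 := by
  simp only [okF, okB, Bool.and_eq_true, decide_eq_true_eq, rep_length, List.length_replicate,
    List.length_append, Bool.forall_bool]

omit [Rd β] in
theorem lin_okF (hm : Lin m) (hc : Lin chk) (hs : Lin ch) : Lin (okF K m chk ch) := by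
  have h1 : ∀ b : Bool, Lin (fun p : α × (α × β) => ch (p.2, b)) := fun b =>
    hs.comp (Lin.snd.pair (Lin.const b))
  have h2 : Lin (fun p : α × (α × β) => rep K (List.replicate (sz p.1) false) ++
      List.replicate K false) := ((Lin.rep (Lin.unary.comp Lin.fst) K)).append (Lin.const _)
  have h3 : Lin (fun p : α × (α × β) => rep 9 (m p.2.1)) :=
    Lin.rep (hm.comp (Lin.fst.comp Lin.snd)) 9
  have h4 : ∀ b : Bool, Lin (fun p : α × (α × β) =>
      decide ((List.replicate (sz (ch (p.2, b))) false).length ≤
      (rep K (List.replicate (sz p.1) false) ++ List.replicate K false).length) &&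
    decide ((rep 10 (m (ch (p.2, b)))).length ≤ (rep 9 (m p.2.1)).length)) := fun b =>
    (Lin.lenLe (Lin.unary.comp (h1 b)) h2).and (Lin.lenLe (Lin.rep (hm.comp (h1 b)) 10) h3)
  exact (hc.comp Lin.snd).and ((h4 false).and (h4 true))

/-- Passing to a subinstance, if it is small. -/
noncomputable def gstep (K : ℕ) (ch : (α × β) × Bool → α) (p : α × (α × (List Bool × Bool))) :
    α :=
  if decide ((List.replicate (sz (ch ((p.2.1, gu β p.2.2.1), p.2.2.2))) false).length ≤
      (rep K (List.replicate (sz p.1) false) ++ List.replicate K false).length)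
  then ch ((p.2.1, gu β p.2.2.1), p.2.2.2) else p.2.1

theorem lin_gstep (hs : Lin ch) : Lin (gstep K ch) := by
  have h1 : Lin (fun p : α × (α × (List Bool × Bool)) => ch ((p.2.1, gu β p.2.2.1), p.2.2.2)) :=
    hs.comp (((Lin.fst.comp Lin.snd).pair (lin_gu (Lin.fst.comp (Lin.snd.comp Lin.snd)))).pair
      (Lin.snd.comp (Lin.snd.comp Lin.snd)))
  exact (Lin.lenLe (Lin.unary.comp h1) (((Lin.rep (Lin.unary.comp Lin.fst) K)).append
    (Lin.const _))).ite h1 (Lin.fst.comp Lin.snd)

theorem gstep_eq {x0 x : α} {w : List Bool} {b : Bool}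
    (h : sz (ch ((x, gu β w), b)) ≤ K * sz x0 + K) :
    gstep K ch (x0, (x, (w, b))) = ch ((x, gu β w), b) := by
  rw [gstep, if_pos]
  simp only [decide_eq_true_eq, rep_length, List.length_replicate, List.length_append]
  exact h

/-- The current instance. -/
noncomputable def cur (K : ℕ) (ch : (α × β) × Bool → α)
    (p : α × List (List Bool × Bool)) : α :=
  p.2.reverse.foldl (fun x f => gstep K ch (p.1, (x, f))) p.1

theorem cur_cons (x0 : α) (f : List Bool × Bool) (fr : List (List Bool × Bool)) :
    cur K ch (x0, f :: fr) = gstep K ch (x0, (cur K ch (x0, fr), f)) := by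
  simp [cur, List.foldl_append]

theorem sz_cur_le (x0 : α) (l : List (List Bool × Bool)) :
    sz (l.foldl (fun x f => gstep K ch (x0, (x, f))) x0) ≤ (K + 1) * sz x0 + K := by
  suffices H : ∀ x, sz x ≤ (K + 1) * sz x0 + K →
      sz (l.foldl (fun x f => gstep K ch (x0, (x, f))) x) ≤ (K + 1) * sz x0 + K by
    refine H x0 ?_
    rw [Nat.add_mul]; omega
  induction l with
  | nil => intro x hx; exact hx
  | cons f l ih =>
    intro x hx
    rw [List.foldl_cons]
    refine ih _ ?_
    obtain ⟨w, b⟩ := f
    unfold gstep
    split
    next h =>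
      simp only [decide_eq_true_eq, rep_length, List.length_replicate, List.length_append] at h
      rw [Nat.add_mul]
      refine h.trans ?_
      omega
    next => exact hx

theorem lin_cur (hs : Lin ch) : Lin (cur K ch) := by
  refine Lin.foldl (step := fun y : (α × List (List Bool × Bool)) × (α × (List Bool × Bool)) =>
    gstep K ch (y.1.1, y.2)) (Lin.reverse Lin.snd) Lin.fst
    ((lin_gstep hs).comp ((Lin.fst.comp Lin.fst).pair Lin.snd))
    (q := fun n => (K + 1) * n + K) ((LB.id.smul (K + 1)).add (LB.const K)) ?_
  intro x l' _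
  refine (sz_cur_le x.1 l').trans ?_
  have : sz x.1 ≤ sz x := by
    obtain ⟨a, b⟩ := x
    rw [sz_pair]; simp only; omega
  have := Nat.mul_le_mul_left (K + 1) this
  omega

/-- States of the search: the first instance, the stack of current guesses together with the
number of the subinstance considered, whether an instance has to be evaluated, and the value of
the last evaluation. -/
abbrev Sr (α : Type) := α × (List (List Bool × Bool) × (Bool × Bool))

/-- The first guess. -/
def zm (C : ℕ) (m : α → List Bool) (x : α) : List Bool :=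
  rep C ((m x).map fun _ => false) ++ List.replicate (C + 1) false

omit [Enc α] in
theorem zm_eq (x : α) : zm C m x = bits (C * (m x).length + C + 1) 0 := by
  rw [zm, List.map_const', rep_replicate, List.replicate_append_replicate, bits_zero,
    Nat.add_assoc]

theorem lin_zm (hm : Lin m) : Lin (zm C m) :=
  (Lin.rep (Lin.map' hm (Lin.const false)) C).append (Lin.const _)

/-- One step of the search. -/
noncomputable def rstep (C K : ℕ) (base bval : α → Bool) (m : α → List Bool)
    (chk : α × β → Bool) (ch : (α × β) × Bool → α) (s : Sr α) : Sr α :=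
  if s.2.2.1 then
    if base (cur K ch (s.1, s.2.1)) then (s.1, (s.2.1, (false, bval (cur K ch (s.1, s.2.1)))))
    else (s.1, ((zm C m (cur K ch (s.1, s.2.1)), false) :: s.2.1, (false, false)))
  else
    if s.2.2.2 then
      if (s.2.1.headD ([], false)).2 then (s.1, (s.2.1.tail, (false, true)))
      else (s.1, (((s.2.1.headD ([], false)).1, true) :: s.2.1.tail, (true, false)))
    else
      if (s.2.1.headD ([], false)).1.all id then (s.1, (s.2.1.tail, (false, false)))
      else
        if okF K m chk ch (s.1, (cur K ch (s.1, s.2.1.tail),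
            gu β (incr (s.2.1.headD ([], false)).1))) then
          (s.1, ((incr (s.2.1.headD ([], false)).1, false) :: s.2.1.tail, (true, false)))
        else (s.1, ((incr (s.2.1.headD ([], false)).1, false) :: s.2.1.tail, (false, false)))

theorem lin_rstep (hb : Lin base) (hv : Lin bval) (hm : Lin m) (hc : Lin chk) (hs : Lin ch) :
    Lin (rstep C K base bval m chk ch) := by
  have hfr : Lin (fun s : Sr α => s.2.1) := Lin.fst.comp Lin.snd
  have hh : Lin (fun s : Sr α => s.2.1.headD ([], false)) := hfr.headD _
  have hh1 : Lin (fun s : Sr α => (s.2.1.headD ([], false)).1) := Lin.fst.comp hh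
  have hh2 : Lin (fun s : Sr α => (s.2.1.headD ([], false)).2) := Lin.snd.comp hh
  have ht : Lin (fun s : Sr α => s.2.1.tail) := hfr.tail
  have hinc : Lin (fun s : Sr α => incr (s.2.1.headD ([], false)).1) := Lin.incr hh1
  have hcur : Lin (fun s : Sr α => cur K ch (s.1, s.2.1)) :=
    (lin_cur hs).comp (Lin.fst.pair hfr)
  have hcur' : Lin (fun s : Sr α => cur K ch (s.1, s.2.1.tail)) :=
    (lin_cur hs).comp (Lin.fst.pair ht)
  refine (Lin.fst.comp (Lin.snd.comp Lin.snd)).ite ((hb.comp hcur).ite
    (Lin.fst.pair (hfr.pair ((Lin.const false).pair (hv.comp hcur))))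
    (Lin.fst.pair (((((lin_zm hm).comp hcur).pair (Lin.const false)).cons hfr).pair
      (Lin.const _)))) ((Lin.snd.comp (Lin.snd.comp Lin.snd)).ite (hh2.ite
    (Lin.fst.pair (ht.pair (Lin.const _)))
    (Lin.fst.pair (((hh1.pair (Lin.const true)).cons ht).pair (Lin.const _))))
    ((Lin.all hh1).ite (Lin.fst.pair (ht.pair (Lin.const _)))
      (((lin_okF hm hc hs).comp (Lin.fst.pair (hcur'.pair (lin_gu hinc)))).ite
        (Lin.fst.pair (((hinc.pair (Lin.const false)).cons ht).pair (Lin.const _)))
        (Lin.fst.pair (((hinc.pair (Lin.const false)).cons ht).pair (Lin.const _))))))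

/-- The condition of the main loop. -/
def rcond (s : Sr α) : Bool := s.2.2.1 || !s.2.1.isEmpty

theorem sz_sr (x0 : α) (fr : List (List Bool × Bool)) (b v : Bool) :
    sz ((x0, (fr, (b, v))) : Sr α) ≤ sz x0 + sz fr + 9 := by
  rw [sz_pair, sz_pair, sz_pair]
  have := sz_bool b
  have := sz_bool v
  omega

/-- The bound for the space used by a call. -/
def bd (C : ℕ) (x0 : α) (fr : List (List Bool × Bool)) (k : ℕ) : ℕ :=
  sz x0 + sz fr + (4 * C + 20) * (20 * k + 2)

theorem bd_cons {x0 : α} {fr : List (List Bool × Bool)} {w : List Bool} {b : Bool} {k k' : ℕ}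
    (hw : w.length = C * k + C + 1) (hk : 10 * k' ≤ 9 * k) (hpos : 1 ≤ k) :
    bd C x0 ((w, b) :: fr) k' ≤ bd C x0 fr k := by
  have h1 := sz_word_bool w
  have h2 := sz_bool b
  rw [bd, bd, sz_cons, sz_pair]
  have h3 : (4 * C + 20) * (k + 1) + (4 * C + 20) * (20 * k' + 2) ≤
      (4 * C + 20) * (20 * k + 2) := by
    rw [← Nat.mul_add]
    exact Nat.mul_le_mul_left _ (by omega)
  have h4 : sz w + sz b + 2 ≤ (4 * C + 20) * (k + 1) := by
    have : (4 * C + 20) * (k + 1) = 4 * (C * k) + 20 * k + (4 * C + 20) := by ring
    omega
  omega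

theorem sz_le_bd {x0 : α} {fr : List (List Bool × Bool)} {b v : Bool} {k : ℕ} :
    sz ((x0, (fr, (b, v))) : Sr α) ≤ bd C x0 fr k := by
  have h1 := sz_sr x0 fr b v
  have h2 : (4 * C + 20) * 2 ≤ (4 * C + 20) * (20 * k + 2) := Nat.mul_le_mul_left _ (by omega)
  rw [bd]
  omega

theorem sz_le_bd_cons {x0 : α} {fr : List (List Bool × Bool)} {w : List Bool} {c b v : Bool}
    {k : ℕ} (hw : w.length = C * k + C + 1) (hpos : 1 ≤ k) :
    sz ((x0, ((w, c) :: fr, (b, v))) : Sr α) ≤ bd C x0 fr k :=
  (sz_le_bd (C := C) (k := 0)).trans (bd_cons hw (by omega) hpos)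

theorem rec_guess {n : ℕ} {x0 : α}
    (ih : ∀ fr, (m (cur K ch (x0, fr))).length < n → ∀ b, ∃ v,
      (v = true ↔ Rec C base bval m chk ch (K * sz x0 + K) (cur K ch (x0, fr))) ∧
      Go rcond (rstep C K base bval m chk ch) (bd C x0 fr (m (cur K ch (x0, fr))).length)
        (x0, (fr, (true, b))) (x0, (fr, (false, v))))
    (fr : List (List Bool × Bool)) (hn : (m (cur K ch (x0, fr))).length = n) (hpos : 1 ≤ n)
    (r : ℕ) : ∀ i, i < 2 ^ (C * n + C + 1) → 2 ^ (C * n + C + 1) - 1 - i = r → ∀ c,
      ∃ v, (v = true ↔ ∃ j, i < j ∧ j < 2 ^ (C * n + C + 1) ∧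
          okB m chk ch (K * sz x0 + K) (cur K ch (x0, fr), gu β (bits (C * n + C + 1) j)) ∧
          ∀ b, Rec C base bval m chk ch (K * sz x0 + K)
            (ch ((cur K ch (x0, fr), gu β (bits (C * n + C + 1) j)), b))) ∧
        Go rcond (rstep C K base bval m chk ch) (bd C x0 fr n)
          (x0, ((bits (C * n + C + 1) i, c) :: fr, (false, false)))
          (x0, (fr, (false, v))) := by
  set N := C * n + C + 1 with hN
  set z := cur K ch (x0, fr) with hz
  induction r with
  | zero =>
    intro i hi hr c
    refine ⟨false, ?_, Go.one (by simp [rcond]) (sz_le_bd_cons (bits_length _ _) hpos) ?_⟩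
    · simp only [Bool.false_eq_true, false_iff, not_exists, not_and]
      intro j h1 h2
      omega
    · have h1 : (bits N i).all id = true := (bits_all N i hi).2 (by omega)
      simp [rstep, h1]
  | succ r ihr =>
    intro i hi hr c
    have h1 : ¬ (bits N i).all id = true := by
      rw [bits_all N i hi]; omega
    have h2 : incr (bits N i) = bits N (i + 1) := incr_bits N i
    have hskip : ∀ v, (v = true ↔ ∃ j, i + 1 < j ∧ j < 2 ^ N ∧
          okB m chk ch (K * sz x0 + K) (z, gu β (bits N j)) ∧
          ∀ b, Rec C base bval m chk ch (K * sz x0 + K) (ch ((z, gu β (bits N j)), b))) →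
        ¬ (okB m chk ch (K * sz x0 + K) (z, gu β (bits N (i + 1))) ∧
          ∀ b, Rec C base bval m chk ch (K * sz x0 + K) (ch ((z, gu β (bits N (i + 1))), b))) →
        (v = true ↔ ∃ j, i < j ∧ j < 2 ^ N ∧
          okB m chk ch (K * sz x0 + K) (z, gu β (bits N j)) ∧
          ∀ b, Rec C base bval m chk ch (K * sz x0 + K) (ch ((z, gu β (bits N j)), b))) := by
      intro v hv hno
      rw [hv]
      constructor
      · rintro ⟨j, a, b⟩
        exact ⟨j, by omega, b⟩
      · rintro ⟨j, a, b, e⟩
        rcases Nat.lt_or_ge (i + 1) j with h | h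
        · exact ⟨j, h, b, e⟩
        · have : j = i + 1 := by omega
          subst this
          exact absurd e hno
    by_cases hc : okF K m chk ch (x0, (z, gu β (bits N (i + 1)))) = true
    · have hok := okF_iff.1 hc
      have s1 : Go rcond (rstep C K base bval m chk ch) (bd C x0 fr n)
          (x0, ((bits N i, c) :: fr, (false, false)))
          (x0, ((bits N (i + 1), false) :: fr, (true, false))) := by
        refine Go.one (by simp [rcond]) (sz_le_bd_cons (bits_length _ _) hpos) ?_
        simp only [rstep, List.headD_cons, Bool.false_eq_true, if_false, h1, h2,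
          List.tail_cons, ← hz, hc, if_true]
      have hcur : ∀ b, cur K ch (x0, (bits N (i + 1), b) :: fr) =
          ch ((z, gu β (bits N (i + 1))), b) := by
        intro b
        rw [cur_cons, ← hz]
        exact gstep_eq (hok.2 b).1
      have hlt : ∀ b, 10 * (m (ch ((z, gu β (bits N (i + 1))), b))).length ≤ 9 * n := by
        intro b
        have := (hok.2 b).2
        rwa [hn] at this
      have hcall : ∀ b, ∃ v, (v = true ↔ Rec C base bval m chk ch (K * sz x0 + K)
          (ch ((z, gu β (bits N (i + 1))), b))) ∧
          Go rcond (rstep C K base bval m chk ch) (bd C x0 fr n)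
          (x0, ((bits N (i + 1), b) :: fr, (true, false)))
          (x0, ((bits N (i + 1), b) :: fr, (false, v))) := by
        intro b
        obtain ⟨v, hv, hgo⟩ := ih ((bits N (i + 1), b) :: fr) (by
          rw [hcur b]
          have := hlt b
          omega) false
        rw [hcur b] at hv hgo
        exact ⟨v, hv, hgo.mono (bd_cons (bits_length _ _) (hlt b) hpos)⟩
      obtain ⟨v1, hv1, go1⟩ := hcall false
      have s2 := s1.trans go1
      cases v1 with
      | false =>
        obtain ⟨v, hv, hgo⟩ := ihr (i + 1) (by omega) (by omega) false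
        refine ⟨v, hskip v hv ?_, s2.trans hgo⟩
        rintro ⟨_, h4⟩
        exact absurd (hv1.2 (h4 false)) (by simp)
      | true =>
        have s3 : Go rcond (rstep C K base bval m chk ch) (bd C x0 fr n)
            (x0, ((bits N (i + 1), false) :: fr, (false, true)))
            (x0, ((bits N (i + 1), true) :: fr, (true, false))) := by
          refine Go.one (by simp [rcond]) (sz_le_bd_cons (bits_length _ _) hpos) ?_
          simp [rstep]
        obtain ⟨v2, hv2, go2⟩ := hcall true
        have s4 := (s2.trans s3).trans go2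
        cases v2 with
        | false =>
          obtain ⟨v, hv, hgo⟩ := ihr (i + 1) (by omega) (by omega) true
          refine ⟨v, hskip v hv ?_, s4.trans hgo⟩
          rintro ⟨_, h4⟩
          exact absurd (hv2.2 (h4 true)) (by simp)
        | true =>
          refine ⟨true, ?_, s4.trans (Go.one (by simp [rcond])
            (sz_le_bd_cons (bits_length _ _) hpos) (by simp [rstep]))⟩
          simp only [true_iff]
          refine ⟨i + 1, by omega, by omega, hok, ?_⟩
          intro b
          cases b with
          | false => exact hv1.1 rfl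
          | true => exact hv2.1 rfl
    · have s1 : Go rcond (rstep C K base bval m chk ch) (bd C x0 fr n)
          (x0, ((bits N i, c) :: fr, (false, false)))
          (x0, ((bits N (i + 1), false) :: fr, (false, false))) := by
        refine Go.one (by simp [rcond]) (sz_le_bd_cons (bits_length _ _) hpos) ?_
        simp only [rstep, List.headD_cons, Bool.false_eq_true, if_false, h1, h2,
          List.tail_cons, ← hz, hc]
      obtain ⟨v, hv, hgo⟩ := ihr (i + 1) (by omega) (by omega) false
      refine ⟨v, hskip v hv ?_, s1.trans hgo⟩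
      rintro ⟨h4, _⟩
      exact hc (okF_iff.2 h4)

theorem rec_main (hpos : ∀ x, base x = false → 1 ≤ (m x).length) (x0 : α) (n : ℕ) :
    ∀ fr, (m (cur K ch (x0, fr))).length < n → ∀ b, ∃ v,
      (v = true ↔ Rec C base bval m chk ch (K * sz x0 + K) (cur K ch (x0, fr))) ∧
      Go rcond (rstep C K base bval m chk ch) (bd C x0 fr (m (cur K ch (x0, fr))).length)
        (x0, (fr, (true, b))) (x0, (fr, (false, v))) := by
  induction n with
  | zero => intro fr h; omega
  | succ n ih =>
    intro fr hn b
    set z := cur K ch (x0, fr) with hz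
    rcases Bool.eq_false_or_eq_true (base z) with hb | hb
    · refine ⟨bval z, ?_, Go.one (by simp [rcond]) sz_le_bd ?_⟩
      · constructor
        · intro h; exact .base hb h
        · intro h
          cases h with
          | base _ h => exact h
          | node h => rw [hb] at h; simp at h
      · simp [rstep, ← hz, hb]
    · have hp := hpos z hb
      have s1 : Go rcond (rstep C K base bval m chk ch) (bd C x0 fr (m z).length)
          (x0, (fr, (true, b)))
          (x0, ((bits (C * (m z).length + C + 1) 0, false) :: fr, (false, false))) := by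
        refine Go.one (by simp [rcond]) sz_le_bd ?_
        simp only [rstep, if_true, ← hz, hb, Bool.false_eq_true, if_false, zm_eq]
      obtain ⟨v, hv, hgo⟩ := rec_guess (C := C) (base := base) (bval := bval) (chk := chk)
        (n := (m z).length) (x0 := x0) (fun fr' hfr' b' => ih fr' (by omega) b') fr rfl hp _ 0
        (Nat.two_pow_pos _) rfl false
      refine ⟨v, ?_, s1.trans hgo⟩
      rw [hv]
      constructor
      · rintro ⟨j, h1, h2, h3, h4⟩
        exact .node hb h1 h2 h3 h4
      · intro h
        cases h with
        | base h => rw [hb] at h; simp at h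
        | node _ h1 h2 h3 h4 => exact ⟨_, h1, h2, h3, h4⟩

/-- The recursive algorithm runs in linear space. -/
theorem lin_rec (hb : Lin base) (hv : Lin bval) (hm : Lin m) (hc : Lin chk)
    (hs : Lin ch) (hpos : ∀ x, base x = false → 1 ≤ (m x).length) {x0 : ω → α} (hx0 : Lin x0)
    {f : ω → Bool}
    (hf : ∀ w, f w = true ↔ Rec C base bval m chk ch (K * sz (x0 w) + K) (x0 w)) : Lin f := by
  obtain ⟨g3, hg3, Hg3⟩ := hm.size
  obtain ⟨g4, hg4, Hg4⟩ := hx0.size
  have key : Lin (fun w => ((x0 w, (([] : List (List Bool × Bool)), (false, f w))) : Sr α)) := by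
    refine Lin.while (init := fun w => (x0 w, (([] : List (List Bool × Bool)), (true, false))))
      (cond := rcond) (step := rstep C K base bval m chk ch)
      (hx0.pair ((Lin.const _).pair (Lin.const _)))
      ((Lin.fst.comp (Lin.snd.comp Lin.snd)).or (Lin.isEmpty (Lin.fst.comp Lin.snd)).not)
      (lin_rstep hb hv hm hc hs)
      (g := fun n => g4 n + 1 + (4 * C + 20) * (20 * g3 (g4 n) + 2) + 9)
      (((hg4.add (LB.const 1)).add ((((hg3.comp hg4).smul 20).add (LB.const 2)).smul _)).add
        (LB.const 9)) fun w => ?_
    have hcur : cur K ch (x0 w, []) = x0 w := rfl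
    obtain ⟨v, hv, n, hn, H⟩ := rec_main (C := C) (K := K) (bval := bval) (chk := chk)
      (ch := ch) hpos (x0 w) ((m (x0 w)).length + 1) [] (by rw [hcur]; omega) false
    rw [hcur] at hv H
    have hvf : v = f w := by
      rw [Bool.eq_iff_iff, hv, hf]
    have hB : bd C (x0 w) [] (m (x0 w)).length ≤
        g4 (sz w) + 1 + (4 * C + 20) * (20 * g3 (g4 (sz w)) + 2) := by
      have h1 := length_le_sz (m (x0 w))
      have h2 := Hg3 (x0 w)
      have h3 := hg3.1 (Hg4 w)
      have h4 := Hg4 w
      have h5 : (4 * C + 20) * (20 * (m (x0 w)).length + 2) ≤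
        (4 * C + 20) * (20 * g3 (g4 (sz w)) + 2) := Nat.mul_le_mul_left _ (by omega)
      rw [bd, sz_nil]
      omega
    refine ⟨n, fun i hi => (H i hi).1, ?_, fun i hi => ?_, ?_⟩
    · rw [hn]; simp [rcond]
    · rcases Nat.lt_or_ge i n with h | h
      · exact (H i h).2.trans (by omega)
      · have : i = n := by omega
        subst this
        rw [hn]
        have h1 := sz_sr (x0 w) ([] : List (List Bool × Bool)) false v
        have h2 := Hg4 w
        rw [sz_nil] at h1
        omega
    · rw [hn, hvf]
  exact Lin.snd.comp (Lin.snd.comp (Lin.snd.comp key))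

end Recall

end Pool.Agent.Lib.LinSpace
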