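import Pool.Agent.Lib.LinSpace.Shrink
import Pool.Agent.Lib.LinSpace.Load

section

/-!
Iterating a linear space function as long as one likes.
-/

set_option autoImplicit false
set_option linter.unusedSimpArgs false

namespace Pool.Agent.Lib.LinSpace

variable {α β γ σ δ : Type} [Enc α] [Enc β] [Enc γ] [Enc σ] [Enc δ]

omit [Enc σ] in
theorem iterate_eq_of_eq {f : σ → σ} {s : σ} {i j : ℕ} (h : f^[i] s = f^[j] s) (k : ℕ) :
    f^[i + k] s = f^[j + k] s := by
  rw [Nat.add_comm i, Nat.add_comm j, Function.iterate_add_apply, Function.iterate_add_apply, h]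

/-- There are fewer than `2 ^ (g + 1)` elements of size at most `g`. -/
theorem exists_eq_of_sz_le {g n : ℕ} (hn : 2 ^ (g + 1) ≤ n + 1) (s : ℕ → σ)
    (hs : ∀ i ≤ n, sz (s i) ≤ g) : ∃ i j, i < j ∧ j ≤ n ∧ s i = s j := by
  classical
  let F : ℕ → Fin (2 ^ (g + 1)) → Prop := fun i k =>
    bits (g + 1) k = word (s i) ++ List.replicate (g + 1 - sz (s i)) true
  have hF : ∀ i ≤ n, ∃ k, F i k := by
    intro i hi
    have hlen : (word (s i) ++ List.replicate (g + 1 - sz (s i)) true).length = g + 1 := by
      rw [List.length_append, List.length_replicate]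
      have : (word (s i)).length = sz (s i) := rfl
      have := hs i hi
      omega
    obtain ⟨k, hk, h⟩ := exists_bits (word (s i) ++ List.replicate (g + 1 - sz (s i)) true)
    rw [hlen] at hk h
    exact ⟨⟨k, hk⟩, h⟩
  have hinj : ∀ i j k, F i k → F j k → s i = s j := by
    intro i j k h1 h2
    have h3 : word (s i) ++ _ = word (s j) ++ _ := h1.symm.trans h2
    exact Enc.inj (code_append_inj h3).1
  have h0 : ∀ k, bits (g + 1) k = List.replicate (g + 1) false → ∀ i ≤ n, bits (g + 1) k ≠
      word (s i) ++ List.replicate (g + 1 - sz (s i)) true := by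
    intro k hk i hi h
    rw [hk] at h
    have h1 : true ∈ word (s i) ++ List.replicate (g + 1 - sz (s i)) true := by
      rw [List.mem_append, List.mem_replicate]
      right
      exact ⟨by have := hs i hi; omega, rfl⟩
    rw [← h, List.mem_replicate] at h1
    simp at h1
  choose! f hf using hF
  by_contra hcon
  push Not at hcon
  have hinj2 : Set.InjOn f (Finset.range (n + 1) : Set ℕ) := by
    intro i hi j hj hij
    rw [Finset.mem_coe, Finset.mem_range] at hi hj
    by_contra hne
    have h1 := hf i (by omega)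
    have h2 := hf j (by omega)
    rw [hij] at h1
    have h3 := hinj i j _ h1 h2
    rcases Nat.lt_or_gt_of_ne hne with h | h
    · exact hcon i j h (by omega) h3
    · exact hcon j i h (by omega) h3.symm
  have hcard := Finset.card_le_card_of_injOn (s := Finset.range (n + 1))
    (t := Finset.univ.erase (⟨0, Nat.two_pow_pos _⟩ : Fin (2 ^ (g + 1)))) f (by
      intro i hi
      rw [Finset.mem_coe, Finset.mem_range] at hi
      rw [Finset.mem_coe, Finset.mem_erase]
      refine ⟨fun h => ?_, Finset.mem_univ _⟩
      have h1 := hf i (by omega)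
      refine h0 0 (bits_zero _) i (by omega) ?_
      rw [h] at h1
      exact h1) hinj2
  rw [Finset.card_range, Finset.card_erase_of_mem (Finset.mem_univ _), Finset.card_univ,
    Fintype.card_fin] at hcard
  have := Nat.two_pow_pos (g + 1)
  omega

/-- Whether some iterate satisfies a test can be decided in linear space. -/
theorem lin_orbit {init : α → σ} {step : σ → σ} {acc : σ → Bool} (hi : Lin init)
    (hs : Lin step) (ha : Lin acc) {g : ℕ → ℕ} (hg : LB g)
    (hB : ∀ x i, sz (step^[i] (init x)) ≤ g (sz x)) {f : α → Bool}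
    (hf : ∀ x, f x = true ↔ ∃ i, acc (step^[i] (init x)) = true) : Lin f := by
  obtain ⟨K, hK⟩ := hg.2
  let st : σ × List Bool → σ × List Bool := fun p => (step p.1, incr p.2)
  have hst : Lin st := (hs.comp Lin.fst).pair (Lin.incr Lin.snd)
  have hit : ∀ (x : α) (n : ℕ), st^[n] (init x, bits (K * sz x + K + 1) 0) =
      (step^[n] (init x), bits (K * sz x + K + 1) n) := by
    intro x n
    induction n with
    | zero => rfl
    | succ n ih =>
      rw [Function.iterate_succ_apply', ih, Function.iterate_succ_apply']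
      show (_, incr (bits _ n)) = _
      rw [incr_bits]
  have key : ∀ x, ∃ n, (∀ i < n, (!acc (step^[i] (init x)) &&
      !(bits (K * sz x + K + 1) i).all id) = true) ∧ n < 2 ^ (K * sz x + K + 1) ∧
      (!acc (step^[n] (init x)) && !(bits (K * sz x + K + 1) n).all id) = false ∧
      acc (step^[n] (init x)) = f x := by
    intro x
    set N := K * sz x + K + 1 with hN
    have hall : ∀ i < 2 ^ N, ((bits N i).all id = true ↔ i + 1 = 2 ^ N) := bits_all N
    by_cases hex : ∃ i, acc (step^[i] (init x)) = true
    · -- the first accepting iterate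
      classical
      have hmin := Nat.find_spec hex
      have hlt := fun i (h : i < Nat.find hex) => Nat.find_min hex h
      set n := Nat.find hex with hn
      have hn2 : n < 2 ^ N := by
        by_contra hcon
        push Not at hcon
        obtain ⟨i, j, hij, hj, he⟩ := exists_eq_of_sz_le (g := K * sz x + K) (n := 2 ^ N - 1)
          (by rw [← hN]; have := Nat.two_pow_pos N; omega) (fun i => step^[i] (init x))
          (fun i _ => (hB x i).trans (hK _))
        have h1 := iterate_eq_of_eq he (n - j)
        have h2 : j + (n - j) = n := by have := Nat.two_pow_pos N; omega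
        rw [h2] at h1
        refine hlt (i + (n - j)) (by have := Nat.two_pow_pos N; omega) ?_
        rw [h1]
        exact hmin
      refine ⟨n, ?_, hn2, ?_, ?_⟩
      · intro i hi
        have h1 : acc (step^[i] (init x)) = false := by simpa using hlt i hi
        have h2 : ¬ (bits N i).all id = true := by
          rw [hall i (by omega)]; omega
        simp [h1, h2]
      · simp [hmin]
      · rw [hmin]; exact ((hf x).2 hex).symm
    · have hno : ∀ i, acc (step^[i] (init x)) = false := by
        intro i
        by_contra h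
        exact hex ⟨i, by simpa using h⟩
      refine ⟨2 ^ N - 1, ?_, by have := Nat.two_pow_pos N; omega, ?_, ?_⟩
      · intro i hi
        have h2 : ¬ (bits N i).all id = true := by
          rw [hall i (by omega)]; omega
        simp [hno i, h2]
      · have h2 : (bits N (2 ^ N - 1)).all id = true := by
          rw [hall _ (by have := Nat.two_pow_pos N; omega)]
          have := Nat.two_pow_pos N; omega
        simp [h2]
      · rw [hno]
        have : ¬ f x = true := fun h => hex ((hf x).1 h)
        simpa using this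
  choose n h1 h2 h3 h4 using key
  have hmain : Lin (fun x => st^[n x] (init x, bits (K * sz x + K + 1) 0)) := by
    refine Lin.while (init := fun x => (init x, zw K x))
      (cond := fun p : σ × List Bool => !acc p.1 && !p.2.all id) (step := st)
      (hi.pair (Lin.zw K)) ((ha.comp Lin.fst).not.and (Lin.all Lin.snd).not) hst
      (g := fun m => g m + (4 * (K * m + K + 1) + 1) + 1)
      ((hg.add ((((((LB.id.smul K).add (LB.const K)).add (LB.const 1)).smul 4)).add
        (LB.const 1))).add (LB.const 1)) fun x => ⟨n x, ?_, ?_, ?_, ?_⟩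
    · intro i hi
      rw [zw_eq, hit]
      exact h1 x i hi
    · rw [zw_eq, hit]
      exact h3 x
    · intro i hi
      rw [zw_eq, hit, sz_pair]
      have e1 := hB x i
      have e2 := sz_word_bool (bits (K * sz x + K + 1) i)
      rw [bits_length] at e2
      omega
    · rw [zw_eq]
  refine (ha.comp (Lin.fst.comp hmain)).of_eq fun x => ?_
  rw [hit]
  exact h4 x

end Pool.Agent.Lib.LinSpace
end

section

/-!
Simulation of deterministic linearly bounded machines by linear space functions.
-/

set_option autoImplicit false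
set_option linter.unusedSimpArgs false

namespace Pool.Agent.Lib.LinSpace

/-! ### Zippers -/

/-- The cells to the left of the head and the cells from the head on. -/
abbrev Zip (Γ : Type) := List Γ × List Γ

namespace Zip

variable {Γ : Type}

/-- The zipper `z` shows the tape `f` around the position `p`. -/
def Rep (b : Γ) (z : Zip Γ) (f : ℤ → Γ) (p : ℤ) : Prop :=
  (∀ k : ℕ, f (p + k) = z.2.getD k b) ∧ ∀ k : ℕ, f (p - 1 - k) = z.1.getD k b

/-- Moving the head. -/
def move (b : Γ) : Dir → Zip Γ → Zip Γ
  | .left, z => (z.1.tail, z.1.headD b :: z.2)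
  | .stay, z => z
  | .right, z => (z.2.headD b :: z.1, z.2.tail)

/-- Writing a symbol. -/
def write (y : Γ) (z : Zip Γ) : Zip Γ := (z.1, y :: z.2.tail)

theorem getD_tail (l : List Γ) (k : ℕ) (b : Γ) : l.tail.getD k b = l.getD (k + 1) b := by
  cases l <;> simp

theorem headD_eq (l : List Γ) (b : Γ) : l.headD b = l.getD 0 b := by
  cases l <;> simp

theorem Rep.head {b : Γ} {z : Zip Γ} {f : ℤ → Γ} {p : ℤ} (h : Rep b z f p) :
    z.2.headD b = f p := by
  rw [headD_eq, ← h.1 0]
  simp

theorem Rep.move {b : Γ} {z : Zip Γ} {f : ℤ → Γ} {p : ℤ} (h : Rep b z f p) (d : Dir) :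
    Rep b (Zip.move b d z) f (p + d.toInt) := by
  obtain ⟨h1, h2⟩ := h
  cases d with
  | stay => simpa [Zip.move, Dir.toInt] using ⟨h1, h2⟩
  | left =>
    refine ⟨fun k => ?_, fun k => ?_⟩
    · cases k with
      | zero =>
        show f _ = (z.1.headD b :: z.2).getD 0 b
        rw [List.getD_cons_zero, headD_eq, ← h2 0]
        congr 1
      | succ k =>
        show f _ = (z.1.headD b :: z.2).getD (k + 1) b
        rw [List.getD_cons_succ, ← h1 k]
        congr 1
        simp only [Dir.toInt, Nat.cast_succ]
        ring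
    · show f _ = z.1.tail.getD k b
      rw [getD_tail, ← h2 (k + 1)]
      congr 1
      simp only [Dir.toInt, Nat.cast_succ]
      ring
  | right =>
    refine ⟨fun k => ?_, fun k => ?_⟩
    · show f _ = z.2.tail.getD k b
      rw [getD_tail, ← h1 (k + 1)]
      congr 1
      simp only [Dir.toInt, Nat.cast_succ]
      ring
    · cases k with
      | zero =>
        show f _ = (z.2.headD b :: z.1).getD 0 b
        rw [List.getD_cons_zero, headD_eq, ← h1 0]
        congr 1
        simp only [Dir.toInt, Nat.cast_zero]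
        ring
      | succ k =>
        show f _ = (z.2.headD b :: z.1).getD (k + 1) b
        rw [List.getD_cons_succ, ← h2 k]
        congr 1
        simp only [Dir.toInt, Nat.cast_succ]
        ring

theorem Rep.write {b : Γ} {z : Zip Γ} {f : ℤ → Γ} {p : ℤ} (h : Rep b z f p) (y : Γ) :
    Rep b (Zip.write y z) (Function.update f p y) p := by
  obtain ⟨h1, h2⟩ := h
  refine ⟨fun k => ?_, fun k => ?_⟩
  · cases k with
    | zero => simp [Zip.write]
    | succ k =>
      show _ = (y :: z.2.tail).getD (k + 1) b
      rw [List.getD_cons_succ, getD_tail, ← h1 (k + 1), Function.update_of_ne]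
      push_cast
      omega
  · show _ = z.1.getD k b
    rw [← h2 k, Function.update_of_ne]
    omega

/-- The cells of the zipper lie in the set `S`. -/
def In (z : Zip Γ) (p : ℤ) (S : Set ℤ) : Prop :=
  ∀ q : ℤ, p - z.1.length ≤ q → q < p + z.2.length → q ∈ S

theorem In.mono {z : Zip Γ} {p : ℤ} {S S' : Set ℤ} (h : In z p S) (hS : S ⊆ S') : In z p S' :=
  fun q h1 h2 => hS (h q h1 h2)

theorem In.move {b : Γ} {z : Zip Γ} {p : ℤ} {S : Set ℤ} (h : In z p S) (hp : p ∈ S) (d : Dir)
    (hd : p + d.toInt ∈ S) : In (Zip.move b d z) (p + d.toInt) S := by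
  obtain ⟨l, r⟩ := z
  intro q h1 h2
  cases d with
  | stay =>
    simp only [Zip.move, Dir.toInt, add_zero] at h1 h2
    exact h q h1 h2
  | left =>
    simp only [Zip.move, Dir.toInt, List.length_cons, List.length_tail] at h1 h2 hd
    by_cases hq : q = p - 1
    · rw [hq]; exact hd
    · refine h q ?_ ?_
      · show p - (l.length : ℤ) ≤ q
        omega
      · show q < p + (r.length : ℤ)
        push_cast at h2
        omega
  | right =>
    simp only [Zip.move, Dir.toInt, List.length_cons, List.length_tail] at h1 h2 hd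
    by_cases hq : q = p
    · rw [hq]; exact hp
    · refine h q ?_ ?_
      · show p - (l.length : ℤ) ≤ q
        push_cast at h1
        omega
      · show q < p + (r.length : ℤ)
        omega

theorem In.write {z : Zip Γ} {p : ℤ} {S : Set ℤ} (h : In z p S) (hp : p ∈ S) (y : Γ) :
    In (Zip.write y z) p S := by
  obtain ⟨l, r⟩ := z
  intro q h1 h2
  simp only [Zip.write, List.length_cons, List.length_tail] at h1 h2
  by_cases hq : q = p
  · rw [hq]; exact hp
  · refine h q h1 ?_
    show q < p + (r.length : ℤ)
    push_cast at h2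
    omega

theorem In.card {z : Zip Γ} {p : ℤ} {S : Finset ℤ} (h : In z p S) :
    z.1.length + z.2.length ≤ S.card := by
  have h1 : Finset.Ico (p - z.1.length) (p + z.2.length) ⊆ S := by
    intro q hq
    rw [Finset.mem_Ico] at hq
    exact h q hq.1 hq.2
  have h2 := Finset.card_le_card h1
  rw [Int.card_Ico] at h2
  omega

end Zip

/-! ### The simulation -/

theorem exists_sz_list_le (Γ : Type) [Enc Γ] [Finite Γ] :
    ∃ K, ∀ l : List Γ, sz l ≤ K * l.length + 1 := by
  obtain ⟨D, hD⟩ : ∃ D, ∀ a : Γ, sz a ≤ D := by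
    obtain ⟨D, hD⟩ := (Set.finite_range fun a : Γ => sz a).bddAbove
    exact ⟨D, fun a => hD ⟨a, rfl⟩⟩
  refine ⟨D + 1, fun l => ?_⟩
  induction l with
  | nil => simp [sz_nil]
  | cons a l ih =>
    rw [sz_cons, List.length_cons, Nat.mul_add]
    have := hD a
    omega

namespace Machine

variable {A : Type} (M : Machine A)

instance : Finite M.Q := M.finQ
instance : Finite M.Γ := M.finΓ
noncomputable instance : Enc M.Q := encFinite M.Q
noncomputable instance : Enc M.Γ := encFinite M.Γ

/-- Configurations for the simulation. -/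
abbrev Sc := M.Q × (Zip M.Γ × Zip M.Γ)

open Classical in
/-- The action chosen in a situation. -/
noncomputable def act (j : M.Q × (M.Γ × M.Γ)) : Option (M.Q × M.Γ × Dir × Dir) :=
  if h : ∃ a, a ∈ M.δ j.1 j.2.1 j.2.2 then some h.choose else none

/-- Performing an action. -/
def perf : Option (M.Q × M.Γ × Dir × Dir) → M.Sc → M.Sc
  | none, s => s
  | some a, s => (a.1, (s.2.1.move M.blank a.2.2.1, (s.2.2.write a.2.1).move M.blank a.2.2.2))

/-- The situation of a configuration. -/
def sit (s : M.Sc) : M.Q × (M.Γ × M.Γ) :=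
  (s.1, (s.2.1.2.headD M.blank, s.2.2.2.headD M.blank))

/-- One step of the simulation. -/
noncomputable def sstep (s : M.Sc) : M.Sc := M.perf (M.act (M.sit s)) s

theorem lin_move (d : Dir) : Lin (Zip.move M.blank d) := by
  cases d with
  | left => exact (Lin.fst.tail).pair ((Lin.fst.headD M.blank).cons Lin.snd)
  | stay => exact Lin.id
  | right => exact ((Lin.snd.headD M.blank).cons Lin.fst).pair Lin.snd.tail

theorem lin_write (y : M.Γ) : Lin (Zip.write y) :=
  Lin.fst.pair ((Lin.const y).cons Lin.snd.tail)

theorem lin_perf (a : Option (M.Q × M.Γ × Dir × Dir)) : Lin (M.perf a) := by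
  cases a with
  | none => exact Lin.id
  | some a =>
    exact (Lin.const a.1).pair (((M.lin_move a.2.2.1).comp (Lin.fst.comp Lin.snd)).pair
      ((M.lin_move a.2.2.2).comp ((M.lin_write a.2.1).comp (Lin.snd.comp Lin.snd))))

theorem lin_sit : Lin M.sit :=
  Lin.fst.pair (((Lin.snd.comp (Lin.fst.comp Lin.snd)).headD M.blank).pair
    ((Lin.snd.comp (Lin.snd.comp Lin.snd)).headD M.blank))

theorem lin_sstep : Lin M.sstep :=
  Lin.finCase M.lin_sit (f := fun j s => M.perf (M.act j) s) fun j => M.lin_perf _

/-- The start of the simulation. -/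
def sinit (w : List A) : M.Sc := (M.start, (([], w.map M.ι), ([], [])))

/-- The cells visited in a computation. -/
def cells (n : ℕ) (c : ℕ → M.Cfg) : Finset ℤ := (Finset.range (n + 1)).image fun i => (c i).pos

theorem cells_succ_subset {n : ℕ} {c c' : ℕ → M.Cfg} (h : ∀ i ≤ n, c' i = c i) :
    M.cells n c ⊆ M.cells (n + 1) c' := by
  intro q hq
  obtain ⟨i, hi, rfl⟩ := Finset.mem_image.1 hq
  rw [Finset.mem_range] at hi
  refine Finset.mem_image.2 ⟨i, by rw [Finset.mem_range]; omega, ?_⟩
  rw [h i (by omega)]

theorem mem_cells {n i : ℕ} {c : ℕ → M.Cfg} (h : i ≤ n) : (c i).pos ∈ M.cells n c :=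
  Finset.mem_image.2 ⟨i, by rw [Finset.mem_range]; omega, rfl⟩

/-- The simulation shows the last configuration of a computation. -/
structure Shows (w : List A) (n : ℕ) (c : ℕ → M.Cfg) (s : M.Sc) : Prop where
  comp : M.IsComputation w n c
  state : s.1 = (c n).state
  inp : s.2.1.Rep M.blank (M.inputSymbol w) (c n).inPos
  wrk : s.2.2.Rep M.blank (c n).tape (c n).pos
  inpIn : s.2.1.In (c n).inPos {q | -1 ≤ q ∧ q ≤ w.length}
  wrkIn : s.2.2.In (c n).pos (M.cells n c : Finset ℤ)

theorem shows_init (w : List A) : M.Shows w 0 (fun _ => M.init) (M.sinit w) := by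
  refine ⟨⟨rfl, fun i hi => absurd hi (by omega)⟩, rfl, ⟨fun k => ?_, fun k => ?_⟩,
    ⟨fun k => ?_, fun k => ?_⟩, ?_, ?_⟩
  · show M.inputSymbol w (0 + k) = (w.map M.ι).getD k M.blank
    rw [inputSymbol, if_pos (by omega)]
    rw [List.getD_eq_getElem?_getD, List.getElem?_map]
    have : ((0 : ℤ) + k).toNat = k := by omega
    rw [this]
    cases w[k]? <;> rfl
  · show M.inputSymbol w (0 - 1 - k) = ([] : List M.Γ).getD k M.blank
    rw [inputSymbol, if_neg (by omega)]
    simp
  · show M.blank = ([] : List M.Γ).getD k M.blank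
    simp
  · show M.blank = ([] : List M.Γ).getD k M.blank
    simp
  · intro q h1 h2
    simp only [sinit, init, List.length_nil, List.length_map] at h1 h2
    show -1 ≤ q ∧ q ≤ w.length
    push_cast at h1
    omega
  · intro q h1 h2
    simp only [sinit, init, List.length_nil] at h1 h2
    push_cast at h1 h2
    omega

/-- The next configuration. -/
def nxt (c : M.Cfg) (a : M.Q × M.Γ × Dir × Dir) : M.Cfg :=
  ⟨a.1, c.inPos + a.2.2.1.toInt, Function.update c.tape c.pos a.2.1, c.pos + a.2.2.2.toInt⟩

theorem sit_eq {w : List A} {n : ℕ} {c : ℕ → M.Cfg} {s : M.Sc} (h : M.Shows w n c s) :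
    M.sit s = ((c n).state, (M.inputSymbol w (c n).inPos, (c n).tape (c n).pos)) := by
  rw [sit, h.state, h.inp.head, h.wrk.head]

theorem act_mem {j : M.Q × (M.Γ × M.Γ)} {a : M.Q × M.Γ × Dir × Dir} (h : M.act j = some a) :
    a ∈ M.δ j.1 j.2.1 j.2.2 := by
  unfold act at h
  split at h
  next h' =>
    have h2 := Option.some.inj h
    rw [← h2]
    exact h'.choose_spec
  next => simp at h

theorem shows_next (hin : M.InputBounded) {w : List A} {n : ℕ} {c : ℕ → M.Cfg} {s : M.Sc}
    (h : M.Shows w n c s) {a : M.Q × M.Γ × Dir × Dir}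
    (ha : a ∈ M.δ (c n).state (M.inputSymbol w (c n).inPos) ((c n).tape (c n).pos))
    {c' : ℕ → M.Cfg} (hc : ∀ i ≤ n, c' i = c i) (hn : c' (n + 1) = M.nxt (c n) a) :
    M.Shows w (n + 1) c' (M.perf (some a) s) := by
  have hcomp : M.IsComputation w (n + 1) c' := by
    refine ⟨by rw [hc 0 (by omega)]; exact h.comp.1, fun i hi => ?_⟩
    by_cases hin : i < n
    · rw [hc i (by omega), hc (i + 1) (by omega)]
      exact h.comp.2 i hin
    · have : i = n := by omega
      subst this
      rw [hc i (le_refl _), hn]
      exact ⟨a.1, a.2.1, a.2.2.1, a.2.2.2, ha, rfl⟩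
  have hb := hin w (n + 1) c' hcomp
  have hb0 := hin w n c h.comp
  have hsub : ((M.cells n c : Finset ℤ) : Set ℤ) ⊆ (M.cells (n + 1) c' : Finset ℤ) :=
    fun q hq => M.cells_succ_subset hc hq
  have hp1 := M.mem_cells (c := c') (le_refl (n + 1))
  have hp0 := M.mem_cells (c := c') (n := n + 1) (i := n) (by omega)
  rw [hc n (le_refl _)] at hp0
  rw [hn] at hp1
  refine ⟨hcomp, by rw [hn]; rfl, ?_, ?_, ?_, ?_⟩
  · rw [hn]
    exact h.inp.move _
  · rw [hn]
    exact (h.wrk.write _).move _
  · rw [hn]
    rw [hn] at hb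
    exact h.inpIn.move hb0 _ hb
  · rw [hn]
    exact ((h.wrkIn.mono hsub).write hp0 _).move hp0 _ hp1

theorem shows_all (hin : M.InputBounded) (w : List A) (i : ℕ) :
    ∃ n c, M.Shows w n c (M.sstep^[i] (M.sinit w)) := by
  induction i with
  | zero => exact ⟨0, _, M.shows_init w⟩
  | succ i ih =>
    obtain ⟨n, c, h⟩ := ih
    rw [Function.iterate_succ_apply', sstep]
    cases ha : M.act (M.sit (M.sstep^[i] (M.sinit w))) with
    | none => exact ⟨n, c, h⟩
    | some a =>
      have h1 := M.act_mem ha
      rw [M.sit_eq h] at h1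
      exact ⟨n + 1, fun k => if k ≤ n then c k else M.nxt (c n) a,
        M.shows_next hin h h1 (fun k hk => if_pos hk) (if_neg (by omega))⟩

theorem shows_comp (hdet : M.Deterministic) (hin : M.InputBounded) {w : List A} {n : ℕ}
    {c : ℕ → M.Cfg} (hc : M.IsComputation w n c) : ∀ i ≤ n,
    M.Shows w i c (M.sstep^[i] (M.sinit w)) := by
  intro i
  induction i with
  | zero =>
    intro _
    have h := M.shows_init w
    have h0 := hc.1
    refine ⟨⟨h0, fun i hi => absurd hi (by omega)⟩, ?_, ?_, ?_, ?_, ?_⟩
    · rw [h0]; exact h.state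
    · rw [h0]; exact h.inp
    · rw [h0]; exact h.wrk
    · rw [h0]; exact h.inpIn
    · intro q h1 h2
      simp only [sinit, Function.iterate_zero, id_eq, List.length_nil] at h1 h2
      push_cast at h1 h2
      omega
  | succ i ih =>
    intro hi
    have h := ih (by omega)
    rw [Function.iterate_succ_apply', sstep]
    obtain ⟨q, y, d, e, ha, hst⟩ := hc.2 i (by omega)
    have hact : M.act (M.sit (M.sstep^[i] (M.sinit w))) = some (q, y, d, e) := by
      have hex : ∃ a, a ∈ M.δ (M.sit (M.sstep^[i] (M.sinit w))).1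
          (M.sit (M.sstep^[i] (M.sinit w))).2.1 (M.sit (M.sstep^[i] (M.sinit w))).2.2 := by
        rw [M.sit_eq h]
        exact ⟨_, ha⟩
      rw [act, dif_pos hex]
      congr 1
      refine hdet _ _ _ hex.choose_spec ?_
      rw [M.sit_eq h]
      exact ha
    rw [hact]
    exact M.shows_next hin h ha (fun _ _ => rfl) hst

open Classical in
/-- Membership in a deterministic context-sensitive language is a linear space function. -/
theorem _root_.Pool.Agent.Lib.LinSpace.lin_of_mem_DCS [Finite A] [Enc A] {L : Language A}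
    (h : L ∈ DCS A) : Lin (fun w : List A => decide (w ∈ L)) := by
  obtain ⟨M, hdet, hin, ⟨a, b, hlb⟩, rfl⟩ := h
  obtain ⟨D, hD⟩ : ∃ D, ∀ q : M.Q, sz q ≤ D := by
    obtain ⟨D, hD⟩ := (Set.finite_range fun q : M.Q => sz q).bddAbove
    exact ⟨D, fun a => hD ⟨a, rfl⟩⟩
  obtain ⟨K, hK⟩ := exists_sz_list_le M.Γ
  have hinit : Lin M.sinit :=
    (Lin.const M.start).pair (((Lin.const []).pair (Lin.map' Lin.id (Lin.of_finite M.ι))).pair
      (Lin.const ([], [])))
  have hacc : Lin (fun s : M.Sc => decide (s.1 ∈ M.acc)) :=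
    (Lin.of_finite (fun q : M.Q => decide (q ∈ M.acc))).comp Lin.fst
  refine lin_orbit (init := M.sinit) (step := M.sstep) (acc := fun s => decide (s.1 ∈ M.acc))
    hinit M.lin_sstep hacc (g := fun m => D + (K * (m + 2) + 2) + (K * (a * m + b) + 2) + 4)
    ((((LB.const D).add ((((LB.id.add (LB.const 2)).smul K).add (LB.const 2)))).add
      (((((LB.id.smul a).add (LB.const b)).smul K).add (LB.const 2)))).add (LB.const 4)) ?_ ?_
  · intro w i
    obtain ⟨n, c, h⟩ := M.shows_all hin w i
    set s := M.sstep^[i] (M.sinit w)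
    have h1 := hD s.1
    have hw : w.length ≤ sz w := (length_le_sz w).le
    have e1 : s.2.1.1.length + s.2.1.2.length ≤ sz w + 2 := by
      have h2 : s.2.1.In (c n).inPos ((Finset.Icc (-1) (w.length : ℤ) : Finset ℤ) : Set ℤ) := by
        refine h.inpIn.mono fun q hq => ?_
        rw [Finset.mem_coe, Finset.mem_Icc]
        exact hq
      have h3 := h2.card
      rw [Int.card_Icc] at h3
      omega
    have e2 : s.2.2.1.length + s.2.2.2.length ≤ a * sz w + b := by
      have h3 := h.wrkIn.card
      have h4 := hlb w n c h.comp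
      have h5 : M.visited n c = (M.cells n c).card := rfl
      have h6 : a * w.length ≤ a * sz w := Nat.mul_le_mul_left _ hw
      omega
    have f1 := hK s.2.1.1
    have f2 := hK s.2.1.2
    have f3 := hK s.2.2.1
    have f4 := hK s.2.2.2
    have g1 := Nat.mul_le_mul_left K e1
    have g2 := Nat.mul_le_mul_left K e2
    rw [Nat.mul_add] at g1 g2
    have e3 : sz s = sz s.1 + (sz s.2.1.1 + sz s.2.1.2 + 1 + (sz s.2.2.1 + sz s.2.2.2 + 1) + 1)
        + 1 := by
      rw [← sz_pair, ← sz_pair, ← sz_pair, ← sz_pair]
    rw [e3]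
    omega
  · intro w
    rw [decide_eq_true_iff]
    constructor
    · rintro ⟨n, c, hc, hacc⟩
      refine ⟨n, ?_⟩
      rw [decide_eq_true_iff, (M.shows_comp hdet hin hc n (le_refl _)).state]
      exact hacc
    · rintro ⟨i, hi⟩
      rw [decide_eq_true_iff] at hi
      obtain ⟨n, c, h⟩ := M.shows_all hin w i
      exact ⟨n, c, h.comp, by rw [← h.state]; exact hi⟩

end Machine

end Pool.Agent.Lib.LinSpace
end
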